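import Mathlib
import Pool.Agent.H54.G.TH53.RP1

set_option autoImplicit false
set_option linter.unusedVariables false

/-!
# The height inequality with a Vandermonde determinant, different gains at different places
-/

namespace Pool.Agent.H54.RX

open NumberField Height Module
open Pool.Agent.W237.RK
open Pool.Agent.W848.RK
open Pool.Agent.Helper259.AbsHt
open Pool.Agent.H58P (Qb ht qb_isIntegral)
open Pool.Agent.TH53.RP (OP prod_OP prod_split vand_norm prod_mul_row sum_row sum_OP)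

section core

variable {G : Type*} [Fintype G] {d : ℕ} (U V : G → Fin d → Qb)

theorem core3 (p : ℕ) [hp : Fact p.Prime] (φ : Qb →+* PadicAlgCl p) (M : GF)
    (hU : ∀ g s, U g s ∈ M) (hV : ∀ g s, V g s ∈ M) (hne : ∀ g s, U g s ≠ V g s)
    (hcj : ∀ W : ValuationSubring Qb, W.valuation (p : Qb) < 1 → ∃ (π : G ≃ G) (ρ : Aut),
      (∀ g s, ρ (U g s) = U (π g) s) ∧ (∀ g s, ρ (V g s) = V (π g) s) ∧
      ∀ x ∈ M, (x ∈ W ↔ ‖φ (ρ x)‖ ≤ 1))
    (A : ℝ) (hA0 : 0 < A) (hA : ∀ ψ : Qb →+* ℂ, ‖ψ (N0 U V)‖ ≤ A *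
      ∏ q : G × Fin d, (max 1 ‖ψ (U q.1 q.2)‖ * max 1 ‖ψ (V q.1 q.2)‖))
    (Δ : ℝ) (hΔ0 : 0 < Δ) (hΔ1 : Δ ≤ 1)
    (hloc : ‖φ (N0 U V)‖ ≤ Δ *
      ∏ q : G × Fin d, (max 1 ‖φ (U q.1 q.2)‖ * max 1 ‖φ (V q.1 q.2)‖)) :
    -Real.log Δ ≤
      ∑ q : G × Fin d, (ht (U q.1 q.2) + ht (V q.1 q.2)) + Real.log A := by
  classical
  have hpp : p.Prime := hp.out
  have hp0 : (0 : ℝ) < p := by exact_mod_cast hpp.pos
  have hp1 : (1 : ℝ) < p := by exact_mod_cast hpp.one_lt
  have hlogp : 0 < Real.log p := Real.log_pos hp1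
  have hlogδ : 0 ≤ -Real.log Δ := by
    have := Real.log_nonpos hΔ0.le hΔ1
    linarith
  have hN0 := N0_ne U V hne
  have hw := ht_wv U V
  set H : ℝ := ∑ q : G × Fin d, (ht (U q.1 q.2) + ht (V q.1 q.2)) with hH
  -- main inequality
  have key : ∀ r : ℕ, (r : ℝ) * (-Real.log Δ) - Real.log p ≤
      (r : ℝ) * (H + Real.log A) := by
    intro r
    set b : ℕ := ⌊((r : ℝ) * (-Real.log Δ)) / Real.log p⌋₊ with hb
    have hb1 : (b : ℝ) * Real.log p ≤ (r : ℝ) * (-Real.log Δ) := by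
      rw [← le_div_iff₀ hlogp]
      exact Nat.floor_le (by positivity)
    have hb2 : (r : ℝ) * (-Real.log Δ) < (b + 1 : ℝ) * Real.log p := by
      rw [← div_lt_iff₀ hlogp]
      exact Nat.lt_floor_add_one _
    let c : Qb := (p : Qb) ^ b * (N0 U V ^ r)⁻¹
    have hpQ : (p : Qb) ≠ 0 := by exact_mod_cast hpp.ne_zero
    have hc : c ≠ 0 := mul_ne_zero (pow_ne_zero _ hpQ) (inv_ne_zero (pow_ne_zero _ hN0))
    have hx : absLogHeight (c • fun f => wv U V f ^ r) = r * H := by
      rw [absLogHeight_smul _ hc, absLogHeight_powfam, hw]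
    have hle : Real.log ((p : ℝ) ^ b / A ^ r) ≤
        absLogHeight (c • fun f => wv U V f ^ r) := by
      apply height_geR
      · positivity
      · intro W
        have hpW : W.valuation (p : Qb) ≤ 1 := by
          rw [ValuationSubring.valuation_le_one_iff]
          exact natCast_mem W p
        rcases lt_or_eq_of_le hpW with h | h
        · obtain ⟨π, ρ, hρU, hρV, hρ⟩ := hcj W h
          obtain ⟨f, hf⟩ := exists_max U V (fun x => ‖φ (ρ x)‖) (by simp) (by simp)
          have hf1 : ‖φ (ρ (wv U V f))‖ =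
              ∏ q : G × Fin d, (max 1 ‖φ (U q.1 q.2)‖ * max 1 ‖φ (V q.1 q.2)‖) := by
            have h1 : ‖φ (ρ (wv U V f))‖ = ∏ q : G × Fin d,
              (max 1 ‖φ (ρ (U q.1 q.2))‖ * max 1 ‖φ (ρ (V q.1 q.2))‖) := hf
            rw [h1]
            simp only [hρU, hρV]
            exact Equiv.prod_comp (π.prodCongr (Equiv.refl (Fin d)))
              (fun q : G × Fin d => (max 1 ‖φ (U q.1 q.2)‖ * max 1 ‖φ (V q.1 q.2)‖))
          have hN1 : ρ (N0 U V) = N0 U V := by
            rw [N0, map_prod]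
            simp only [map_sub, hρU, hρV]
            exact Equiv.prod_comp (π.prodCongr (Equiv.refl (Fin d)))
              (fun q : G × Fin d => (U q.1 q.2 - V q.1 q.2))
          refine ⟨f, ?_⟩
          -- the element and its norm
          have hP1 : (1 : ℝ) ≤ ∏ q : G × Fin d,
              (max 1 ‖φ (U q.1 q.2)‖ * max 1 ‖φ (V q.1 q.2)‖) := by
            refine Finset.prod_induction _ (fun x : ℝ => 1 ≤ x) ?_ le_rfl ?_
            · intro a b ha hb
              exact one_le_mul_of_one_le_of_one_le ha hb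
            · intro q _
              exact one_le_mul_of_one_le_of_one_le (le_max_left _ _) (le_max_left _ _)
          have hwf0 : wv U V f ≠ 0 := by
            intro h0
            rw [h0, map_zero, map_zero, norm_zero] at hf1
            rw [← hf1] at hP1
            linarith
          have hx0 : c * wv U V f ^ r ≠ 0 := mul_ne_zero hc (pow_ne_zero _ hwf0)
          have hxM : (c * wv U V f ^ r)⁻¹ ∈ M := by
            have h1 : N0 U V ∈ M := prod_mem fun q _ => sub_mem (hU _ _) (hV _ _)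
            have h2 : wv U V f ∈ M := by
              refine prod_mem fun q _ => mul_mem ?_ ?_
              · generalize (f q).1 = j
                fin_cases j
                · simp
                · simpa using hU q.1 q.2
              · generalize (f q).2 = j
                fin_cases j
                · simp
                · simpa using hV q.1 q.2
            exact inv_mem (mul_mem (mul_mem (pow_mem (natCast_mem _ _) _)
              (inv_mem (pow_mem h1 _))) (pow_mem h2 _))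
          have hnorm : 1 ≤ ‖φ (ρ (c * wv U V f ^ r))‖ := by
            have e1 : ‖φ (ρ (c * wv U V f ^ r))‖ = ((p : ℝ)⁻¹) ^ b * (‖φ (N0 U V)‖ ^ r)⁻¹ *
                ‖φ (ρ (wv U V f))‖ ^ r := by
              have hp' : ‖φ (ρ (p : Qb))‖ = (p : ℝ)⁻¹ := by
                rw [map_natCast, map_natCast]
                have h2 := PadicAlgCl.norm_extends p (p : ℚ_[p])
                rw [Padic.norm_p] at h2
                rw [← h2]
                congr 1
              rw [show c = (p : Qb) ^ b * (N0 U V ^ r)⁻¹ from rfl]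
              simp only [map_mul, map_pow, map_inv₀, norm_mul, norm_pow, norm_inv, hN1, hp']
            have hX : 0 < ‖φ (N0 U V)‖ := norm_pos_iff.mpr ((map_ne_zero φ).mpr hN0)
            rw [e1, hf1]
            set P : ℝ := ∏ q : G × Fin d, (max 1 ‖φ (U q.1 q.2)‖ * max 1 ‖φ (V q.1 q.2)‖)
            have hP0 : 0 < P := by linarith
            have hXr : ‖φ (N0 U V)‖ ^ r ≤ (Δ) ^ r * P ^ r := by
              rw [← mul_pow]
              exact pow_le_pow_left₀ hX.le hloc r
            have hpb : (p : ℝ) ^ b * (Δ) ^ r ≤ 1 := by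
              rw [← Real.log_nonpos_iff (by positivity),
                Real.log_mul (by positivity) (by positivity), Real.log_pow, Real.log_pow]
              linarith
            have h5 : (p : ℝ) ^ b * ‖φ (N0 U V)‖ ^ r ≤ P ^ r := by
              calc (p : ℝ) ^ b * ‖φ (N0 U V)‖ ^ r ≤ (p : ℝ) ^ b * ((Δ) ^ r * P ^ r) := by
                    gcongr
                _ = ((p : ℝ) ^ b * (Δ) ^ r) * P ^ r := by ring
                _ ≤ 1 * P ^ r := by gcongr
                _ = P ^ r := one_mul _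
            rw [inv_pow, ← mul_inv, ← div_eq_inv_mul, one_le_div (by positivity)]
            exact h5
          have h1 : (c * wv U V f ^ r)⁻¹ ∈ W := by
            rw [hρ _ hxM, map_inv₀, map_inv₀, norm_inv]
            exact inv_le_one_of_one_le₀ hnorm
          rw [← ValuationSubring.valuation_le_one_iff, map_inv₀] at h1
          show 1 ≤ W.valuation (c * wv U V f ^ r)
          exact (inv_le_one₀ (zero_lt_iff.mpr ((Valuation.ne_zero_iff _).mpr hx0))).mp h1
        · obtain ⟨f, hf⟩ := exists_max U V (fun x => W.valuation x) (by simp) (by simp)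
          refine ⟨f, ?_⟩
          have hN : W.valuation (N0 U V) ≤ W.valuation (wv U V f) := by
            rw [hf, N0, map_prod]
            apply Finset.prod_le_prod'
            intro q _
            refine (Valuation.map_sub _ _ _).trans (max_le ?_ ?_)
            · calc W.valuation (U q.1 q.2) ≤ max 1 (W.valuation (U q.1 q.2)) := le_max_right _ _
                _ = max 1 (W.valuation (U q.1 q.2)) * 1 := (mul_one _).symm
                _ ≤ _ := mul_le_mul' le_rfl (le_max_left _ _)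
            · calc W.valuation (V q.1 q.2) ≤ max 1 (W.valuation (V q.1 q.2)) := le_max_right _ _
                _ = 1 * max 1 (W.valuation (V q.1 q.2)) := (one_mul _).symm
                _ ≤ _ := mul_le_mul' (le_max_left _ _) le_rfl
          have hN' : W.valuation (N0 U V) ≠ 0 := (Valuation.ne_zero_iff _).mpr hN0
          show 1 ≤ W.valuation ((p : Qb) ^ b * (N0 U V ^ r)⁻¹ * wv U V f ^ r)
          rw [map_mul, map_mul, map_pow, map_inv₀, map_pow, map_pow, h, one_pow, one_mul,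
            ← inv_mul_cancel₀ (pow_ne_zero r hN')]
          exact mul_le_mul' le_rfl (pow_le_pow_left' hN r)
      · intro ψ
        obtain ⟨f, hf⟩ := exists_max U V (fun x => ‖ψ x‖) (by simp) (by simp)
        refine ⟨f, ?_⟩
        have hN : ‖ψ (N0 U V)‖ ≤ A * ‖ψ (wv U V f)‖ := by
          have hf' : ‖ψ (wv U V f)‖ = ∏ q : G × Fin d,
              (max 1 ‖ψ (U q.1 q.2)‖ * max 1 ‖ψ (V q.1 q.2)‖) := hf
          rw [hf']
          exact hA ψ
        have hX : 0 < ‖ψ (N0 U V)‖ := norm_pos_iff.mpr ((map_ne_zero ψ).mpr hN0)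
        show (p : ℝ) ^ b / A ^ r ≤ ‖ψ ((p : Qb) ^ b * (N0 U V ^ r)⁻¹ * wv U V f ^ r)‖
        have e1 : ‖ψ ((p : Qb) ^ b * (N0 U V ^ r)⁻¹ * wv U V f ^ r)‖ =
            (p : ℝ) ^ b * (‖ψ (N0 U V)‖ ^ r)⁻¹ * ‖ψ (wv U V f)‖ ^ r := by
          simp only [map_mul, map_pow, map_inv₀, norm_mul, norm_pow, norm_inv, map_natCast,
            Complex.norm_natCast]
        rw [e1]
        have hXr : ‖ψ (N0 U V)‖ ^ r ≤ A ^ r * ‖ψ (wv U V f)‖ ^ r := by
          rw [← mul_pow]
          exact pow_le_pow_left₀ hX.le hN r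
        rw [div_le_iff₀ (by positivity)]
        calc (p : ℝ) ^ b = (p : ℝ) ^ b * ((‖ψ (N0 U V)‖ ^ r)⁻¹ * ‖ψ (N0 U V)‖ ^ r) := by
              rw [inv_mul_cancel₀ (by positivity), mul_one]
          _ ≤ (p : ℝ) ^ b * ((‖ψ (N0 U V)‖ ^ r)⁻¹ * (A ^ r * ‖ψ (wv U V f)‖ ^ r)) := by
              gcongr
          _ = _ := by ring
    rw [hx, Real.log_div (by positivity) (by positivity), Real.log_pow, Real.log_pow] at hle
    nlinarith
  by_contra hcon
  push Not at hcon
  set A' := -Real.log Δ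
  set B := H + Real.log A
  obtain ⟨r, hr⟩ := exists_nat_gt (Real.log p / (A' - B))
  have h1 := key r
  rw [div_lt_iff₀ (by linarith)] at hr
  nlinarith

end core

/-- **the height inequality with a Vandermonde determinant** -/
theorem ht3 (p : ℕ) [Fact p.Prime] (φ : Qb →+* PadicAlgCl p) (M : GF)
    (hM : FiniteDimensional ℚ M) (hst : ∀ σ : Aut, ∀ x ∈ M, σ x ∈ M)
    (n : ℕ) (z : Fin n → M) (hz : Function.Injective z)
    (T : Finset (M ≃ₐ[ℚ] M)) (δ : (M ≃ₐ[ℚ] M) → ℝ) (hδ0 : ∀ τ ∈ T, 0 < δ τ)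
    (hδ1 : ∀ τ ∈ T, δ τ ≤ 1)
    (hT : ∀ τ ∈ T, ∏ i, ∏ j ∈ ({i}ᶜ : Finset (Fin n)),
        ‖φ ((τ (z i) : M) : Qb) - φ ((τ (z j) : M) : Qb)‖ ≤
      δ τ * ∏ i, ∏ j ∈ ({i}ᶜ : Finset (Fin n)),
        (max 1 ‖φ (τ (z i) : M)‖ * max 1 ‖φ (τ (z j) : M)‖)) :
    ∑ τ ∈ T, -Real.log (δ τ) ≤
      (Module.finrank ℚ M : ℝ) * (n * Real.log n + (2 * (n - 1 : ℕ)) * ∑ i, ht (z i : Qb)) := by
  classical
  have hnf : NumberField M := { to_charZero := inferInstance, to_finiteDimensional := hM }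
  -- the embeddings
  let ι : (M ≃ₐ[ℚ] M) → (M →+* Qb) := fun τ => (algebraMap M Qb).comp (τ : M →+* M)
  have hι : Function.Injective ι := by
    intro τ τ' h
    ext x
    exact congrArg (fun g : M →+* Qb => g x) h
  have hfin : Finite (M ≃ₐ[ℚ] M) := Finite.of_injective ι hι
  have hft : Fintype (M ≃ₐ[ℚ] M) := Fintype.ofFinite _
  have hcard : (Fintype.card (M ≃ₐ[ℚ] M) : ℝ) ≤ Module.finrank ℚ M := by
    have h1 := Fintype.card_le_of_injective ι hι
    have h2 := NumberField.Embeddings.card M Qb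
    rw [h2] at h1
    have h3 : Fintype.card (M ≃ₐ[ℚ] M) ≤ Module.finrank ℚ M := by
      convert h1
    exact_mod_cast h3
  set d := Fintype.card (OP n) with hd
  set e : Fin d ≃ OP n := (Fintype.equivFin (OP n)).symm with he
  set U : (M ≃ₐ[ℚ] M) → Fin d → Qb := fun τ s => ((τ (z (e s).1.1) : M) : Qb) with hU
  set V : (M ≃ₐ[ℚ] M) → Fin d → Qb := fun τ s => ((τ (z (e s).1.2) : M) : Qb) with hV
  have hprod : ∀ (F : (M ≃ₐ[ℚ] M) → Fin n → Fin n → ℝ),
      ∏ q : (M ≃ₐ[ℚ] M) × Fin d, F q.1 (e q.2).1.1 (e q.2).1.2 =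
        ∏ τ, ∏ i, ∏ j ∈ ({i}ᶜ : Finset (Fin n)), F τ i j := by
    intro F
    rw [Fintype.prod_prod_type]
    refine Finset.prod_congr rfl fun τ _ => ?_
    rw [← prod_OP (F τ)]
    exact Equiv.prod_comp e (fun q : OP n => F τ q.1.1 q.1.2)
  have hprod1 : ∀ (F : Fin n → Fin n → ℝ),
      ∏ s : Fin d, F (e s).1.1 (e s).1.2 = ∏ i, ∏ j ∈ ({i}ᶜ : Finset (Fin n)), F i j := by
    intro F
    rw [← prod_OP F]
    exact Equiv.prod_comp e (fun q : OP n => F q.1.1 q.1.2)
  have hsum1 : ∀ (F : Fin n → Fin n → ℝ),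
      ∑ s : Fin d, F (e s).1.1 (e s).1.2 = ∑ i, ∑ j ∈ ({i}ᶜ : Finset (Fin n)), F i j := by
    intro F
    rw [← sum_OP F]
    exact Equiv.sum_comp e (fun q : OP n => F q.1.1 q.1.2)
  have hne : ∀ g s, U g s ≠ V g s := by
    intro g s h
    have h1 := g.injective (Subtype.ext h : g (z (e s).1.1) = g (z (e s).1.2))
    have h2 := hz h1
    have h3 := (e s).2
    rw [Finset.mem_compl, Finset.mem_singleton] at h3
    exact h3 h2.symm
  set A : ℝ := ((n : ℝ) ^ n) ^ Fintype.card (M ≃ₐ[ℚ] M) with hAdef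
  have hn0 : (0 : ℝ) < (n : ℝ) ^ n := by
    rcases Nat.eq_zero_or_pos n with h | h
    · subst h; simp
    · positivity
  have hTprod : (0 : ℝ) < ∏ τ ∈ T, δ τ := Finset.prod_pos hδ0
  have hTprod1 : ∏ τ ∈ T, δ τ ≤ 1 := Finset.prod_le_one (fun τ hτ => (hδ0 τ hτ).le) hδ1
  have hlogT : -Real.log (∏ τ ∈ T, δ τ) = ∑ τ ∈ T, -Real.log (δ τ) := by
    rw [Real.log_prod (fun τ hτ => (hδ0 τ hτ).ne'), Finset.sum_neg_distrib]
  rw [← hlogT]
  have key := core3 (G := M ≃ₐ[ℚ] M) U V p φ M (fun g s => (g _).2) (fun g s => (g _).2)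
    hne ?_ A (by positivity) ?_ (∏ τ ∈ T, δ τ) hTprod hTprod1 ?_
  · refine key.trans ?_
    have h1 : ∀ (g : M ≃ₐ[ℚ] M) (x : M), ht ((g x : M) : Qb) = ht (x : Qb) := by
      intro g x
      exact ht_conjM M (g : M →+* M) x
    simp only [hU, hV, h1]
    rw [Fintype.sum_prod_type]
    simp only [hsum1 (fun i j => ht (z i : Qb) + ht (z j : Qb))]
    rw [Finset.sum_const, Finset.card_univ, nsmul_eq_mul, sum_row (fun i => ht (z i : Qb)),
      hAdef, Real.log_pow, Real.log_pow, ← mul_add]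
    apply (mul_le_mul_of_nonneg_right hcard _).trans
    · rw [add_comm]
    · have h5 : 0 ≤ ∑ i, ht (z i : Qb) := Finset.sum_nonneg fun i _ => absLogHeight_nonneg _
      have h6 : 0 ≤ Real.log (n : ℝ) := Real.log_natCast_nonneg n
      positivity
  · intro W hW
    obtain ⟨ρ, hρ⟩ := Pool.Agent.W369.RK.conj p φ M hM hst W hW
    have hρ' : ∀ x ∈ M, ρ⁻¹ x ∈ M := fun x hx => hst ρ⁻¹ x hx
    let e : M ≃+* M :=
      { toFun := fun x => ⟨ρ x, hst ρ x x.2⟩
        invFun := fun x => ⟨ρ⁻¹ x, hρ' x x.2⟩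
        left_inv := fun x => Subtype.ext (AlgEquiv.symm_apply_apply ρ (x : Qb))
        right_inv := fun x => Subtype.ext (AlgEquiv.apply_symm_apply ρ (x : Qb))
        map_mul' := fun x y => Subtype.ext (map_mul ρ (x : Qb) y)
        map_add' := fun x y => Subtype.ext (map_add ρ (x : Qb) y) }
    let ρM : M ≃ₐ[ℚ] M := AlgEquiv.ofRingEquiv (f := e) (fun r => by
      have h1 : (algebraMap ℚ M r : M) = (r : M) := by simp
      rw [h1]
      exact map_ratCast e r)
    exact ⟨Equiv.mulLeft ρM, ρ, fun g s => rfl, fun g s => rfl, hρ⟩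
  · intro ψ
    have h1 : ‖ψ (N0 U V)‖ = ∏ τ : M ≃ₐ[ℚ] M,
        ‖(Matrix.vandermonde fun i => ψ ((τ (z i) : M) : Qb)).det‖ ^ 2 := by
      rw [N0, map_prod, norm_prod]
      simp only [map_sub]
      rw [hprod (fun τ i j => ‖ψ ((τ (z i) : M) : Qb) - ψ ((τ (z j) : M) : Qb)‖)]
      refine Finset.prod_congr rfl fun τ _ => ?_
      exact vand_norm fun i => ψ ((τ (z i) : M) : Qb)
    have h2 : ∏ q : (M ≃ₐ[ℚ] M) × Fin d, (max 1 ‖ψ (U q.1 q.2)‖ * max 1 ‖ψ (V q.1 q.2)‖) =
        ∏ τ : M ≃ₐ[ℚ] M, ∏ i, (max 1 ‖ψ ((τ (z i) : M) : Qb)‖) ^ (2 * (n - 1)) := by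
      rw [hprod (fun τ i j => max 1 ‖ψ ((τ (z i) : M) : Qb)‖ * max 1 ‖ψ ((τ (z j) : M) : Qb)‖)]
      refine Finset.prod_congr rfl fun τ _ => ?_
      exact prod_mul_row fun i => max 1 ‖ψ ((τ (z i) : M) : Qb)‖
    rw [h1, h2, hAdef, ← Finset.card_univ, ← Finset.prod_const, ← Finset.prod_mul_distrib]
    apply Finset.prod_le_prod
    · intro τ _
      positivity
    · intro τ _
      exact Pool.Agent.TH53.HR.vandermonde_le _
  · have hum : ∀ a b : PadicAlgCl p, ‖a - b‖ ≤ max 1 ‖a‖ * max 1 ‖b‖ := by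
      intro a b
      have h1 : ‖a - b‖ ≤ max ‖a‖ ‖b‖ := by
        have := PadicAlgCl.isNonarchimedean p a (-b)
        rwa [norm_neg, ← sub_eq_add_neg] at this
      have h2 := le_max_left 1 ‖a‖
      have h3 := le_max_right 1 ‖a‖
      have h4 := le_max_left 1 ‖b‖
      have h5 := le_max_right 1 ‖b‖
      refine h1.trans (max_le ?_ ?_)
      · nlinarith [norm_nonneg a]
      · nlinarith [norm_nonneg b]
    have hg : ∀ τ : M ≃ₐ[ℚ] M, ∏ s, ‖φ (U τ s - V τ s)‖ ≤ (if τ ∈ T then δ τ else 1) *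
        ∏ s, (max 1 ‖φ (U τ s)‖ * max 1 ‖φ (V τ s)‖) := by
      intro τ
      by_cases h : τ ∈ T
      · rw [if_pos h]
        have h1 := hT τ h
        rw [← hprod1 (fun i j => ‖φ ((τ (z i) : M) : Qb) - φ ((τ (z j) : M) : Qb)‖),
          ← hprod1 (fun i j => max 1 ‖φ (τ (z i) : M)‖ * max 1 ‖φ (τ (z j) : M)‖)] at h1
        simpa only [map_sub] using h1
      · rw [if_neg h, one_mul]
        apply Finset.prod_le_prod
        · intro s _
          exact norm_nonneg _
        · intro s _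
          rw [map_sub]
          exact hum _ _
    rw [N0, map_prod, norm_prod, Fintype.prod_prod_type, Fintype.prod_prod_type]
    calc ∏ τ : M ≃ₐ[ℚ] M, ∏ s, ‖φ (U τ s - V τ s)‖
        ≤ ∏ τ : M ≃ₐ[ℚ] M, ((if τ ∈ T then δ τ else 1) *
          ∏ s, (max 1 ‖φ (U τ s)‖ * max 1 ‖φ (V τ s)‖)) :=
          Finset.prod_le_prod (fun g _ => Finset.prod_nonneg fun s _ => norm_nonneg _)
            fun g _ => hg g
      _ = _ := by
          rw [Finset.prod_mul_distrib]
          congr 1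
          rw [Finset.prod_ite]
          simp

/-- **the height inequality for a family, with gains in the rows** -/
theorem pairs3 {ι : Type*} [Fintype ι] [DecidableEq ι] (p : ℕ) [Fact p.Prime]
    (φ : Qb →+* PadicAlgCl p) (M : GF)
    (hM : FiniteDimensional ℚ M) (hst : ∀ σ : Aut, ∀ x ∈ M, σ x ∈ M)
    (z : ι → Qb) (hz : Function.Injective z) (hzM : ∀ i, z i ∈ M)
    (T : Finset (M ≃ₐ[ℚ] M)) (δ : (M ≃ₐ[ℚ] M) → ι → ℝ) (hδ0 : ∀ τ i, 0 < δ τ i)
    (hδ1 : ∀ τ i, δ τ i ≤ 1)
    (hT : ∀ τ ∈ T, ∃ t : Aut, (∀ x : M, t x = (τ x : Qb)) ∧ ∀ i,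
      ∏ j ∈ Finset.univ.erase i, ‖φ (t (z i)) - φ (t (z j))‖ ≤
        δ τ i * ∏ j ∈ Finset.univ.erase i, (max 1 ‖φ (t (z i))‖ * max 1 ‖φ (t (z j))‖)) :
    ∑ τ ∈ T, ∑ i, -Real.log (δ τ i) ≤
      (Module.finrank ℚ M : ℝ) * (Fintype.card ι * Real.log (Fintype.card ι) +
        (2 * (Fintype.card ι - 1 : ℕ)) * ∑ i, ht (z i)) := by
  classical
  set e : Fin (Fintype.card ι) ≃ ι := (Fintype.equivFin ι).symm with he
  set w : Fin (Fintype.card ι) → M := fun i => ⟨z (e i), hzM _⟩ with hw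
  have hwinj : Function.Injective w := by
    intro i j hij
    exact e.injective (hz (congrArg (fun x : M => (x : Qb)) hij))
  have key := ht3 p φ M hM hst (Fintype.card ι) w hwinj T (fun τ => ∏ i, δ τ i)
    (fun τ _ => Finset.prod_pos fun i _ => hδ0 τ i)
    (fun τ _ => Finset.prod_le_one (fun i _ => (hδ0 τ i).le) fun i _ => hδ1 τ i) ?_
  · have h1 : ∑ i, ht (w i : Qb) = ∑ i, ht (z i) := Equiv.sum_comp e (fun x : ι => ht (z x))
    rw [h1] at key
    have h2 : ∀ τ, -Real.log (∏ i, δ τ i) = ∑ i, -Real.log (δ τ i) := by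
      intro τ
      rw [Real.log_prod (fun i _ => (hδ0 τ i).ne'), Finset.sum_neg_distrib]
    simp only [h2] at key
    exact key
  · intro τ hτ
    obtain ⟨t, ht, hrow⟩ := hT τ hτ
    have hτz : ∀ i, ((τ (w i) : M) : Qb) = t (z (e i)) := fun i => (ht (w i)).symm
    simp only [hτz]
    have himg : ∀ i, ∀ F : ι → ℝ, ∏ j ∈ ({i}ᶜ : Finset (Fin (Fintype.card ι))), F (e j) =
        ∏ j ∈ Finset.univ.erase (e i), F j := by
      intro i F
      apply Finset.prod_bij (fun j _ => e j)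
      · intro j hj
        rw [Finset.mem_erase]
        refine ⟨fun h => ?_, Finset.mem_univ _⟩
        rw [Finset.mem_compl, Finset.mem_singleton] at hj
        exact hj (e.injective h)
      · intro j _ j' _ h
        exact e.injective h
      · intro j hj
        refine ⟨e.symm j, ?_, e.apply_symm_apply j⟩
        rw [Finset.mem_compl, Finset.mem_singleton]
        rintro rfl
        rw [Finset.mem_erase] at hj
        exact hj.1 (e.apply_symm_apply j).symm
      · intro j _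
        rfl
    calc ∏ i, ∏ j ∈ ({i}ᶜ : Finset (Fin (Fintype.card ι))), ‖φ (t (z (e i))) - φ (t (z (e j)))‖
        ≤ ∏ i, (δ τ (e i) * ∏ j ∈ ({i}ᶜ : Finset (Fin (Fintype.card ι))),
          (max 1 ‖φ (t (z (e i)))‖ * max 1 ‖φ (t (z (e j)))‖)) := by
          apply Finset.prod_le_prod
          · intro i _
            exact Finset.prod_nonneg fun _ _ => norm_nonneg _
          · intro i _
            rw [himg i (fun j => ‖φ (t (z (e i))) - φ (t (z j))‖),
              himg i (fun j => max 1 ‖φ (t (z (e i)))‖ * max 1 ‖φ (t (z j))‖)]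
            exact hrow (e i)
      _ = _ := by
          rw [Finset.prod_mul_distrib]
          congr 1
          exact Equiv.prod_comp e (fun i => δ τ i)

end Pool.Agent.H54.RX
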