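import Mathlib
import Pool.Agent.H54.G.TH53.RP2
import Pool.Agent.H54.G.W669.RK.LocG

set_option autoImplicit false
set_option linter.unusedVariables false

/-!
# Local estimates: products over a whole orbit and powers
-/

namespace Pool.Agent.H54.RX

open Polynomial
open Pool.Agent.W237.RK
open Pool.Agent.H58P (Qb ht)
open Pool.Agent.W402.RK (sub_le_max step p_pos two_le_p sub_eq_max)
open Pool.Agent.W669.RK (norm_coeff_prod_le max_one_pow)

/-! ### sequences -/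

lemma seq_bound (p : ℕ) [hp : Fact p.Prime] (d : ℕ → ℝ) (hd0 : ∀ j, 0 ≤ d j)
    (hd1 : ∀ j, d j ≤ 1) (hstep : ∀ j, d (j + 1) ≤ max (d j * (p : ℝ)⁻¹) (d j ^ 2))
    (B C : ℕ) (hBC : B ≤ 2 ^ C) (h : d 0 ^ B ≤ (p : ℝ)⁻¹) (k : ℕ) :
    d k * (p : ℝ) ^ k ≤ (p : ℝ) ^ C := by
  have hp0 := p_pos (p := p)
  have hp2 := two_le_p (p := p)
  have hinv : (0 : ℝ) < (p : ℝ)⁻¹ := by positivity
  have hinv1 : (p : ℝ)⁻¹ < 1 := inv_lt_one_of_one_lt₀ (by linarith)
  have hB : B ≠ 0 := by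
    rintro rfl
    rw [pow_zero] at h
    linarith
  have claim : ∀ j, d j ≤ (p : ℝ)⁻¹ ∨ d j ^ B ≤ ((p : ℝ)⁻¹) ^ (2 ^ j) := by
    intro j
    induction j with
    | zero =>
      right
      simp only [pow_zero, pow_one]
      exact h
    | succ j ih =>
      have hs := hstep j
      by_cases hle : d j ≤ (p : ℝ)⁻¹
      · left
        refine hs.trans (max_le ?_ ?_)
        · nlinarith [hd0 j, hd1 j]
        · nlinarith [hd0 j, hd1 j]
      · have ih' := ih.resolve_left hle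
        push Not at hle
        right
        have h1 : d (j + 1) ≤ d j ^ 2 := by
          refine hs.trans (max_le ?_ le_rfl)
          nlinarith [hd0 j]
        calc d (j + 1) ^ B ≤ (d j ^ 2) ^ B := pow_le_pow_left₀ (hd0 _) h1 _
          _ = (d j ^ B) ^ 2 := by rw [← pow_mul, ← pow_mul, mul_comm]
          _ ≤ (((p : ℝ)⁻¹) ^ (2 ^ j)) ^ 2 := pow_le_pow_left₀ (by have := hd0 j; positivity) ih' _
          _ = ((p : ℝ)⁻¹) ^ (2 ^ (j + 1)) := by rw [← pow_mul, pow_succ]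
  have hdC : d C ≤ (p : ℝ)⁻¹ := by
    rcases claim C with h1 | h1
    · exact h1
    · by_contra hcon
      push Not at hcon
      have h2 : ((p : ℝ)⁻¹) ^ B < d C ^ B := pow_lt_pow_left₀ hcon hinv.le hB
      have h3 : ((p : ℝ)⁻¹) ^ (2 ^ C) ≤ ((p : ℝ)⁻¹) ^ B :=
        pow_le_pow_of_le_one hinv.le hinv1.le hBC
      linarith
  have hdi : ∀ i, d (C + i) ≤ ((p : ℝ)⁻¹) ^ (i + 1) := by
    intro i
    induction i with
    | zero => simpa using hdC
    | succ i ih =>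
      have hs := hstep (C + i)
      have h1 : d (C + i) ≤ (p : ℝ)⁻¹ := by
        refine ih.trans ?_
        calc ((p : ℝ)⁻¹) ^ (i + 1) ≤ ((p : ℝ)⁻¹) ^ 1 :=
              pow_le_pow_of_le_one hinv.le hinv1.le (by omega)
          _ = _ := pow_one _
      have h2 : d (C + i + 1) ≤ d (C + i) * (p : ℝ)⁻¹ := by
        refine hs.trans (max_le le_rfl ?_)
        nlinarith [hd0 (C + i)]
      calc d (C + (i + 1)) = d (C + i + 1) := rfl
        _ ≤ d (C + i) * (p : ℝ)⁻¹ := h2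
        _ ≤ ((p : ℝ)⁻¹) ^ (i + 1) * (p : ℝ)⁻¹ := mul_le_mul_of_nonneg_right ih hinv.le
        _ = ((p : ℝ)⁻¹) ^ (i + 1 + 1) := (pow_succ _ _).symm
  rcases le_total k C with hk | hk
  · calc d k * (p : ℝ) ^ k ≤ 1 * (p : ℝ) ^ k := by
          apply mul_le_mul_of_nonneg_right (hd1 k) (by positivity)
      _ = (p : ℝ) ^ k := one_mul _
      _ ≤ (p : ℝ) ^ C := pow_le_pow_right₀ (by linarith) hk
  · obtain ⟨i, rfl⟩ := Nat.exists_eq_add_of_le hk
    calc d (C + i) * (p : ℝ) ^ (C + i) ≤ ((p : ℝ)⁻¹) ^ (i + 1) * (p : ℝ) ^ (C + i) := by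
          apply mul_le_mul_of_nonneg_right (hdi i) (by positivity)
      _ ≤ ((p : ℝ)⁻¹) ^ i * (p : ℝ) ^ (C + i) := by
          apply mul_le_mul_of_nonneg_right _ (by positivity)
          exact pow_le_pow_of_le_one hinv.le hinv1.le (by omega)
      _ = (p : ℝ) ^ C := by
          rw [pow_add, inv_pow]
          field_simp

/-! ### powers -/

variable {p : ℕ} [hp : Fact p.Prime]

/-- the normalized distance -/
noncomputable def nd (U V : PadicAlgCl p) : ℝ := ‖U - V‖ / (max 1 ‖U‖ * max 1 ‖V‖)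

lemma nd_nonneg (U V : PadicAlgCl p) : 0 ≤ nd U V := by unfold nd; positivity

lemma nd_le_one (U V : PadicAlgCl p) : nd U V ≤ 1 := by
  unfold nd
  rw [div_le_one (by positivity)]
  exact Pool.Agent.TH53.RP.um_le_max U V

lemma nd_step (U V : PadicAlgCl p) :
    nd (U ^ p) (V ^ p) ≤ max (nd U V * (p : ℝ)⁻¹) (nd U V ^ 2) := by
  have hp2 := two_le_p (p := p)
  have hp1 : 1 ≤ p := hp.out.one_le
  by_cases hx : ‖U‖ ≤ 1
  · by_cases hy : ‖V‖ ≤ 1
    · have h1 : nd U V = ‖U - V‖ := by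
        unfold nd
        rw [max_eq_left hx, max_eq_left hy, one_mul, div_one]
      have h2 : nd (U ^ p) (V ^ p) = ‖U ^ p - V ^ p‖ := by
        unfold nd
        rw [max_eq_left (by rw [norm_pow]; exact pow_le_one₀ (norm_nonneg _) hx),
          max_eq_left (by rw [norm_pow]; exact pow_le_one₀ (norm_nonneg _) hy), one_mul, div_one]
      rw [h1, h2]
      exact step hx hy
    · push Not at hy
      have h1 : nd U V = 1 := by
        unfold nd
        rw [sub_eq_max (by linarith), max_eq_left hx, max_eq_right hy.le, one_mul,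
          max_eq_right (by linarith), div_self (by linarith)]
      rw [h1]
      exact (nd_le_one _ _).trans (le_max_of_le_right (by norm_num))
  · push Not at hx
    by_cases hy : ‖V‖ ≤ 1
    · have h1 : nd U V = 1 := by
        unfold nd
        rw [sub_eq_max (by linarith), max_eq_right hx.le, max_eq_left hy, mul_one,
          max_eq_left (by linarith), div_self (by linarith)]
      rw [h1]
      exact (nd_le_one _ _).trans (le_max_of_le_right (by norm_num))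
    · push Not at hy
      have key : ∀ X Y : PadicAlgCl p, 1 < ‖X‖ → 1 < ‖Y‖ → nd X Y = ‖X⁻¹ - Y⁻¹‖ := by
        intro X Y hX hY
        have hX0 : X ≠ 0 := by
          rintro rfl; rw [norm_zero] at hX; linarith
        have hY0 : Y ≠ 0 := by
          rintro rfl; rw [norm_zero] at hY; linarith
        unfold nd
        have : X⁻¹ - Y⁻¹ = -((X - Y) / (X * Y)) := by field_simp; ring
        rw [this, norm_neg, norm_div, norm_mul, max_eq_right hX.le, max_eq_right hY.le]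
      have hxp : 1 < ‖U ^ p‖ := by rw [norm_pow]; exact one_lt_pow₀ hx (by omega)
      have hyp : 1 < ‖V ^ p‖ := by rw [norm_pow]; exact one_lt_pow₀ hy (by omega)
      rw [key U V hx hy, key _ _ hxp hyp, ← inv_pow, ← inv_pow]
      apply step
      · rw [_root_.norm_inv]; exact inv_le_one_of_one_le₀ hx.le
      · rw [_root_.norm_inv]; exact inv_le_one_of_one_le₀ hy.le

lemma prod_G_le {ι : Type*} (s : Finset ι) (a : ι → ℝ) (q : ℝ) (hq0 : 0 ≤ q) (hq1 : q ≤ 1)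
    (h0 : ∀ i ∈ s, 0 ≤ a i) (h1 : ∀ i ∈ s, a i ≤ 1) :
    ∏ i ∈ s, max (a i * q) (a i ^ 2) ≤ max ((∏ i ∈ s, a i) * q) ((∏ i ∈ s, a i) ^ 2) := by
  classical
  induction s using Finset.induction_on with
  | empty => simp
  | insert i s hi ih =>
    rw [Finset.prod_insert hi, Finset.prod_insert hi]
    have h2 := ih (fun j hj => h0 j (Finset.mem_insert_of_mem hj))
      (fun j hj => h1 j (Finset.mem_insert_of_mem hj))
    have hx0 := h0 i (Finset.mem_insert_self i s)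
    have hx1 := h1 i (Finset.mem_insert_self i s)
    have hy0 : 0 ≤ ∏ i ∈ s, a i := Finset.prod_nonneg fun j hj => h0 j (Finset.mem_insert_of_mem hj)
    have hy1 : ∏ i ∈ s, a i ≤ 1 := Finset.prod_le_one
      (fun j hj => h0 j (Finset.mem_insert_of_mem hj))
      (fun j hj => h1 j (Finset.mem_insert_of_mem hj))
    set x := a i
    set y := ∏ i ∈ s, a i
    refine (mul_le_mul_of_nonneg_left h2 (le_max_of_le_left (by positivity))).trans ?_
    have hxy : 0 ≤ x * y := by positivity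
    rcases max_choice (x * q) (x ^ 2) with e1 | e1 <;>
      rcases max_choice (y * q) (y ^ 2) with e2 | e2 <;> rw [e1, e2]
    · apply le_max_of_le_left
      calc x * q * (y * q) = (x * y * q) * q := by ring
        _ ≤ (x * y * q) * 1 := mul_le_mul_of_nonneg_left hq1 (by positivity)
        _ = _ := mul_one _
    · apply le_max_of_le_left
      calc x * q * y ^ 2 = (x * y * q) * y := by ring
        _ ≤ (x * y * q) * 1 := mul_le_mul_of_nonneg_left hy1 (by positivity)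
        _ = _ := mul_one _
    · apply le_max_of_le_left
      calc x ^ 2 * (y * q) = (x * y * q) * x := by ring
        _ ≤ (x * y * q) * 1 := mul_le_mul_of_nonneg_left hx1 (by positivity)
        _ = _ := mul_one _
    · apply le_max_of_le_right
      apply le_of_eq
      ring

/-- **powers of a block** -/
theorem block_pow {ι : Type*} (Y : Finset ι) (U : PadicAlgCl p) (V : ι → PadicAlgCl p)
    (B C : ℕ) (hBC : B ≤ 2 ^ C) (ρ : ℝ) (hρ0 : 0 < ρ) (hρ : ρ ^ B = (p : ℝ)⁻¹)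
    (h : ∏ y ∈ Y, ‖U - V y‖ ≤ ρ * ∏ y ∈ Y, (max 1 ‖U‖ * max 1 ‖V y‖)) (N : ℕ) :
    ∏ y ∈ Y, ‖U ^ (p ^ (C + N)) - V y ^ (p ^ (C + N))‖ ≤ ((p : ℝ) ^ N)⁻¹ *
      ∏ y ∈ Y, (max 1 ‖U ^ (p ^ (C + N))‖ * max 1 ‖V y ^ (p ^ (C + N))‖) := by
  have hp0 := p_pos (p := p)
  have hp2 := two_le_p (p := p)
  have hinv1 : (p : ℝ)⁻¹ ≤ 1 := inv_le_one_of_one_le₀ (by linarith)
  have hprod : ∀ (a : PadicAlgCl p) (b : ι → PadicAlgCl p), ∏ y ∈ Y, ‖a - b y‖ =
      (∏ y ∈ Y, nd a (b y)) * ∏ y ∈ Y, (max 1 ‖a‖ * max 1 ‖b y‖) := by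
    intro a b
    rw [← Finset.prod_mul_distrib]
    apply Finset.prod_congr rfl
    intro y _
    unfold nd
    rw [div_mul_cancel₀]
    positivity
  have hpos : ∀ (a : PadicAlgCl p) (b : ι → PadicAlgCl p),
      0 < ∏ y ∈ Y, (max 1 ‖a‖ * max 1 ‖b y‖) := fun a b => Finset.prod_pos fun y _ => by positivity
  set d : ℕ → ℝ := fun j => ∏ y ∈ Y, nd (U ^ (p ^ j)) (V y ^ (p ^ j)) with hd
  have hd0 : ∀ j, 0 ≤ d j := fun j => Finset.prod_nonneg fun y _ => nd_nonneg _ _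
  have hd1 : ∀ j, d j ≤ 1 := fun j =>
    Finset.prod_le_one (fun y _ => nd_nonneg _ _) fun y _ => nd_le_one _ _
  have hstep : ∀ j, d (j + 1) ≤ max (d j * (p : ℝ)⁻¹) (d j ^ 2) := by
    intro j
    refine le_trans ?_ (prod_G_le Y (fun y => nd (U ^ (p ^ j)) (V y ^ (p ^ j))) (p : ℝ)⁻¹
      (by positivity) hinv1 (fun y _ => nd_nonneg _ _) fun y _ => nd_le_one _ _)
    apply Finset.prod_le_prod (fun y _ => nd_nonneg _ _)
    intro y _
    have := nd_step (U ^ (p ^ j)) (V y ^ (p ^ j))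
    rw [← pow_mul, ← pow_mul, ← pow_succ] at this
    exact this
  have h0 : d 0 ^ B ≤ (p : ℝ)⁻¹ := by
    rw [← hρ]
    apply pow_le_pow_left₀ (hd0 0)
    simp only [hd, pow_zero, pow_one]
    rw [hprod U V] at h
    exact le_of_mul_le_mul_right h (hpos U V)
  have hk := seq_bound p d hd0 hd1 hstep B C hBC h0 (C + N)
  rw [hprod]
  apply mul_le_mul_of_nonneg_right _ (hpos _ _).le
  have h5 : (p : ℝ) ^ (C + N) = (p : ℝ) ^ C * (p : ℝ) ^ N := pow_add _ _ _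
  rw [h5] at hk
  have h3 : (0 : ℝ) < (p : ℝ) ^ C := by positivity
  have h4 : (0 : ℝ) < (p : ℝ) ^ N := by positivity
  rw [← one_div, le_div_iff₀ h4]
  have h6 : (p : ℝ) ^ C * (d (C + N) * (p : ℝ) ^ N) ≤ (p : ℝ) ^ C * 1 := by
    calc _ = d (C + N) * ((p : ℝ) ^ C * (p : ℝ) ^ N) := by ring
      _ ≤ (p : ℝ) ^ C := hk
      _ = _ := (mul_one _).symm
  exact le_of_mul_le_mul_left h6 h3

/-! ### a whole orbit -/

/-- coefficients after scaling -/
lemma coeff_scale (Y : Finset Qb) (g : Qb →+* PadicAlgCl p) (L : PadicAlgCl p) (hL : L ≠ 0)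
    (l : ℕ) : (∏ y ∈ Y, (X - Polynomial.C (g y / L))).coeff l * L ^ Y.card =
      g ((∏ y ∈ Y, (X - Polynomial.C y)).coeff l) * L ^ l := by
  have h1 : (((∏ y ∈ Y, (X - Polynomial.C y)).map g).comp (Polynomial.C L * X)) =
      Polynomial.C (L ^ Y.card) * ∏ y ∈ Y, (X - Polynomial.C (g y / L)) := by
    rw [Polynomial.map_prod, Polynomial.prod_comp, Polynomial.C_pow, ← Finset.prod_const,
      ← Finset.prod_mul_distrib]
    apply Finset.prod_congr rfl
    intro y _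
    rw [Polynomial.map_sub, Polynomial.map_X, Polynomial.map_C, Polynomial.sub_comp,
      Polynomial.X_comp, Polynomial.C_comp, mul_sub, ← Polynomial.C_mul, mul_div_cancel₀ _ hL]
  have h2 := congrArg (fun P => Polynomial.coeff P l) h1
  simp only [Polynomial.comp_C_mul_X_coeff, Polynomial.coeff_C_mul, Polynomial.coeff_map] at h2
  rw [h2, mul_comm]

theorem prod_gap (ψ : Qb →+* PadicAlgCl p) (s : Aut) (E : GF) (B : ℕ) (hB : 0 < B)
    (Y : Finset Qb) (hco : ∀ j, (∏ y ∈ Y, (X - Polynomial.C y)).coeff j ∈ E) (u : Qb) (hu : u ∈ Y)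
    (L : Qb) (hL : L ≠ 0) (ρ : ℝ) (hρ0 : 0 < ρ) (hρ : ρ ^ B = (p : ℝ)⁻¹)
    (hE : ∀ x ∈ E, x ≠ 0 → ‖ψ (s x / x - 1)‖ ^ B ≤ (p : ℝ)⁻¹) :
    ∏ y ∈ Y, ‖ψ (u / L) - ψ (s y / L)‖ ≤
      ρ * ∏ y ∈ Y, (max 1 ‖ψ (u / L)‖ * max 1 ‖ψ (s y / L)‖) := by
  classical
  have hp0 := p_pos (p := p)
  have hp2 := two_le_p (p := p)
  have hinv1 : (p : ℝ)⁻¹ < 1 := inv_lt_one_of_one_lt₀ (by linarith)
  have hρ1 : ρ < 1 := by
    by_contra hcon
    push Not at hcon
    have := one_le_pow₀ (n := B) hcon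
    rw [hρ] at this
    linarith
  set P : Qb[X] := ∏ y ∈ Y, (X - Polynomial.C y) with hP
  set d := Y.card with hd
  have hPd : P.natDegree = d := natDegree_finsetProd_X_sub_C_eq_card Y (fun y => y)
  have hPu : P.eval u = 0 := by
    rw [hP, eval_prod]
    apply Finset.prod_eq_zero hu
    simp
  have hψL : ψ L ≠ 0 := (map_ne_zero ψ).mpr hL
  -- the coefficients
  have hc : ∀ l, ‖ψ (s (P.coeff l) - P.coeff l)‖ ≤ ρ * ‖ψ (s (P.coeff l))‖ := by
    intro l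
    set x := P.coeff l with hx
    by_cases hx0 : x = 0
    · rw [hx0, map_zero, sub_zero, map_zero, norm_zero, mul_zero]
    have h1 := hE x (hco l) hx0
    rw [← hρ] at h1
    have h2 : ‖ψ (s x / x - 1)‖ ≤ ρ := le_of_pow_le_pow_left₀ hB.ne' hρ0.le h1
    have hψx : ψ x ≠ 0 := (map_ne_zero ψ).mpr hx0
    have h3 : ‖ψ (s x)‖ = ‖ψ x‖ := by
      by_contra hne
      have h4 : ψ (s x / x - 1) = (ψ (s x) - ψ x) / ψ x := by
        rw [map_sub, map_div₀, map_one]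
        field_simp
      rw [h4, norm_div, sub_eq_max hne] at h2
      have h5 : 1 ≤ max ‖ψ (s x)‖ ‖ψ x‖ / ‖ψ x‖ := by
        rw [one_le_div (norm_pos_iff.mpr hψx)]
        exact le_max_right _ _
      linarith
    have h6 : s x - x = (s x / x - 1) * x := by field_simp
    rw [h6, map_mul, norm_mul, h3]
    exact mul_le_mul_of_nonneg_right h2 (norm_nonneg _)
  -- the value
  have hval : ∏ y ∈ Y, (u - s y) = ∑ l ∈ Finset.range (d + 1), (s (P.coeff l) - P.coeff l) * u ^ l := by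
    have e1 : ∏ y ∈ Y, (u - s y) = (P.map (s : Qb →+* Qb)).eval u := by
      rw [hP, Polynomial.map_prod, eval_prod]
      apply Finset.prod_congr rfl
      intro y _
      simp
    have e2 : ∑ l ∈ Finset.range (d + 1), P.coeff l * u ^ l = 0 := by
      rw [← hPu, eval_eq_sum_range, hPd]
    rw [e1, eval_eq_sum_range, natDegree_map, hPd]
    simp only [sub_mul, Finset.sum_sub_distrib, e2, sub_zero]
    apply Finset.sum_congr rfl
    intro l _
    rw [coeff_map]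
    rfl
  have hG : ∀ l, ‖ψ (s (P.coeff l))‖ * ‖ψ L‖ ^ l ≤ (∏ y ∈ Y, max 1 ‖ψ (s y / L)‖) * ‖ψ L‖ ^ d := by
    intro l
    have h1 := coeff_scale Y (ψ.comp (s : Qb →+* Qb)) (ψ L) hψL l
    have h2 := norm_coeff_prod_le Y (fun y => (ψ.comp (s : Qb →+* Qb)) y / ψ L) l
    have h3 := congrArg norm h1
    rw [norm_mul, norm_mul, norm_pow, norm_pow] at h3
    have h4 : ‖ψ (s (P.coeff l))‖ = ‖(ψ.comp (s : Qb →+* Qb)) (P.coeff l)‖ := rfl
    rw [h4, ← h3]
    have h5 : ∀ y : Qb, ψ (s y / L) = (ψ.comp (s : Qb →+* Qb)) y / ψ L := fun y => by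
      rw [map_div₀]; rfl
    simp only [h5]
    exact mul_le_mul_of_nonneg_right h2 (by positivity)
  have hpr0 : 0 ≤ ∏ y ∈ Y, max 1 ‖ψ (s y / L)‖ := Finset.prod_nonneg fun y _ => by positivity
  have hnL : 0 < ‖ψ L‖ := norm_pos_iff.mpr hψL
  have key : ‖ψ (∏ y ∈ Y, (u - s y))‖ ≤
      (ρ * ((∏ y ∈ Y, max 1 ‖ψ (s y / L)‖) * (max 1 ‖ψ (u / L)‖) ^ d)) * ‖ψ L‖ ^ d := by
    rw [hval, map_sum]
    apply Pool.Agent.W669.RK.norm_sum_le_of
    · positivity
    · intro l hl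
      have hld : l ≤ d := by rw [Finset.mem_range] at hl; omega
      rw [map_mul, norm_mul, map_pow, norm_pow]
      have h1 : ‖ψ u‖ = ‖ψ (u / L)‖ * ‖ψ L‖ := by
        rw [map_div₀, norm_div, div_mul_cancel₀ _ hnL.ne']
      have h2 : ‖ψ (u / L)‖ ^ l ≤ (max 1 ‖ψ (u / L)‖) ^ d :=
        (pow_le_pow_left₀ (norm_nonneg _) (le_max_right _ _) l).trans
          (pow_le_pow_right₀ (le_max_left _ _) hld)
      calc ‖ψ (s (P.coeff l) - P.coeff l)‖ * ‖ψ u‖ ^ l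
          ≤ (ρ * ‖ψ (s (P.coeff l))‖) * ‖ψ u‖ ^ l :=
            mul_le_mul_of_nonneg_right (hc l) (by positivity)
        _ = ρ * (‖ψ (s (P.coeff l))‖ * ‖ψ L‖ ^ l) * ‖ψ (u / L)‖ ^ l := by rw [h1, mul_pow]; ring
        _ ≤ ρ * ((∏ y ∈ Y, max 1 ‖ψ (s y / L)‖) * ‖ψ L‖ ^ d) * (max 1 ‖ψ (u / L)‖) ^ d := by
            have := hG l
            gcongr
        _ = _ := by ring
  have e3 : ∏ y ∈ Y, ‖ψ (u / L) - ψ (s y / L)‖ = ‖ψ (∏ y ∈ Y, (u - s y))‖ / ‖ψ L‖ ^ d := by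
    rw [map_prod, norm_prod, hd, ← Finset.prod_const, ← Finset.prod_div_distrib]
    apply Finset.prod_congr rfl
    intro y _
    rw [← norm_div, map_sub, sub_div, map_div₀, map_div₀]
  rw [e3, div_le_iff₀ (by positivity), Finset.prod_mul_distrib, Finset.prod_const]
  calc _ ≤ _ := key
    _ = _ := by ring

/-- the gap for a whole orbit, after a power -/
theorem block_gap (ψ : Qb →+* PadicAlgCl p) (s : Aut) (E : GF) (B C : ℕ) (hB : 0 < B)
    (hBC : B ≤ 2 ^ C)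
    (Y : Finset Qb) (hco : ∀ j, (∏ y ∈ Y, (X - Polynomial.C y)).coeff j ∈ E) (u : Qb) (hu : u ∈ Y)
    (L : Qb) (hL : L ≠ 0)
    (hE : ∀ x ∈ E, x ≠ 0 → ‖ψ (s x / x - 1)‖ ^ B ≤ (p : ℝ)⁻¹) (N : ℕ) :
    ∏ y ∈ Y, ‖ψ ((u / L) ^ (p ^ (C + N))) - ψ ((s y / L) ^ (p ^ (C + N)))‖ ≤
      ((p : ℝ) ^ N)⁻¹ * ∏ y ∈ Y, (max 1 ‖ψ ((u / L) ^ (p ^ (C + N)))‖ *
        max 1 ‖ψ ((s y / L) ^ (p ^ (C + N)))‖) := by
  have hp0 := p_pos (p := p)
  obtain ⟨ρ, hρ0, hρ⟩ : ∃ ρ : ℝ, 0 < ρ ∧ ρ ^ B = (p : ℝ)⁻¹ := by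
    refine ⟨((p : ℝ)⁻¹) ^ ((B : ℝ)⁻¹), by positivity, ?_⟩
    rw [← Real.rpow_natCast, ← Real.rpow_mul (by positivity), inv_mul_cancel₀ (by positivity),
      Real.rpow_one]
  have h1 := prod_gap ψ s E B hB Y hco u hu L hL ρ hρ0 hρ hE
  have h2 := block_pow Y (ψ (u / L)) (fun y => ψ (s y / L)) B C hBC ρ hρ0 hρ h1 N
  simp only [map_pow]
  exact h2

/-! ### blocks in a product -/

/-- disjoint blocks in a product -/
lemma prod_blocks {ι κ : Type*} [DecidableEq ι] (Z : Finset ι) (a b : ι → ℝ)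
    (h0 : ∀ i ∈ Z, 0 ≤ a i) (hab : ∀ i ∈ Z, a i ≤ b i) (I : Finset κ) (Y : κ → Finset ι)
    (hY : ∀ j ∈ I, Y j ⊆ Z) (hdis : ∀ j ∈ I, ∀ j' ∈ I, j ≠ j' → Disjoint (Y j) (Y j'))
    (δ : κ → ℝ) (hδ : ∀ j ∈ I, 0 ≤ δ j)
    (h : ∀ j ∈ I, ∏ i ∈ Y j, a i ≤ δ j * ∏ i ∈ Y j, b i) :
    ∏ i ∈ Z, a i ≤ (∏ j ∈ I, δ j) * ∏ i ∈ Z, b i := by
  classical
  set U := I.biUnion Y with hU
  have hUZ : U ⊆ Z := by
    rw [hU, Finset.biUnion_subset]
    exact hY
  have hpd : (I : Set κ).PairwiseDisjoint Y := fun j hj j' hj' hne =>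
    hdis j hj j' hj' hne
  rw [← Finset.prod_sdiff hUZ, ← Finset.prod_sdiff hUZ, hU, Finset.prod_biUnion hpd,
    Finset.prod_biUnion hpd]
  have h1 : ∏ i ∈ Z \ I.biUnion Y, a i ≤ ∏ i ∈ Z \ I.biUnion Y, b i :=
    Finset.prod_le_prod (fun i hi => h0 i (Finset.sdiff_subset hi))
      fun i hi => hab i (Finset.sdiff_subset hi)
  have h2 : ∏ j ∈ I, ∏ i ∈ Y j, a i ≤ (∏ j ∈ I, δ j) * ∏ j ∈ I, ∏ i ∈ Y j, b i := by
    rw [← Finset.prod_mul_distrib]
    exact Finset.prod_le_prod (fun j hj => Finset.prod_nonneg fun i hi => h0 i (hY j hj hi)) h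
  have hb : ∀ i ∈ Z, 0 ≤ b i := fun i hi => (h0 i hi).trans (hab i hi)
  calc (∏ i ∈ Z \ I.biUnion Y, a i) * ∏ j ∈ I, ∏ i ∈ Y j, a i
      ≤ (∏ i ∈ Z \ I.biUnion Y, b i) * ((∏ j ∈ I, δ j) * ∏ j ∈ I, ∏ i ∈ Y j, b i) := by
        apply mul_le_mul h1 h2
        · exact Finset.prod_nonneg fun j hj => Finset.prod_nonneg fun i hi => h0 i (hY j hj hi)
        · exact Finset.prod_nonneg fun i hi => hb i (Finset.sdiff_subset hi)
    _ = _ := by ring

end Pool.Agent.H54.RX
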