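import Mathlib
import Pool.Agent.H54.RX.F1
import Pool.Agent.H54.RX.F2
import Pool.Agent.H54.G.W237.RK.KS

set_option autoImplicit false
set_option linter.unusedVariables false

/-!
# The counting part of the descent step
-/

namespace Pool.Agent.H54.RX

open Polynomial IntermediateField Module
open Pool.Agent.W237.RK
open Pool.Agent.H58P (Qb ht)

/-- the height inequality for a family indexed by a finite set -/
theorem pairsX {α : Type*} [DecidableEq α] (p : ℕ) [Fact p.Prime]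
    (φ : Qb →+* PadicAlgCl p) (M : GF)
    (hM : FiniteDimensional ℚ M) (hst : ∀ σ : Aut, ∀ x ∈ M, σ x ∈ M)
    (X : Finset α) (z : α → Qb) (hz : Set.InjOn z X) (hzM : ∀ x ∈ X, z x ∈ M)
    (T : Finset (M ≃ₐ[ℚ] M)) (δ : (M ≃ₐ[ℚ] M) → α → ℝ) (hδ0 : ∀ τ i, 0 < δ τ i)
    (hδ1 : ∀ τ i, δ τ i ≤ 1)
    (hT : ∀ τ ∈ T, ∃ t : Aut, (∀ x : M, t x = (τ x : Qb)) ∧ ∀ x ∈ X,
      ∏ x' ∈ X.erase x, ‖φ (t (z x)) - φ (t (z x'))‖ ≤
        δ τ x * ∏ x' ∈ X.erase x, (max 1 ‖φ (t (z x))‖ * max 1 ‖φ (t (z x'))‖)) :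
    ∑ τ ∈ T, ∑ x ∈ X, -Real.log (δ τ x) ≤
      (Module.finrank ℚ M : ℝ) * (X.card * Real.log X.card +
        (2 * (X.card - 1 : ℕ)) * ∑ x ∈ X, ht (z x)) := by
  classical
  have hconv : ∀ (i : X) (f : α → ℝ), ∏ j ∈ (Finset.univ : Finset X).erase i, f j =
      ∏ x' ∈ X.erase i, f x' := by
    intro i f
    apply Finset.prod_bij (fun (j : X) _ => (j : α))
    · intro j hj
      rw [Finset.mem_erase] at hj ⊢
      exact ⟨fun h => hj.1 (Subtype.ext h), j.2⟩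
    · intro j _ j' _ h
      exact Subtype.ext h
    · intro x' hx'
      rw [Finset.mem_erase] at hx'
      exact ⟨⟨x', hx'.2⟩, Finset.mem_erase.mpr ⟨fun h => hx'.1 (congrArg Subtype.val h),
        Finset.mem_univ _⟩, rfl⟩
    · intro j _
      rfl
  have key := pairs3 (ι := X) p φ M hM hst (fun x => z x)
    (fun x y h => Subtype.ext (hz x.2 y.2 h)) (fun x => hzM x x.2) T (fun τ x => δ τ x)
    (fun τ x => hδ0 τ x) (fun τ x => hδ1 τ x) (by
      intro τ hτ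
      obtain ⟨t, ht, h⟩ := hT τ hτ
      refine ⟨t, ht, fun i => ?_⟩
      rw [hconv i (fun x' => ‖φ (t (z i)) - φ (t (z x'))‖),
        hconv i (fun x' => max 1 ‖φ (t (z i))‖ * max 1 ‖φ (t (z x'))‖)]
      exact h i i.2)
  rw [Fintype.card_coe] at key
  have e1 : ∑ i : X, ht (z i) = ∑ x ∈ X, ht (z x) := Finset.sum_coe_sort X (fun x => ht (z x))
  have e2 : ∀ τ, ∑ i : X, -Real.log (δ τ i) = ∑ x ∈ X, -Real.log (δ τ x) := fun τ =>
    Finset.sum_coe_sort X (fun x => -Real.log (δ τ x))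
  rw [e1] at key
  simp only [e2] at key
  exact key

/-- a set with more than half of the elements meets its image under a translation of the fibres -/
theorem half {G X : Type*} [Group G] [DecidableEq G] (H A : Finset G) (F : G → X) (R : X → X)
    (hAH : A ⊆ H) (hcard : H.card < 2 * A.card)
    (hmul : ∀ a ∈ H, ∀ b ∈ H, ∀ c ∈ H, a * b⁻¹ * c ∈ H)
    (hF : ∀ a ∈ H, ∀ b ∈ H, ∀ c ∈ H, F a = F b → F (a * b⁻¹ * c) = F c)
    (hR : ∀ a ∈ H, ∃ b ∈ H, F b = R (F a))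
    (hRinj : ∀ a ∈ H, ∀ b ∈ H, R (F a) = R (F b) → F a = F b) :
    ∃ a ∈ A, ∃ b ∈ A, F b = R (F a) := by
  classical
  set s : X → G := fun x => if h : ∃ g ∈ H, F g = x then h.choose else 1 with hs
  have hsx : ∀ x, (∃ g ∈ H, F g = x) → s x ∈ H ∧ F (s x) = x := by
    intro x hx
    have : s x = hx.choose := by
      rw [hs]
      exact dif_pos hx
    rw [this]
    exact hx.choose_spec
  set Φ : G → G := fun a => a * (s (F a))⁻¹ * s (R (F a)) with hΦ
  have h1 : ∀ a ∈ H, s (F a) ∈ H ∧ F (s (F a)) = F a := fun a ha => hsx _ ⟨a, ha, rfl⟩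
  have h2 : ∀ a ∈ H, s (R (F a)) ∈ H ∧ F (s (R (F a))) = R (F a) := fun a ha => hsx _ (hR a ha)
  have hΦH : ∀ a ∈ H, Φ a ∈ H := fun a ha => hmul a ha _ (h1 a ha).1 _ (h2 a ha).1
  have hΦF : ∀ a ∈ H, F (Φ a) = R (F a) := by
    intro a ha
    rw [hΦ]
    show F (a * (s (F a))⁻¹ * s (R (F a))) = _
    rw [hF a ha _ (h1 a ha).1 _ (h2 a ha).1 (h1 a ha).2.symm, (h2 a ha).2]
  have hinj : ∀ a ∈ H, ∀ b ∈ H, Φ a = Φ b → a = b := by
    intro a ha b hb h
    have e1 : R (F a) = R (F b) := by rw [← hΦF a ha, ← hΦF b hb, h]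
    have e2 := hRinj a ha b hb e1
    have h' : a * (s (F a))⁻¹ * s (R (F a)) = b * (s (F b))⁻¹ * s (R (F b)) := h
    rw [e2] at h'
    exact mul_right_cancel (mul_right_cancel h')
  by_contra hcon
  push Not at hcon
  have hdis : Disjoint A (A.image Φ) := by
    rw [Finset.disjoint_left]
    intro b hb hb'
    obtain ⟨a, ha, rfl⟩ := Finset.mem_image.mp hb'
    exact hcon a ha _ hb (hΦF a (hAH ha))
  have hc1 : (A.image Φ).card = A.card := by
    apply Finset.card_image_of_injOn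
    intro a ha b hb h
    exact hinj a (hAH ha) b (hAH hb) h
  have hsub : A ∪ A.image Φ ⊆ H := by
    apply Finset.union_subset hAH
    intro b hb
    obtain ⟨a, ha, rfl⟩ := Finset.mem_image.mp hb
    exact hΦH a (hAH ha)
  have hc2 := Finset.card_le_card hsub
  rw [Finset.card_union_of_disjoint hdis, hc1] at hc2
  omega

/-- the stabilizer of the set of conjugates of `x` over `E` -/
def Stb (K E : GF) (hKE : K ≤ E) (hN : NormalOver K E) (x : Qb) : Subgroup Aut where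
  carrier := {h | Fix K h ∧ ∃ ρ : Aut, Fix E ρ ∧ h x = ρ x}
  mul_mem' := by
    rintro h h' ⟨h1, ρ, hρ, h2⟩ ⟨h1', ρ', hρ', h2'⟩
    refine ⟨fix_mul h1 h1', h * ρ' * h⁻¹ * ρ, fix_mul (fix_conj hN h1 hρ') hρ, ?_⟩
    show h (h' x) = h (ρ' (h⁻¹ (ρ x)))
    rw [h2', ← h2, inv_apply_self]
  one_mem' := ⟨fix_one K, 1, fix_one E, rfl⟩
  inv_mem' := by
    rintro h ⟨h1, ρ, hρ, h2⟩
    refine ⟨fix_inv h1, (h⁻¹ * ρ * h)⁻¹, fix_inv (fix_conj' hN h1 hρ), ?_⟩
    have e : (h⁻¹ * ρ * h)⁻¹ = h⁻¹ * ρ⁻¹ * h := by group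
    rw [e]
    show h⁻¹ x = h⁻¹ (ρ⁻¹ (h x))
    rw [h2, inv_apply_self]

lemma mem_Stb {K E : GF} {hKE : K ≤ E} {hN : NormalOver K E} {x : Qb} {h : Aut} :
    h ∈ Stb K E hKE hN x ↔ Fix K h ∧ ∃ ρ : Aut, Fix E ρ ∧ h x = ρ x := Iff.rfl

lemma fix_mem_Stb {K E : GF} (hKE : K ≤ E) (hN : NormalOver K E) (x : Qb) {ρ : Aut}
    (h : Fix E ρ) : ρ ∈ Stb K E hKE hN x := ⟨fix_mono hKE h, ρ, h, rfl⟩

lemma stb_of_agree {K E : GF} {hKE : K ≤ E} {hN : NormalOver K E} {x : Qb} {h h' : Aut}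
    (hh : h ∈ Stb K E hKE hN x) (hag : AgreeOn E h' h) : h' ∈ Stb K E hKE hN x := by
  have e : h' = h * (h⁻¹ * h') := by group
  rw [e]
  apply Subgroup.mul_mem _ hh
  apply fix_mem_Stb
  intro y hy
  show h⁻¹ (h' y) = y
  rw [hag y hy, inv_apply_self]

lemma pow_gcd_mem {G : Type*} [Group G] (S : Subgroup G) (g : G) (l a : ℕ) (hl : g ^ l ∈ S)
    (ha : g ^ a ∈ S) : g ^ (Nat.gcd l a) ∈ S := by
  have h1 : g ^ (Nat.gcd l a : ℤ) = (g ^ l) ^ (Nat.gcdA l a) * (g ^ a) ^ (Nat.gcdB l a) := by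
    rw [Nat.gcd_eq_gcd_ab, zpow_add, zpow_mul, zpow_mul, zpow_natCast, zpow_natCast]
  rw [← zpow_natCast, h1]
  exact S.mul_mem (S.zpow_mem hl _) (S.zpow_mem ha _)

/-- from a small exponent to `p ^ J` -/
lemma pow_top_mem {G : Type*} [Group G] (S : Subgroup G) (g : G) (p : ℕ) (hp : p.Prime)
    (l r J : ℕ) (hl0 : 0 < l) (hlJ : l < p ^ J) (hl : g ^ l ∈ S) (hr : g ^ (p ^ r) ∈ S) :
    g ^ (p ^ J) ∈ S := by
  have h1 := pow_gcd_mem S g l (p ^ r) hl hr
  obtain ⟨a, -, ha⟩ := (Nat.dvd_prime_pow hp).mp (Nat.gcd_dvd_right l (p ^ r))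
  rw [ha] at h1
  have h2 : p ^ a ≤ l := by
    rw [← ha]
    exact Nat.le_of_dvd hl0 (Nat.gcd_dvd_left _ _)
  have h3 : a < J := by
    by_contra hcon
    push Not at hcon
    have := Nat.pow_le_pow_right hp.pos hcon
    omega
  obtain ⟨b, hb⟩ := Nat.exists_eq_add_of_lt h3
  have e : p ^ J = p ^ a * p ^ (b + 1) := by
    rw [← pow_add]
    congr 1
  rw [e, pow_mul]
  exact S.pow_mem h1 _

/-- the gap for the powers of an automorphism -/
lemma gap_pow (p : ℕ) [hp : Fact p.Prime] (φ : Qb →+* PadicAlgCl p) (E : GF) (σ : Aut) (B : ℕ)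
    (hσE : ∀ x ∈ E, σ x ∈ E) (h : Gap p φ E σ B) (j : ℕ) : Gap p φ E (σ ^ j) B := by
  have hp2 := Pool.Agent.W402.RK.two_le_p (p := p)
  have hinv0 : (0 : ℝ) < (p : ℝ)⁻¹ := by positivity
  have hinv1 : (p : ℝ)⁻¹ < 1 := inv_lt_one_of_one_lt₀ (by linarith)
  have hB : B ≠ 0 := by
    rintro rfl
    have := h 1 (one_mem E) one_ne_zero
    rw [pow_zero] at this
    linarith
  induction j with
  | zero =>
    intro x hx hx0
    rw [pow_zero, AlgEquiv.one_apply, div_self hx0, sub_self, map_zero, norm_zero, zero_pow hB]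
    exact hinv0.le
  | succ j ih =>
    intro x hx hx0
    have hy : σ x ∈ E := hσE x hx
    have hy0 : σ x ≠ 0 := (map_ne_zero σ).mpr hx0
    have h1 := h x hx hx0
    have h2 := ih (σ x) hy hy0
    have e : (σ ^ (j + 1)) x / x - 1 = ((σ ^ j) (σ x) / σ x - 1) * (σ x / x - 1) +
        ((σ ^ j) (σ x) / σ x - 1) + (σ x / x - 1) := by
      rw [pow_succ, AlgEquiv.mul_apply]
      field_simp
      ring
    set a := φ ((σ ^ j) (σ x) / σ x - 1) with ha
    set b := φ (σ x / x - 1) with hb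
    have hb1 : ‖b‖ ≤ 1 := by
      by_contra hcon
      push Not at hcon
      have := one_le_pow₀ (n := B) hcon.le
      linarith
    have e2 : φ ((σ ^ (j + 1)) x / x - 1) = a * b + a + b := by
      rw [e, map_add, map_add, map_mul]
    rw [e2]
    have h3 : ‖a * b + a + b‖ ≤ max ‖a‖ ‖b‖ := by
      refine (IsUltrametricDist.norm_add_le_max _ _).trans (max_le ?_ (le_max_right _ _))
      refine (IsUltrametricDist.norm_add_le_max _ _).trans (max_le ?_ (le_max_left _ _))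
      rw [norm_mul]
      calc ‖a‖ * ‖b‖ ≤ ‖a‖ * 1 := mul_le_mul_of_nonneg_left hb1 (norm_nonneg _)
        _ = ‖a‖ := mul_one _
        _ ≤ _ := le_max_left _ _
    calc ‖a * b + a + b‖ ^ B ≤ (max ‖a‖ ‖b‖) ^ B := pow_le_pow_left₀ (norm_nonneg _) h3 _
      _ ≤ (p : ℝ)⁻¹ := by
          rcases max_choice ‖a‖ ‖b‖ with e | e <;> rw [e]
          · exact h2
          · exact h1

/-- the coefficients of the polynomial of an orbit -/
lemma coeff_orb (E : GF) (u : Qb) (j : ℕ) :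
    (∏ y ∈ (orb_finite E u).toFinset, (X - Polynomial.C y)).coeff j ∈ E := by
  rw [← minpoly_map_eq_oprod, coeff_map]
  exact ((minpoly E u).coeff j).2

end Pool.Agent.H54.RX
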