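import Mathlib
import Pool.Agent.H54.RX.F3

set_option autoImplicit false
set_option linter.unusedVariables false

/-!
# The descent step with several levels: one row
-/

namespace Pool.Agent.H54.RX

open Polynomial IntermediateField Module
open Pool.Agent.W237.RK
open Pool.Agent.H58P (Qb ht)

/-- one row of the inequality -/
theorem row_bad [DecidableEq Qb] (p : ℕ) [hp : Fact p.Prime] (φ : Qb →+* PadicAlgCl p) (K E₀ E : GF)
    (hK0 : K ≤ E₀) (h0E : E₀ ≤ E) (hN0 : NormalOver K E₀) (hNE : NormalOver K E) (σ₀ : Aut)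
    (hσ₀ : Fix E₀ σ₀) (B C : ℕ) (hB : 0 < B) (hBC : B ≤ 2 ^ C) (hgap : Gap p φ E σ₀ B)
    (r J : ℕ) (hr : Fix E (σ₀ ^ (p ^ r))) (β : Qb) (hβ : β ≠ 0) (htor : TorRigid E β) (N : ℕ)
    (X : Finset Qb) (hX : ∀ x, x ∈ X ↔ ∃ ρ : Aut, Fix E₀ ρ ∧ ρ (β ^ (p ^ (C + N))) = x)
    (t : Aut) (ht : Fix K t) (ρ : Aut) (hρ : Fix E₀ ρ)
    (hbad : (t * ρ)⁻¹ * σ₀ ^ (p ^ J) * (t * ρ) ∉
      Stb K E (hK0.trans h0E) hNE (β ^ (p ^ (C + N)))) :
    ∏ x' ∈ X.erase (ρ (β ^ (p ^ (C + N)))),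
      ‖φ (t (ρ (β ^ (p ^ (C + N))) / β ^ (p ^ (C + N)))) - φ (t (x' / β ^ (p ^ (C + N))))‖ ≤
    (((p : ℝ) ^ N)⁻¹) ^ (p ^ J - 1) * ∏ x' ∈ X.erase (ρ (β ^ (p ^ (C + N)))),
      (max 1 ‖φ (t (ρ (β ^ (p ^ (C + N))) / β ^ (p ^ (C + N))))‖ *
        max 1 ‖φ (t (x' / β ^ (p ^ (C + N))))‖) := by
  have hpp : p.Prime := hp.out
  set P := p ^ (C + N) with hP
  have hPpos : 0 < P := pow_pos hpp.pos _
  set x₀ := β ^ P with hx₀
  have hKE : K ≤ E := hK0.trans h0E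
  have hσK : Fix K σ₀ := fix_mono hK0 hσ₀
  have hρK : Fix K ρ := fix_mono hK0 hρ
  set g : Aut := (t * ρ)⁻¹ * σ₀ * (t * ρ) with hg
  have hgpow : ∀ j : ℕ, g ^ j = (t * ρ)⁻¹ * σ₀ ^ j * (t * ρ) := by
    intro j
    have e1 : g = (t * ρ)⁻¹ * σ₀ * ((t * ρ)⁻¹)⁻¹ := by rw [inv_inv]
    rw [e1, conj_pow, inv_inv]
  set s : ℕ → Aut := fun j => t⁻¹ * σ₀ ^ j * t with hs
  have hs0 : ∀ j, Fix E₀ (s j) := fun j => fix_conj' hN0 ht (fix_pow hσ₀ j)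
  have hsg : ∀ j, s j = ρ * g ^ j * ρ⁻¹ := by
    intro j
    rw [hgpow]
    simp only [hs]
    group
  set u := ρ β with hu
  have hu0 : u ≠ 0 := (map_ne_zero ρ).mpr hβ
  set Y : Finset Qb := (orb_finite E u).toFinset with hY
  have hYmem : ∀ y, y ∈ Y ↔ ∃ κ : Aut, Fix E κ ∧ κ u = y := by
    intro y
    rw [hY, Set.Finite.mem_toFinset]
    exact Iff.rfl
  have huY : u ∈ Y := (hYmem u).mpr ⟨1, fix_one E, rfl⟩
  -- disjointness
  have hkey : ∀ i j : ℕ, i < j → j < p ^ J → ∀ y ∈ Y, ∀ y' ∈ Y, (s i y) ^ P ≠ (s j y') ^ P := by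
    intro i j hij hjJ y hy y' hy' heq
    obtain ⟨κ, hκ, rfl⟩ := (hYmem y).mp hy
    obtain ⟨κ', hκ', rfl⟩ := (hYmem y').mp hy'
    apply hbad
    rw [← hgpow]
    have hrmem : g ^ (p ^ r) ∈ Stb K E hKE hNE x₀ := by
      apply fix_mem_Stb
      rw [hgpow]
      exact fix_conj' hNE (fix_mul ht hρK) hr
    apply pow_top_mem _ g p hpp (j - i) r J (by omega) (by omega) _ hrmem
    -- the element fixing `x₀`
    set κ₁ := ρ⁻¹ * κ * ρ with hκ₁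
    set κ₂ := ρ⁻¹ * κ' * ρ with hκ₂
    have hκ₁E : Fix E κ₁ := fix_conj' hNE hρK hκ
    have hκ₂E : Fix E κ₂ := fix_conj' hNE hρK hκ'
    have e1 : (g ^ i * κ₁) x₀ = (g ^ j * κ₂) x₀ := by
      have e2 : (s i (κ u)) ^ P = ρ ((g ^ i * κ₁) x₀) := by
        rw [hu, ← map_pow, ← map_pow, ← map_pow, ← hx₀, hsg]
        show (ρ * g ^ i * ρ⁻¹ * κ * ρ) x₀ = (ρ * (g ^ i * κ₁)) x₀
        congr 1
      have e3 : (s j (κ' u)) ^ P = ρ ((g ^ j * κ₂) x₀) := by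
        rw [hu, ← map_pow, ← map_pow, ← map_pow, ← hx₀, hsg]
        show (ρ * g ^ j * ρ⁻¹ * κ' * ρ) x₀ = (ρ * (g ^ j * κ₂)) x₀
        congr 1
      rw [e2, e3] at heq
      exact ρ.injective heq
    have hgK : Fix K g := fix_conj' (K := K) (F := K) (fun τ hτ x hx => by rw [hτ x hx]; exact hx)
      (fix_mul ht hρK) hσK
    have hmem : (g ^ i * κ₁)⁻¹ * (g ^ j * κ₂) ∈ Stb K E hKE hNE x₀ := by
      refine ⟨fix_mul (fix_inv (fix_mul (fix_pow hgK i) (fix_mono hKE hκ₁E)))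
        (fix_mul (fix_pow hgK j) (fix_mono hKE hκ₂E)), 1, fix_one E, ?_⟩
      show (g ^ i * κ₁)⁻¹ ((g ^ j * κ₂) x₀) = x₀
      rw [← e1, inv_apply_self]
    have e4 : g ^ (j - i) = κ₁ * ((g ^ i * κ₁)⁻¹ * (g ^ j * κ₂)) * κ₂⁻¹ := by
      have e5 : g ^ j = g ^ i * g ^ (j - i) := by rw [← pow_add]; congr 1; omega
      rw [e5]
      group
    rw [e4]
    exact Subgroup.mul_mem _ (Subgroup.mul_mem _ (fix_mem_Stb hKE hNE x₀ hκ₁E) hmem)
      (Subgroup.inv_mem _ (fix_mem_Stb hKE hNE x₀ hκ₂E))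
  -- injectivity on a block
  have hinj : ∀ j, Set.InjOn (fun y => (s j y) ^ P) (Y : Set Qb) := by
    intro j y hy y' hy' heq
    obtain ⟨κ, hκ, rfl⟩ := (hYmem y).mp hy
    obtain ⟨κ', hκ', rfl⟩ := (hYmem y').mp hy'
    have h1 : (κ u) ^ P = (κ' u) ^ P := by
      apply (s j).injective
      rw [map_pow, map_pow]
      exact heq
    have h2 : ((ρ⁻¹ * (κ'⁻¹ * κ) * ρ) β / β) ^ P = 1 := by
      have e1 : (ρ⁻¹ * (κ'⁻¹ * κ) * ρ) β ^ P = β ^ P := by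
        show (ρ⁻¹ (κ'⁻¹ (κ u))) ^ P = β ^ P
        rw [← map_pow, ← map_pow, h1, map_pow, inv_apply_self, map_pow, hu, inv_apply_self]
      rw [div_pow, e1, div_self (pow_ne_zero _ hβ)]
    have h3 := htor (ρ⁻¹ * (κ'⁻¹ * κ) * ρ)
      (fix_conj' hNE hρK (fix_mul (fix_inv hκ') hκ)) ⟨P, hPpos, h2⟩
    have h4 : ρ⁻¹ (κ'⁻¹ (κ u)) = β := h3
    have h5 : κ'⁻¹ (κ u) = u := by
      have h6 := congrArg ρ h4
      rw [apply_inv_self] at h6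
      exact h6
    have h6 := congrArg κ' h5
    rw [apply_inv_self] at h6
    exact h6
  -- the blocks
  set Bl : ℕ → Finset Qb := fun j => Y.image (fun y => (s j y) ^ P) with hBl
  have hρx : ρ x₀ = (s 0 u) ^ P := by
    simp only [hs]
    rw [pow_zero, mul_one, inv_mul_cancel, AlgEquiv.one_apply, hu, ← map_pow]
  have hBlX : ∀ j ∈ Finset.Ico 1 (p ^ J), Bl j ⊆ X.erase (ρ x₀) := by
    intro j hj x hx
    rw [Finset.mem_Ico] at hj
    obtain ⟨y, hy, rfl⟩ := Finset.mem_image.mp hx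
    rw [Finset.mem_erase]
    constructor
    · show (s j y) ^ P ≠ ρ x₀
      rw [hρx]
      exact (hkey 0 j (by omega) hj.2 u huY y hy).symm
    · obtain ⟨κ, hκ, rfl⟩ := (hYmem y).mp hy
      rw [hX]
      refine ⟨s j * κ * ρ, fix_mul (fix_mul (hs0 j) (fix_mono h0E hκ)) hρ, ?_⟩
      show s j (κ (ρ (β ^ P))) = (s j (κ (ρ β))) ^ P
      rw [map_pow, map_pow, map_pow]
  have hBld : ∀ j ∈ Finset.Ico 1 (p ^ J), ∀ j' ∈ Finset.Ico 1 (p ^ J), j ≠ j' →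
      Disjoint (Bl j) (Bl j') := by
    intro j hj j' hj' hne
    rw [Finset.mem_Ico] at hj hj'
    rw [Finset.disjoint_left]
    intro x hx hx'
    obtain ⟨y, hy, rfl⟩ := Finset.mem_image.mp hx
    obtain ⟨y', hy', h⟩ := Finset.mem_image.mp hx'
    rcases lt_or_gt_of_ne hne with hlt | hlt
    · exact hkey j j' hlt hj'.2 y hy y' hy' h.symm
    · exact hkey j' j hlt hj.2 y' hy' y hy h
  set ψ : Qb →+* PadicAlgCl p := φ.comp (t : Qb →+* Qb) with hψ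
  have hψa : ∀ x, ψ x = φ (t x) := fun x => rfl
  have hblock : ∀ j ∈ Finset.Ico 1 (p ^ J),
      ∏ x' ∈ Bl j, ‖φ (t (ρ x₀ / x₀)) - φ (t (x' / x₀))‖ ≤ ((p : ℝ) ^ N)⁻¹ *
        ∏ x' ∈ Bl j, (max 1 ‖φ (t (ρ x₀ / x₀))‖ * max 1 ‖φ (t (x' / x₀))‖) := by
    intro j hj
    have h1 := block_gap ψ (s j) E B C hB hBC Y (fun l => coeff_orb E u l) u huY β hβ (by
      intro x hx hx0
      have htx : t x ∈ E := hNE t ht x hx
      have htx0 : t x ≠ 0 := (map_ne_zero t).mpr hx0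
      have h2 := gap_pow p φ E σ₀ B (hNE σ₀ hσK) hgap j (t x) htx htx0
      have e1 : ψ (s j x / x - 1) = φ ((σ₀ ^ j) (t x) / t x - 1) := by
        rw [hψa, map_sub, map_div₀, map_one]
        congr 3
        show t (t⁻¹ ((σ₀ ^ j) (t x))) = _
        rw [apply_inv_self]
      rw [e1]
      exact h2) N
    simp only [hBl]
    rw [Finset.prod_image (hinj j), Finset.prod_image (hinj j)]
    have e1 : (u / β) ^ P = ρ x₀ / x₀ := by rw [div_pow, hu, hx₀, map_pow]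
    have e2 : ∀ y, (s j y / β) ^ P = (s j y) ^ P / x₀ := fun y => by rw [div_pow]
    simp only [← hP, e1, e2, hψa] at h1
    exact h1
  have hfin := prod_blocks (X.erase (ρ x₀)) (fun x' => ‖φ (t (ρ x₀ / x₀)) - φ (t (x' / x₀))‖)
    (fun x' => max 1 ‖φ (t (ρ x₀ / x₀))‖ * max 1 ‖φ (t (x' / x₀))‖)
    (fun _ _ => norm_nonneg _) (fun _ _ => Pool.Agent.TH53.RP.um_le_max _ _)
    (Finset.Ico 1 (p ^ J)) Bl hBlX hBld (fun _ => ((p : ℝ) ^ N)⁻¹)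
    (fun _ _ => by have := hpp.pos; positivity) hblock
  rw [Finset.prod_const, Nat.card_Ico] at hfin
  exact hfin

end Pool.Agent.H54.RX
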