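import Mathlib
import Pool.Agent.H54.RX.F4

set_option autoImplicit false
set_option linter.unusedVariables false

/-!
# The descent step with several levels
-/

namespace Pool.Agent.H54.RX

open Polynomial IntermediateField Module
open Pool.Agent.W237.RK
open Pool.Agent.H58P (Qb ht)
open Pool.Agent.W369.RK (exists_nf_normal exists_lift exists_res card_fix)

/-- the constant `c / D ^ (1 + ε)` -/
noncomputable def lowr (c ε : ℝ) (D : ℕ) : ℝ := c / (D : ℝ) ^ (1 + ε)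

lemma exists_N3 (p : ℕ) (hp : 1 < p) (X : ℝ) (hX : 0 ≤ X) :
    ∃ N : ℕ, X < N * Real.log p ∧ (p : ℝ) ^ N ≤ p * Real.exp X := by
  have hp1 : (1 : ℝ) < p := by exact_mod_cast hp
  have hlogp : 0 < Real.log p := Real.log_pos hp1
  refine ⟨⌊X / Real.log p⌋₊ + 1, ?_, ?_⟩
  · have := Nat.lt_floor_add_one (X / Real.log p)
    rw [div_lt_iff₀ hlogp] at this
    push_cast
    exact this
  · rw [pow_succ, mul_comm]
    apply mul_le_mul_of_nonneg_left _ (by positivity)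
    have h1 : (⌊X / Real.log p⌋₊ : ℝ) * Real.log p ≤ X := by
      rw [← le_div_iff₀ hlogp]
      exact Nat.floor_le (by positivity)
    have h2 : (p : ℝ) ^ ⌊X / Real.log p⌋₊ = Real.exp (⌊X / Real.log p⌋₊ * Real.log p) := by
      rw [Real.exp_nat_mul, Real.exp_log (by positivity)]
    rw [h2]
    exact Real.exp_le_exp.mpr h1

/-- the descent step with several levels -/
def S_GL3 : Prop := ∀ (p : ℕ) [Fact p.Prime] (φ : Qb →+* PadicAlgCl p) (κ : ℕ) (ε : ℝ), 0 < ε →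
  ∃ J : ℕ, ∀ m B : ℕ, 0 < m → ∃ c : ℝ, 0 < c ∧ ∀ D : ℕ, 0 < D → ∃ k : ℕ,
  ∀ (K E₀ E : GF) (σ₀ : Aut) (β : Qb) (S : Finset Aut) (W : Set Aut) (r : ℕ),
    FiniteDimensional ℚ K → Module.finrank ℚ K ≤ κ → FiniteDimensional ℚ E → K ≤ E₀ → E₀ ≤ E →
    NormalOver K E₀ → NormalOver K E → Fix E₀ σ₀ → Fix E (σ₀ ^ (p ^ r)) → Gap p φ E σ₀ B →
    S.card ≤ m → (∀ ρ : Aut, Fix E₀ ρ → ∃ s ∈ S, AgreeOn E ρ s) →
    (∀ w ∈ W, Fix K w) → (∀ w ∈ W, ∀ τ : Aut, Fix K τ → τ * w * τ⁻¹ ∈ W) →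
    (∀ w ∈ W, ∃ τ : Aut, Fix K τ ∧
      AgreeOn E (τ * σ₀ ^ (p ^ J) * τ⁻¹) (σ₀ ^ (p ^ J) * w)) →
    β ≠ 0 → (orb E β).ncard ≤ D → TorRigid E β →
    (∀ σ' : Aut, Fix K σ' → ht (σ' β / β) ≤ lowr c ε D) →
    (∃ t : Aut, Fix K t ∧ ∃ ρ : Aut, Fix E ρ ∧
      (t⁻¹ * σ₀ ^ (p ^ J) * t) (β ^ (p ^ k)) = ρ (β ^ (p ^ k))) ∧
    ∀ w ∈ W, ∃ ρ : Aut, Fix E ρ ∧ w (β ^ (p ^ k)) = ρ (β ^ (p ^ k))

set_option maxHeartbeats 1000000 in
theorem gl3 : S_GL3 := by
  intro p hp φ κ ε hε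
  classical
  have hpp : p.Prime := hp.out
  have hp1 : (1 : ℝ) < p := by exact_mod_cast hpp.one_lt
  have hp0 : (0 : ℝ) < p := by linarith
  have hlogp : 0 < Real.log p := Real.log_pos hp1
  obtain ⟨J, hJ⟩ : ∃ J : ℕ, 2 * (κ : ℝ) / ε + 1 < (p : ℝ) ^ J := pow_unbounded_of_one_lt _ hp1
  refine ⟨J, fun m B hm => ?_⟩
  have hmR : (1 : ℝ) ≤ m := by exact_mod_cast hm
  set G : ℝ := 2 * m * (p : ℝ) ^ B * p * Real.exp (ε * (Real.log m + 1)) with hG
  have hGpos : 0 < G := by positivity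
  refine ⟨G⁻¹, by positivity, fun D hD => ?_⟩
  have hDR : (1 : ℝ) ≤ D := by exact_mod_cast hD
  have hD0 : (0 : ℝ) < D := by linarith
  have hmD : (1 : ℝ) ≤ m * D := by nlinarith
  set Λ : ℝ := Real.log (m * D) + 1 with hΛ
  have hΛ1 : 1 ≤ Λ := by
    have := Real.log_nonneg hmD
    linarith
  obtain ⟨N, hN1, hN2⟩ := exists_N3 p hpp.one_lt (ε * Λ) (by positivity)
  refine ⟨B + N, ?_⟩
  intro K E₀ E σ₀ β S W r hKfd hKκ hEfd hK0 h0E hN0 hNE hσ₀ hr hgap hSm hS hWK hWc hW hβ hDβ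
    htor hht
  have hKE : K ≤ E := hK0.trans h0E
  have hσK : Fix K σ₀ := fix_mono hK0 hσ₀
  -- `B` is positive
  have hB : 0 < B := by
    rcases Nat.eq_zero_or_pos B with h0 | h0
    · exfalso
      have := hgap 1 (one_mem E) one_ne_zero
      rw [h0, pow_zero] at this
      have h1 : (p : ℝ)⁻¹ < 1 := inv_lt_one_of_one_lt₀ hp1
      linarith
    · exact h0
  have hBC : B ≤ 2 ^ B := Nat.lt_two_pow_self.le
  set P := p ^ (B + N) with hP
  have hPpos : 0 < P := pow_pos hpp.pos _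
  set x₀ := β ^ P with hx₀
  have hx₀0 : x₀ ≠ 0 := pow_ne_zero _ hβ
  -- the height bound
  set h : ℝ := (P : ℝ) * lowr G⁻¹ ε D with hh
  have hh0 : 0 ≤ h := by
    rw [hh]
    unfold lowr
    positivity
  have hh1 : 2 * (m * D) * h ≤ 1 := by
    have e1 : (D : ℝ) ^ (1 + ε) = D * (D : ℝ) ^ ε := by
      rw [Real.rpow_add hD0, Real.rpow_one]
    have e2 : Real.exp (ε * Λ) = Real.exp (ε * (Real.log m + 1)) * (D : ℝ) ^ ε := by
      rw [hΛ, Real.rpow_def_of_pos hD0, ← Real.exp_add, Real.log_mul (by positivity) (by positivity)]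
      congr 1
      ring
    have e3 : (P : ℝ) ≤ (p : ℝ) ^ B * (p * Real.exp (ε * Λ)) := by
      rw [hP]
      push_cast
      rw [pow_add]
      exact mul_le_mul_of_nonneg_left hN2 (by positivity)
    have hDε : (0 : ℝ) < (D : ℝ) ^ ε := by positivity
    calc 2 * (m * D) * h = 2 * (m * D) * (P * (G⁻¹ / (D * (D : ℝ) ^ ε))) := by
          rw [hh]
          unfold lowr
          rw [e1]
      _ ≤ 2 * (m * D) * (((p : ℝ) ^ B * (p * Real.exp (ε * Λ))) * (G⁻¹ / (D * (D : ℝ) ^ ε))) := by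
          gcongr
      _ = G * G⁻¹ := by
          rw [e2, hG]
          field_simp
      _ = 1 := mul_inv_cancel₀ hGpos.ne'
  -- the sets
  set X : Finset Qb := (orb_finite E₀ x₀).toFinset with hXdef
  have hX : ∀ x, x ∈ X ↔ ∃ ρ : Aut, Fix E₀ ρ ∧ ρ x₀ = x := by
    intro x
    rw [hXdef, Set.Finite.mem_toFinset]
    exact Iff.rfl
  have hXpos : 0 < X.card := Finset.card_pos.mpr ⟨x₀, (hX x₀).mpr ⟨1, fix_one E₀, rfl⟩⟩
  set Y : Finset Qb := (orb_finite E β).toFinset with hYdef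
  have hYcard : Y.card ≤ D := by
    rw [hYdef, ← Set.ncard_eq_toFinset_card _ (orb_finite E β)]
    exact hDβ
  have hXcard : X.card ≤ m * D := by
    have hsub : X ⊆ S.biUnion (fun s => Y.image (fun y => (s y) ^ P)) := by
      intro x hx
      obtain ⟨ρ, hρ, rfl⟩ := (hX x).mp hx
      obtain ⟨s, hsS, hs⟩ := hS ρ hρ
      rw [Finset.mem_biUnion]
      refine ⟨s, hsS, Finset.mem_image.mpr ⟨(s⁻¹ * ρ) β, ?_, ?_⟩⟩
      · rw [hYdef, Set.Finite.mem_toFinset]
        refine ⟨s⁻¹ * ρ, ?_, rfl⟩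
        intro y hy
        show s⁻¹ (ρ y) = y
        rw [hs y hy, inv_apply_self]
      · show (s (s⁻¹ (ρ β))) ^ P = ρ (β ^ P)
        rw [apply_inv_self, map_pow]
    calc X.card ≤ _ := Finset.card_le_card hsub
      _ ≤ S.card * D := Finset.card_biUnion_le_card_mul _ _ _ fun s _ =>
          Finset.card_image_le.trans hYcard
      _ ≤ m * D := Nat.mul_le_mul_right _ hSm
  obtain ⟨M, hMfd, hEM, hsM, hM⟩ := exists_nf_normal E {β} (Set.finite_singleton β)
  have hβM : β ∈ M := hsM (Set.mem_singleton β)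
  have hx₀M : x₀ ∈ M := pow_mem hβM _
  choose lf hlf using exists_lift M
  choose rs hrs using exists_res M hM
  choose! ρf hρf using fun x => (hX x).mp
  -- the automorphisms over `K`
  set H : Finset (M ≃ₐ[ℚ] M) := Finset.univ.filter
    (fun τ => ∀ x : M, (x : Qb) ∈ K → τ x = x) with hHdef
  have hHmem : ∀ τ : M ≃ₐ[ℚ] M, τ ∈ H ↔ ∀ x : M, (x : Qb) ∈ K → τ x = x := by
    intro τ
    rw [hHdef, Finset.mem_filter]
    exact ⟨fun h => h.2, fun h => ⟨Finset.mem_univ _, h⟩⟩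
  have hHcard := card_fix M K (hKE.trans hEM) hM H hHmem
  have hlfK : ∀ τ ∈ H, Fix K (lf τ) := by
    intro τ hτ x hx
    have h1 := hlf τ ⟨x, hEM (hKE hx)⟩
    rw [(hHmem τ).mp hτ ⟨x, hEM (hKE hx)⟩ hx] at h1
    exact h1
  have hrsH : ∀ t, Fix K t → rs t ∈ H := by
    intro t ht
    rw [hHmem]
    intro x hx
    apply Subtype.ext
    rw [← hrs t x]
    exact ht x hx
  have hlfrs : ∀ t, ∀ x ∈ M, lf (rs t) x = t x := by
    intro t x hx
    rw [hlf (rs t) ⟨x, hx⟩, ← hrs t ⟨x, hx⟩]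
  have hlfmul : ∀ a b, ∀ x ∈ M, lf (a * b) x = lf a (lf b x) := by
    intro a b x hx
    have h1 := hlf b ⟨x, hx⟩
    have h2 := hlf (a * b) ⟨x, hx⟩
    have h3 := hlf a (b ⟨x, hx⟩)
    rw [← h1] at h3
    rw [h2, h3]
    rfl
  have hlfinv : ∀ a, ∀ x ∈ M, lf a⁻¹ x = (lf a)⁻¹ x := by
    intro a x hx
    have h1 := hlfmul a a⁻¹ x hx
    have h2 : lf (a * a⁻¹) x = x := by
      rw [mul_inv_cancel, hlf 1 ⟨x, hx⟩]
      rfl
    rw [h2] at h1
    calc lf a⁻¹ x = (lf a)⁻¹ (lf a (lf a⁻¹ x)) := (inv_apply_self _ _).symm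
      _ = (lf a)⁻¹ x := by rw [← h1]
  -- conjugation and restriction
  have hconj : ∀ t t' : Aut, (∀ x ∈ M, t x = t' x) → ∀ σ : Aut, ∀ x ∈ M,
      (t⁻¹ * σ * t) x = (t'⁻¹ * σ * t') x := by
    intro t t' htt σ x hx
    show t⁻¹ (σ (t x)) = t'⁻¹ (σ (t' x))
    rw [htt x hx]
    have h1 : σ (t' x) ∈ M := hM _ _ (hM _ _ hx)
    have h2 : t⁻¹ (σ (t' x)) ∈ M := hM _ _ h1
    have h3 := htt _ h2
    rw [apply_inv_self] at h3
    calc t⁻¹ (σ (t' x)) = t'⁻¹ (t' (t⁻¹ (σ (t' x)))) := (inv_apply_self _ _).symm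
      _ = t'⁻¹ (σ (t' x)) := by rw [← h3]
  set st := σ₀ ^ (p ^ J) with hst
  have hstK : Fix K st := fix_pow hσK _
  have hconjK : ∀ t, Fix K t → Fix K (t⁻¹ * st * t) := fun t ht =>
    fix_mul (fix_mul (fix_inv ht) hstK) ht
  let good : Aut → Prop := fun t => t⁻¹ * st * t ∈ Stb K E hKE hNE x₀
  have hgood_inv : ∀ t t', Fix K t → Fix K t' → (∀ x ∈ M, t x = t' x) → good t → good t' := by
    intro t t' ht ht' htt hg
    obtain ⟨-, ρ, hρ, h1⟩ := mem_Stb.mp hg
    refine mem_Stb.mpr ⟨hconjK t' ht', ρ, hρ, ?_⟩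
    rw [← hconj t t' htt st x₀ hx₀M]
    exact h1
  -- the gains
  set q : ℝ := (((p : ℝ) ^ N)⁻¹) ^ (p ^ J - 1) with hq
  have hq0 : 0 < q := by positivity
  have hq1 : q ≤ 1 := by
    apply pow_le_one₀ (by positivity)
    apply inv_le_one_of_one_le₀
    exact one_le_pow₀ hp1.le
  set δ : (M ≃ₐ[ℚ] M) → Qb → ℝ := fun τ x => if good (lf τ * ρf x) then 1 else q with hδ
  have hmain := pairsX p φ M hMfd hM X (fun x => x / x₀)
    (fun x _ y _ hxy => (div_left_inj' hx₀0).mp hxy) (by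
      intro x hx
      obtain ⟨ρ, -, rfl⟩ := (hX x).mp hx
      exact div_mem (hM _ _ hx₀M) hx₀M) H δ (by
      intro τ x
      simp only [hδ]
      split_ifs
      · exact one_pos
      · exact hq0) (by
      intro τ x
      simp only [hδ]
      split_ifs
      · exact le_rfl
      · exact hq1) (by
      intro τ hτ
      refine ⟨lf τ, hlf τ, ?_⟩
      intro x hx
      by_cases hg : good (lf τ * ρf x)
      · have e1 : δ τ x = 1 := by simp only [hδ]; rw [if_pos hg]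
        rw [e1, one_mul]
        exact Finset.prod_le_prod (fun _ _ => norm_nonneg _)
          fun _ _ => Pool.Agent.TH53.RP.um_le_max _ _
      · have e1 : δ τ x = q := by simp only [hδ]; rw [if_neg hg]
        rw [e1]
        have h1 := row_bad p φ K E₀ E hK0 h0E hN0 hNE σ₀ hσ₀ B B hB hBC hgap r J hr β hβ htor N
          X hX (lf τ) (hlfK τ hτ) (ρf x) (hρf x hx).1 hg
        have h2 := (hρf x hx).2
        rw [hx₀, hP] at h2
        rw [h2] at h1
        exact h1)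
  set A : Finset (M ≃ₐ[ℚ] M) := H.filter (fun τ => good (lf τ)) with hA
  set Bd : Finset (M ≃ₐ[ℚ] M) := H.filter (fun τ => ¬ good (lf τ)) with hBd
  have hAB : A.card + Bd.card = H.card := Finset.card_filter_add_card_filter_not _
  set L : ℝ := -Real.log q with hL
  have hL0 : 0 ≤ L := by
    have := Real.log_nonpos hq0.le hq1
    linarith
  -- the left side
  have hleft : (X.card : ℝ) * (Bd.card * L) ≤ ∑ τ ∈ H, ∑ x ∈ X, -Real.log (δ τ x) := by
    rw [Finset.sum_comm]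
    have hx : ∀ x ∈ X, (Bd.card : ℝ) * L ≤ ∑ τ ∈ H, -Real.log (δ τ x) := by
      intro x hx
      have e1 : ∀ τ, -Real.log (δ τ x) = if ¬ good (lf τ * ρf x) then L else 0 := by
        intro τ
        simp only [hδ]
        by_cases hg : good (lf τ * ρf x)
        · rw [if_pos hg, if_neg (not_not.mpr hg), Real.log_one, neg_zero]
        · rw [if_neg hg, if_pos hg]
      simp only [e1]
      rw [← Finset.sum_filter, Finset.sum_const, nsmul_eq_mul]
      apply mul_le_mul_of_nonneg_right _ hL0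
      have hρK : Fix K (ρf x) := fix_mono hK0 (hρf x hx).1
      have h1 : Bd.card ≤ (H.filter (fun τ => ¬ good (lf τ * ρf x))).card := by
        apply Finset.card_le_card_of_injOn (fun τ => τ * (rs (ρf x))⁻¹)
        · intro τ hτ
          rw [Finset.mem_coe, hBd, Finset.mem_filter] at hτ
          rw [Finset.mem_coe, Finset.mem_filter]
          have hτH : τ * (rs (ρf x))⁻¹ ∈ H := by
            rw [hHmem]
            intro y hy
            have h2 : (rs (ρf x))⁻¹ y = y := by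
              have h3 : rs (ρf x) y = y := (hHmem _).mp (hrsH _ hρK) y hy
              calc (rs (ρf x))⁻¹ y = (rs (ρf x))⁻¹ (rs (ρf x) y) := by rw [h3]
                _ = y := AlgEquiv.symm_apply_apply _ _
            show τ ((rs (ρf x))⁻¹ y) = y
            rw [h2]
            exact (hHmem τ).mp hτ.1 y hy
          refine ⟨hτH, ?_⟩
          intro hg
          apply hτ.2
          apply hgood_inv _ _ (fix_mul (hlfK _ hτH) hρK) (hlfK τ hτ.1) _ hg
          intro y hy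
          show lf (τ * (rs (ρf x))⁻¹) (ρf x y) = lf τ y
          have hy' : ρf x y ∈ M := hM _ _ hy
          rw [hlfmul τ _ _ hy', hlfinv _ _ hy']
          congr 1
          have h4 : lf (rs (ρf x)) y = ρf x y := hlfrs _ y hy
          rw [← h4, inv_apply_self]
        · intro τ _ τ' _ h
          exact mul_right_cancel h
      exact_mod_cast h1
    calc (X.card : ℝ) * (Bd.card * L) = ∑ x ∈ X, (Bd.card : ℝ) * L := by
          rw [Finset.sum_const, nsmul_eq_mul]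
      _ ≤ _ := Finset.sum_le_sum hx
  -- the right side
  have hsum : ∑ x ∈ X, ht (x / x₀) ≤ X.card * h := by
    have h1 : ∀ x ∈ X, ht (x / x₀) ≤ h := by
      intro x hx
      obtain ⟨ρ, hρ, rfl⟩ := (hX x).mp hx
      have e1 : ρ x₀ / x₀ = (ρ β / β) ^ P := by rw [hx₀, map_pow, div_pow]
      rw [e1, Pool.Agent.H58B.ht_pow, hh]
      exact mul_le_mul_of_nonneg_left (hht ρ (fix_mono hK0 hρ)) (Nat.cast_nonneg _)
    have := Finset.sum_le_card_nsmul X (fun x => ht (x / x₀)) _ h1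
    rwa [nsmul_eq_mul] at this
  have hn : (X.card : ℝ) ≤ m * D := by exact_mod_cast hXcard
  have hn0 : (0 : ℝ) < X.card := by exact_mod_cast hXpos
  have hn1 : (1 : ℝ) ≤ X.card := by exact_mod_cast hXpos
  have hright : (X.card : ℝ) * Real.log X.card +
      (2 * (X.card - 1 : ℕ)) * ∑ x ∈ X, ht (x / x₀) ≤ X.card * Λ := by
    have h1 : Real.log X.card ≤ Real.log (m * D) := Real.log_le_log hn0 hn
    have h2 : ((X.card - 1 : ℕ) : ℝ) ≤ X.card := by exact_mod_cast Nat.sub_le _ 1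
    have h3 : (2 * ((X.card - 1 : ℕ) : ℝ)) * ∑ x ∈ X, ht (x / x₀) ≤ X.card * 1 := by
      calc (2 * ((X.card - 1 : ℕ) : ℝ)) * ∑ x ∈ X, ht (x / x₀)
          ≤ (2 * (X.card : ℝ)) * (X.card * h) := by
            apply mul_le_mul _ hsum (Finset.sum_nonneg fun x _ => Pool.Agent.H58R.ht_nonneg _)
              (by positivity)
            linarith
        _ = X.card * (2 * X.card * h) := by ring
        _ ≤ X.card * (2 * (m * D) * h) := by gcongr
        _ ≤ X.card * 1 := by gcongr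
    calc _ ≤ X.card * Real.log (m * D) + X.card * 1 := by
          apply add_le_add _ h3
          gcongr
      _ = X.card * Λ := by rw [hΛ]; ring
  have hfinal : (Bd.card : ℝ) * L ≤ H.card * (κ * Λ) := by
    have h1 : (X.card : ℝ) * (Bd.card * L) ≤ (finrank ℚ M : ℝ) * (X.card * Λ) :=
      (hleft.trans hmain).trans (mul_le_mul_of_nonneg_left hright (Nat.cast_nonneg _))
    have h2 : (finrank ℚ M : ℝ) = H.card * finrank ℚ K := by
      rw [← hHcard]
      push_cast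
      ring
    have h3 : (finrank ℚ K : ℝ) ≤ κ := by exact_mod_cast hKκ
    have h4 : (X.card : ℝ) * (Bd.card * L) ≤ X.card * (H.card * (κ * Λ)) := by
      calc (X.card : ℝ) * (Bd.card * L) ≤ (finrank ℚ M : ℝ) * (X.card * Λ) := h1
        _ = (X.card * (H.card * Λ)) * finrank ℚ K := by rw [h2]; ring
        _ ≤ (X.card * (H.card * Λ)) * κ := mul_le_mul_of_nonneg_left h3 (by positivity)
        _ = _ := by ring
    exact le_of_mul_le_mul_left h4 hn0
  have hLval : L = ((p : ℝ) ^ J - 1) * (N * Real.log p) := by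
    rw [hL, hq, Real.log_pow, Real.log_inv, Real.log_pow, Nat.cast_sub (Nat.one_le_pow _ _ hpp.pos)]
    push_cast
    ring
  have hLgt : 2 * (κ * Λ) < L := by
    rw [hLval]
    have h1 : 2 * (κ : ℝ) / ε < (p : ℝ) ^ J - 1 := by linarith
    have h2 : 0 ≤ 2 * (κ : ℝ) / ε := by positivity
    have h3 : 0 < ε * Λ := by positivity
    calc 2 * (κ * Λ) = (2 * (κ : ℝ) / ε) * (ε * Λ) := by field_simp
      _ ≤ (2 * (κ : ℝ) / ε) * (N * Real.log p) := mul_le_mul_of_nonneg_left hN1.le h2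
      _ < ((p : ℝ) ^ J - 1) * (N * Real.log p) := mul_lt_mul_of_pos_right h1 (h3.trans hN1)
  have hHpos : 0 < H.card := by
    apply Finset.card_pos.mpr
    exact ⟨1, (hHmem 1).mpr fun x _ => rfl⟩
  have hHR : (0 : ℝ) < H.card := by exact_mod_cast hHpos
  have hhalf : 2 * Bd.card < H.card := by
    by_contra hcon
    push Not at hcon
    have h1 : (H.card : ℝ) ≤ 2 * Bd.card := by exact_mod_cast hcon
    have h2 : (H.card : ℝ) * L ≤ 2 * (H.card * (κ * Λ)) := by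
      calc (H.card : ℝ) * L ≤ (2 * Bd.card) * L := mul_le_mul_of_nonneg_right h1 hL0
        _ = 2 * (Bd.card * L) := by ring
        _ ≤ _ := by linarith
    have h3 : (H.card : ℝ) * (2 * (κ * Λ)) < H.card * L := mul_lt_mul_of_pos_left hLgt hHR
    linarith
  have hA2 : H.card < 2 * A.card := by omega
  have hAmem : ∀ τ, τ ∈ A ↔ τ ∈ H ∧ good (lf τ) := fun τ => by rw [hA, Finset.mem_filter]
  constructor
  · have hApos : 0 < A.card := by omega
    obtain ⟨τ, hτ⟩ := Finset.card_pos.mp hApos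
    rw [hAmem] at hτ
    obtain ⟨-, ρ, hρ, h1⟩ := mem_Stb.mp hτ.2
    exact ⟨lf τ, hlfK τ hτ.1, ρ, hρ, h1⟩
  · intro w hw
    have hwK : Fix K w := hWK w hw
    set F : (M ≃ₐ[ℚ] M) → (E → Qb) := fun τ x => ((lf τ)⁻¹ * st * lf τ) x with hF
    set R : (E → Qb) → (E → Qb) := fun f x => f ⟨w x, hNE w hwK x x.2⟩ with hR
    obtain ⟨a, ha, b, hb, hab⟩ := half H A F R (Finset.filter_subset _ _) hA2
      (by
        intro a ha b hb c hc
        rw [hHmem] at ha hb hc ⊢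
        intro x hx
        have h2 : b⁻¹ x = x := by
          have h5 : b x = x := hb x hx
          calc b⁻¹ x = b⁻¹ (b x) := by rw [h5]
            _ = x := AlgEquiv.symm_apply_apply _ _
        have h3 : c x = x := hc x hx
        have h4 : a x = x := ha x hx
        calc (a * b⁻¹ * c) x = a (b⁻¹ (c x)) := rfl
          _ = a (b⁻¹ x) := by rw [h3]
          _ = a x := by rw [h2]
          _ = x := h4)
      (by
        intro a ha b hb c hc hab
        funext x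
        have hxM : (x : Qb) ∈ M := hEM x.2
        have h1 : ∀ y ∈ M, lf (a * b⁻¹ * c) y = (lf a * (lf b)⁻¹ * lf c) y := by
          intro y hy
          have hy1 : lf c y ∈ M := hM _ _ hy
          rw [hlfmul _ _ _ hy, hlfmul _ _ _ hy1, hlfinv _ _ hy1]
          rfl
        show ((lf (a * b⁻¹ * c))⁻¹ * st * lf (a * b⁻¹ * c)) x = ((lf c)⁻¹ * st * lf c) x
        rw [hconj _ _ h1 st x hxM]
        have hy : (lf b)⁻¹ (lf c x) ∈ E :=
          hNE _ (fix_inv (hlfK b hb)) _ (hNE _ (hlfK c hc) _ x.2)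
        have h2 : ((lf a)⁻¹ * st * lf a) ((lf b)⁻¹ (lf c x)) =
            ((lf b)⁻¹ * st * lf b) ((lf b)⁻¹ (lf c x)) := congrFun hab ⟨_, hy⟩
        have e1 : (lf a * (lf b)⁻¹ * lf c)⁻¹ * st * (lf a * (lf b)⁻¹ * lf c) =
            (lf c)⁻¹ * lf b * ((lf a)⁻¹ * st * lf a) * ((lf b)⁻¹ * lf c) := by group
        have e2 : (lf c)⁻¹ * st * lf c =
            (lf c)⁻¹ * lf b * ((lf b)⁻¹ * st * lf b) * ((lf b)⁻¹ * lf c) := by group
        rw [e1, e2]
        show (lf c)⁻¹ (lf b (((lf a)⁻¹ * st * lf a) ((lf b)⁻¹ (lf c x)))) =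
          (lf c)⁻¹ (lf b (((lf b)⁻¹ * st * lf b) ((lf b)⁻¹ (lf c x))))
        rw [h2])
      (by
        intro a ha
        have haK := hlfK a ha
        obtain ⟨τ', hτ'K, hτ'⟩ := hW _ (hWc w hw (lf a) haK)
        have htK : Fix K (τ'⁻¹ * lf a) := fix_mul (fix_inv hτ'K) haK
        refine ⟨rs (τ'⁻¹ * lf a), hrsH _ htK, ?_⟩
        funext x
        have hxM : (x : Qb) ∈ M := hEM x.2
        show ((lf (rs (τ'⁻¹ * lf a)))⁻¹ * st * lf (rs (τ'⁻¹ * lf a))) x =
          ((lf a)⁻¹ * st * lf a) (w x)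
        rw [hconj _ _ (hlfrs (τ'⁻¹ * lf a)) st x hxM]
        have e1 : (τ'⁻¹ * lf a)⁻¹ * st * (τ'⁻¹ * lf a) = (lf a)⁻¹ * (τ' * st * τ'⁻¹) * lf a := by
          group
        rw [e1]
        have h1 := hτ' (lf a x) (hNE _ haK _ x.2)
        show (lf a)⁻¹ ((τ' * st * τ'⁻¹) (lf a x)) = (lf a)⁻¹ (st (lf a (w x)))
        rw [h1]
        show (lf a)⁻¹ (st (lf a (w ((lf a)⁻¹ (lf a x))))) = _
        rw [inv_apply_self])
      (by
        intro a ha b hb hab
        funext x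
        have hy : w⁻¹ (x : Qb) ∈ E := hNE _ (fix_inv hwK) _ x.2
        have h1 := congrFun hab ⟨w⁻¹ x, hy⟩
        have h2 : (⟨w (w⁻¹ (x : Qb)), hNE w hwK _ hy⟩ : E) = x := Subtype.ext (apply_inv_self _ _)
        have h3 : F a ⟨w (w⁻¹ (x : Qb)), hNE w hwK _ hy⟩ =
            F b ⟨w (w⁻¹ (x : Qb)), hNE w hwK _ hy⟩ := h1
        rwa [h2] at h3)
    rw [hAmem] at ha hb
    have hca : (lf a)⁻¹ * st * lf a ∈ Stb K E hKE hNE x₀ := ha.2
    have hcb : (lf b)⁻¹ * st * lf b ∈ Stb K E hKE hNE x₀ := hb.2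
    have hcw : ((lf a)⁻¹ * st * lf a) * w ∈ Stb K E hKE hNE x₀ := by
      apply stb_of_agree hcb
      intro x hx
      have h1 := congrFun hab ⟨x, hx⟩
      exact h1.symm
    have hwS : w ∈ Stb K E hKE hNE x₀ := by
      have e1 : w = ((lf a)⁻¹ * st * lf a)⁻¹ * (((lf a)⁻¹ * st * lf a) * w) := by group
      rw [e1]
      exact Subgroup.mul_mem _ (Subgroup.inv_mem _ hca) hcw
    exact (mem_Stb.mp hwS).2

end Pool.Agent.H54.RX
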