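import Mathlib
import Pool.Agent.H54.RX.F5
import Pool.Agent.H54.G.W669.RK.GLF

set_option autoImplicit false
set_option linter.unusedVariables false

/-!
# The Frobenius step with several iterates
-/

namespace Pool.Agent.H54.RX

open Polynomial
open Pool.Agent.W237.RK
open Pool.Agent.H58P (Qb ht)
open Pool.Agent.H58R (ht_nonneg)
open Pool.Agent.H58B (ht_conj ht_pow)
open Pool.Agent.W669.RK (exists_big prod_close tor_of_ht_zero)

/-- iterates of a Frobenius automorphism at one place -/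
lemma frob_iter (p : ℕ) [hp : Fact p.Prime] (ψ : Qb →+* PadicAlgCl p) (E : GF) (σ : Aut)
    (a n₁ : ℕ) (hn₁ : 0 < n₁) (hσE : ∀ x ∈ E, σ x ∈ E)
    (h : ∀ x ∈ E, ‖ψ x‖ ≤ 1 → ‖ψ (σ x - x ^ (p ^ a))‖ ^ n₁ ≤ (p : ℝ)⁻¹) (m : ℕ) :
    ∀ x ∈ E, ‖ψ x‖ ≤ 1 → (σ ^ m) x ∈ E ∧ ‖ψ ((σ ^ m) x)‖ ≤ 1 ∧
      ‖ψ ((σ ^ m) x - x ^ (p ^ (a * m)))‖ ^ n₁ ≤ (p : ℝ)⁻¹ := by
  have hp2 := Pool.Agent.W402.RK.two_le_p (p := p)
  have hinv0 : (0 : ℝ) < (p : ℝ)⁻¹ := by positivity
  have hinv1 : (p : ℝ)⁻¹ < 1 := inv_lt_one_of_one_lt₀ (by linarith)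
  have hle1 : ∀ r : ℝ, r ^ n₁ ≤ (p : ℝ)⁻¹ → r ≤ 1 := by
    intro r hr
    by_contra hcon
    push Not at hcon
    have := one_le_pow₀ (n := n₁) hcon.le
    linarith
  induction m with
  | zero =>
    intro x hx hx1
    refine ⟨hx, hx1, ?_⟩
    rw [pow_zero, AlgEquiv.one_apply, Nat.mul_zero, pow_zero, pow_one, sub_self, map_zero,
      norm_zero, zero_pow hn₁.ne']
    exact hinv0.le
  | succ m ih =>
    intro x hx hx1
    obtain ⟨h1, h2, h3⟩ := ih x hx hx1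
    set y := (σ ^ m) x with hy
    have hsucc : (σ ^ (m + 1)) x = σ y := by rw [pow_succ', AlgEquiv.mul_apply]
    have h4 := h y h1 h2
    have h5 : ‖ψ (σ y)‖ ≤ 1 := by
      have e : ψ (σ y) = ψ (σ y - y ^ (p ^ a)) + ψ y ^ (p ^ a) := by
        rw [map_sub, map_pow]; ring
      rw [e]
      refine (IsUltrametricDist.norm_add_le_max _ _).trans (max_le (hle1 _ h4) ?_)
      rw [norm_pow]
      exact pow_le_one₀ (norm_nonneg _) h2
    refine ⟨by rw [hsucc]; exact hσE y h1, by rw [hsucc]; exact h5, ?_⟩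
    rw [hsucc]
    have hQ : 0 < p ^ a := pow_pos hp.out.pos _
    have e1 : x ^ (p ^ (a * (m + 1))) = (x ^ (p ^ (a * m))) ^ (p ^ a) := by
      rw [← pow_mul, ← pow_add]
      congr 2
    have hx2 : ‖ψ (x ^ (p ^ (a * m)))‖ ≤ 1 := by
      rw [map_pow, norm_pow]
      exact pow_le_one₀ (norm_nonneg _) hx1
    have h6 : ‖ψ y ^ (p ^ a) - ψ (x ^ (p ^ (a * m))) ^ (p ^ a)‖ ≤
        ‖ψ (y - x ^ (p ^ (a * m)))‖ := by
      have h7 := Pool.Agent.W669.RK.norm_pow_sub_pow (ψ y) (ψ (x ^ (p ^ (a * m))))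
        zero_le_one h2 hx2 (p ^ a - 1)
      rw [Nat.sub_add_cancel hQ, one_pow, mul_one, ← map_sub] at h7
      exact h7
    have e2 : ψ (σ y - x ^ (p ^ (a * (m + 1)))) = ψ (σ y - y ^ (p ^ a)) +
        (ψ y ^ (p ^ a) - ψ (x ^ (p ^ (a * m))) ^ (p ^ a)) := by
      rw [e1, map_sub, map_sub, map_pow, map_pow ψ y]
      ring
    rw [e2]
    have h8 : ‖ψ (σ y - y ^ (p ^ a)) + (ψ y ^ (p ^ a) - ψ (x ^ (p ^ (a * m))) ^ (p ^ a))‖ ≤
        max ‖ψ (σ y - y ^ (p ^ a))‖ ‖ψ (y - x ^ (p ^ (a * m)))‖ :=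
      (IsUltrametricDist.norm_add_le_max _ _).trans (max_le_max le_rfl h6)
    calc _ ≤ (max ‖ψ (σ y - y ^ (p ^ a))‖ ‖ψ (y - x ^ (p ^ (a * m)))‖) ^ n₁ :=
          pow_le_pow_left₀ (norm_nonneg _) h8 _
      _ ≤ (p : ℝ)⁻¹ := by
          rcases max_choice ‖ψ (σ y - y ^ (p ^ a))‖ ‖ψ (y - x ^ (p ^ (a * m)))‖ with e | e <;>
            rw [e]
          · exact h4
          · exact h3

/-- the block of the iterates -/
lemma frob_block (p : ℕ) [hp : Fact p.Prime] (ψ : Qb →+* PadicAlgCl p) (E : GF) (σ s : Aut)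
    (a n₁ C : ℕ) (hn₁ : 0 < n₁) (hC : n₁ ≤ 2 ^ C) (hσE : ∀ x ∈ E, σ x ∈ E)
    (hsE : ∀ x ∈ E, s x ∈ E)
    (h : ∀ x ∈ E, ‖ψ x‖ ≤ 1 → ‖ψ (σ x - x ^ (p ^ a))‖ ^ n₁ ≤ (p : ℝ)⁻¹) (Y : Finset Qb)
    (hco : ∀ l, (∏ y ∈ Y, (X - Polynomial.C y)).coeff l ∈ E) (y₀ : Qb) (hy₀ : y₀ ∈ Y)
    (m j N : ℕ) (hj : C + N ≤ a * j) :
    ∏ y ∈ Y, ‖ψ ((s y₀) ^ (p ^ (a * (j + m)))) - ψ (((σ ^ m) (s y)) ^ (p ^ (a * j)))‖ ≤
      ((p : ℝ) ^ N)⁻¹ * ∏ y ∈ Y, (max 1 ‖ψ ((s y₀) ^ (p ^ (a * (j + m))))‖ *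
        max 1 ‖ψ (((σ ^ m) (s y)) ^ (p ^ (a * j)))‖) := by
  classical
  have hp0 := Pool.Agent.W402.RK.p_pos (p := p)
  have hp2 := Pool.Agent.W402.RK.two_le_p (p := p)
  obtain ⟨ρ, hρ0, hρ⟩ : ∃ ρ : ℝ, 0 < ρ ∧ ρ ^ n₁ = (p : ℝ)⁻¹ := by
    refine ⟨((p : ℝ)⁻¹) ^ ((n₁ : ℝ)⁻¹), by positivity, ?_⟩
    rw [← Real.rpow_natCast, ← Real.rpow_mul (by positivity), inv_mul_cancel₀ (by positivity),
      Real.rpow_one]
  set Y' := Y.image s with hY'
  have hinj : Set.InjOn (fun y => s y) (Y : Set Qb) := fun x _ y _ hxy => s.injective hxy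
  have hco' : ∀ l, (∏ y ∈ Y', (X - Polynomial.C y)).coeff l ∈ E := by
    intro l
    have e1 : ∏ y ∈ Y', (X - Polynomial.C y) =
        (∏ y ∈ Y, (X - Polynomial.C y)).map (s : Qb →+* Qb) := by
      rw [hY', Finset.prod_image hinj, Polynomial.map_prod]
      apply Finset.prod_congr rfl
      intro y _
      simp
    rw [e1, coeff_map]
    exact hsE _ (hco l)
  have h1 := prod_close ψ (σ ^ m) E (a * m) n₁ hn₁ Y' hco' (s y₀)
    (Finset.mem_image_of_mem _ hy₀) ρ hρ0 hρ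
    (fun x hx hx1 => (frob_iter p ψ E σ a n₁ hn₁ hσE h m x hx hx1).2.2)
  rw [hY', Finset.prod_image hinj, Finset.prod_image hinj] at h1
  obtain ⟨N', hN'⟩ := Nat.exists_eq_add_of_le hj
  have h2 := block_pow Y (ψ (s y₀) ^ (p ^ (a * m))) (fun y => ψ ((σ ^ m) (s y))) n₁ C hC ρ hρ0 hρ
    h1 (N + N')
  have e1 : C + (N + N') = a * j := by omega
  rw [e1] at h2
  have e2 : (ψ (s y₀) ^ (p ^ (a * m))) ^ (p ^ (a * j)) = ψ ((s y₀) ^ (p ^ (a * (j + m)))) := by
    rw [map_pow, ← pow_mul, ← pow_add]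
    congr 2
    ring
  have e3 : ∀ y, ψ ((σ ^ m) (s y)) ^ (p ^ (a * j)) = ψ (((σ ^ m) (s y)) ^ (p ^ (a * j))) :=
    fun y => (map_pow ψ _ _).symm
  simp only [e2, e3] at h2
  refine h2.trans ?_
  apply mul_le_mul_of_nonneg_right _ (Finset.prod_nonneg fun y _ => by positivity)
  apply inv_anti₀ (by positivity)
  exact pow_le_pow_right₀ (by linarith) (by omega)

/-- the Frobenius step with several iterates -/
def S_GLF3 : Prop := ∀ (p : ℕ) [Fact p.Prime] (φ : Qb →+* PadicAlgCl p) (κ n₁ : ℕ) (ε : ℝ),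
  0 < ε → ∃ c : ℝ, 0 < c ∧ ∀ D : ℕ, 0 < D → ∀ (K E : GF) (σ : Aut) (a : ℕ) (β : Qb),
    FiniteDimensional ℚ K → Module.finrank ℚ K ≤ κ → FiniteDimensional ℚ E → K ≤ E →
    NormalOver K E → Fix K σ → (∀ τ : Aut, Fix K τ → ∀ x ∈ E, τ (σ x) = σ (τ x)) →
    0 < a → a ≤ n₁ →
    (∀ x ∈ E, ‖φ x‖ ≤ 1 → ‖φ (σ x - x ^ (p ^ a))‖ ^ n₁ ≤ (p : ℝ)⁻¹) →
    β ≠ 0 → (orb E β).ncard ≤ D → TorRigid E β → ht β ≤ lowr c ε D → Tor β

set_option maxHeartbeats 1000000 in
theorem glf3 : S_GLF3 := by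
  classical
  intro p _ φ κ n₁ ε hε
  have hp : p.Prime := Fact.out
  have hpR : (0 : ℝ) < p := by exact_mod_cast hp.pos
  have hp1 : (1 : ℝ) < p := by exact_mod_cast hp.one_lt
  have hlogp : 0 < Real.log p := Real.log_pos hp1
  -- the constants
  set ε' : ℝ := ε / (n₁ + 1) with hε'
  have hε'0 : 0 < ε' := by positivity
  have hε'n : n₁ * ε' ≤ ε := by
    rw [hε', mul_div_assoc', div_le_iff₀ (by positivity)]
    nlinarith
  obtain ⟨L, hL⟩ := exists_nat_gt (2 * (κ : ℝ) / ε' + 1)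
  have hκε : 0 ≤ 2 * (κ : ℝ) / ε' := by positivity
  have hLR : (1 : ℝ) < L := by linarith
  have hL1 : 1 < L := by exact_mod_cast hLR
  set C : ℕ := n₁ with hC
  set G : ℝ := 2 * L * (p : ℝ) ^ (n₁ * (C + L + 1)) * Real.exp (ε * (Real.log L + 1)) with hG
  have hGpos : 0 < G := by positivity
  refine ⟨G⁻¹, by positivity, fun D hD => ?_⟩
  have hDR : (1 : ℝ) ≤ D := by exact_mod_cast hD
  have hD0 : (0 : ℝ) < D := by linarith
  have hLD : (1 : ℝ) ≤ L * D := by nlinarith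
  set Λ : ℝ := Real.log (L * D) + 1 with hΛ
  have hΛ1 : 1 ≤ Λ := by
    have := Real.log_nonneg hLD
    linarith
  obtain ⟨N, hN1, hN2⟩ := exists_N3 p hp.one_lt (ε' * Λ) (by positivity)
  intro K E σ a β hK hκ hE hKE hN' hσ hcomm ha ha' hfrob hβ hDβ htor hht
  by_cases h0 : ht β = 0
  · exact tor_of_ht_zero β hβ h0
  exfalso
  have hn₁pos : 0 < n₁ := lt_of_lt_of_le ha ha'
  have hhpos : 0 < ht β := lt_of_le_of_ne (ht_nonneg β) (Ne.symm h0)
  set H : ℕ := C + N with hH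
  set e : ℕ := H + L with he
  -- the height bound
  set h : ℝ := (p : ℝ) ^ (n₁ * (H + L)) * lowr G⁻¹ ε D with hh
  have hh1 : 2 * (L * D) * h ≤ 1 := by
    have e1 : (D : ℝ) ^ (1 + ε) = D * (D : ℝ) ^ ε := by
      rw [Real.rpow_add hD0, Real.rpow_one]
    have e2 : Real.exp (ε * Λ) = Real.exp (ε * (Real.log L + 1)) * (D : ℝ) ^ ε := by
      rw [hΛ, Real.rpow_def_of_pos hD0, ← Real.exp_add,
        Real.log_mul (by positivity) (by positivity)]
      congr 1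
      ring
    have e3 : (p : ℝ) ^ (n₁ * (H + L)) ≤ (p : ℝ) ^ (n₁ * (C + L + 1)) * Real.exp (ε * Λ) := by
      calc (p : ℝ) ^ (n₁ * (H + L)) = (p : ℝ) ^ (n₁ * (C + L)) * ((p : ℝ) ^ N) ^ n₁ := by
            rw [hH, ← pow_mul, ← pow_add]
            congr 1
            ring
        _ ≤ (p : ℝ) ^ (n₁ * (C + L)) * (p * Real.exp (ε' * Λ)) ^ n₁ := by gcongr
        _ = (p : ℝ) ^ (n₁ * (C + L + 1)) * Real.exp (n₁ * (ε' * Λ)) := by
            rw [mul_pow, ← Real.exp_nat_mul, ← mul_assoc, ← pow_add]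
            congr 2
        _ ≤ _ := by
            apply mul_le_mul_of_nonneg_left _ (by positivity)
            apply Real.exp_le_exp.mpr
            rw [← mul_assoc]
            exact mul_le_mul_of_nonneg_right hε'n (by linarith)
    have hDε : (0 : ℝ) < (D : ℝ) ^ ε := by positivity
    calc 2 * (L * D) * h = 2 * (L * D) * ((p : ℝ) ^ (n₁ * (H + L)) *
          (G⁻¹ / (D * (D : ℝ) ^ ε))) := by
          rw [hh]
          unfold lowr
          rw [e1]
      _ ≤ 2 * (L * D) * (((p : ℝ) ^ (n₁ * (C + L + 1)) * Real.exp (ε * Λ)) *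
          (G⁻¹ / (D * (D : ℝ) ^ ε))) := by
          gcongr
      _ = G * G⁻¹ := by
          rw [e2, hG]
          field_simp
      _ = 1 := mul_inv_cancel₀ hGpos.ne'
  -- the orbit
  set Y := (orb_finite E β).toFinset with hY
  have hYmem : ∀ y, y ∈ Y ↔ ∃ ρ : Aut, Fix E ρ ∧ ρ β = y := by
    intro y
    rw [hY, Set.Finite.mem_toFinset]
    exact Iff.rfl
  have hYcard : Y.card = (orb E β).ncard := (Set.ncard_eq_toFinset_card _ _).symm
  have hYD : Y.card ≤ D := by rw [hYcard]; exact hDβ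
  have hβY : β ∈ Y := (hYmem β).mpr ⟨1, fix_one E, rfl⟩
  have hYpos : 0 < Y.card := Finset.card_pos.mpr ⟨β, hβY⟩
  have hσE : ∀ x ∈ E, σ x ∈ E := fun x hx => hN' σ hσ x hx
  obtain ⟨M, hMf, hMs, hEM, hsM, T, hT1, hT2⟩ := exists_big K E hE hKE Y
  have hYM : ∀ y ∈ Y, y ∈ M := fun y hy => hsM _ hy
  have hhty : ∀ y ∈ Y, ht y = ht β := by
    intro y hy
    obtain ⟨τ, -, rfl⟩ := (hYmem y).mp hy
    exact ht_conj τ β
  -- the nodes
  set X : Finset (ℕ × Qb) := Finset.Ico H (H + L) ×ˢ Y with hX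
  have hXmem : ∀ x, x ∈ X ↔ (H ≤ x.1 ∧ x.1 < H + L) ∧ x.2 ∈ Y := by
    intro x
    rw [hX, Finset.mem_product, Finset.mem_Ico]
  have hXcard : X.card = L * Y.card := by
    rw [hX, Finset.card_product, Nat.card_Ico]
    congr 1
    omega
  set z : ℕ × Qb → Qb := fun x => ((σ ^ (e - x.1)) x.2) ^ (p ^ (a * x.1)) with hz
  have hhtz : ∀ x ∈ X, ht (z x) = (p : ℝ) ^ (a * x.1) * ht β := by
    intro x hx
    show ht (((σ ^ (e - x.1)) x.2) ^ (p ^ (a * x.1))) = _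
    rw [ht_pow, ht_conj, hhty _ ((hXmem x).mp hx).2]
    push_cast
    ring
  have hzinj : Set.InjOn z X := by
    intro x hx x' hx' hxx
    have hx := (hXmem x).mp hx
    have hx' := (hXmem x').mp hx'
    have h1 : ht (z x) = ht (z x') := by rw [hxx]
    rw [hhtz x ((hXmem x).mpr hx), hhtz x' ((hXmem x').mpr hx')] at h1
    have h2 : (p : ℝ) ^ (a * x.1) = (p : ℝ) ^ (a * x'.1) := mul_right_cancel₀ h0 h1
    have h3 : a * x.1 = a * x'.1 := by
      apply Nat.pow_right_injective hp.two_le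
      show p ^ (a * x.1) = p ^ (a * x'.1)
      exact_mod_cast h2
    have h4 : x.1 = x'.1 := Nat.eq_of_mul_eq_mul_left ha h3
    have h5 : ((σ ^ (e - x.1)) x.2) ^ (p ^ (a * x.1)) =
        ((σ ^ (e - x.1)) x'.2) ^ (p ^ (a * x.1)) := by
      have : z x = z x' := hxx
      simp only [hz, ← h4] at this
      exact this
    have h6 : x.2 ^ (p ^ (a * x.1)) = x'.2 ^ (p ^ (a * x.1)) := by
      apply (σ ^ (e - x.1)).injective
      rw [map_pow, map_pow]
      exact h5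
    obtain ⟨κ₁, hκ₁, hk1⟩ := (hYmem _).mp hx.2
    obtain ⟨κ₂, hκ₂, hk2⟩ := (hYmem _).mp hx'.2
    rw [← hk1, ← hk2] at h6
    have h7 := htor (κ₂⁻¹ * κ₁) (fix_mul (fix_inv hκ₂) hκ₁) ⟨p ^ (a * x.1), pow_pos hp.pos _, by
      have e1 : ((κ₂⁻¹ * κ₁) β) ^ (p ^ (a * x.1)) = β ^ (p ^ (a * x.1)) := by
        show (κ₂⁻¹ (κ₁ β)) ^ (p ^ (a * x.1)) = _
        rw [← map_pow, h6, map_pow, inv_apply_self]
      rw [div_pow, e1, div_self (pow_ne_zero _ hβ)]⟩
    have h8 : κ₂⁻¹ (κ₁ β) = β := h7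
    have h9 := congrArg κ₂ h8
    rw [apply_inv_self, hk1, hk2] at h9
    exact Prod.ext h4 h9
  have hzM : ∀ x ∈ X, z x ∈ M := fun x hx =>
    pow_mem (hMs _ _ (hYM _ ((hXmem x).mp hx).2)) _
  set q : ℝ := ((p : ℝ) ^ N)⁻¹ with hq
  have hq0 : 0 < q := by positivity
  have hq1 : q ≤ 1 := inv_le_one_of_one_le₀ (one_le_pow₀ hp1.le)
  have hmain := pairsX p φ M hMf hMs X z hzinj hzM T (fun _ x => q ^ (x.1 - H))
    (fun _ _ => by positivity) (fun _ _ => pow_le_one₀ hq0.le hq1) (by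
      intro τ hτ
      obtain ⟨t, ht1, ht2⟩ := hT2 τ hτ
      refine ⟨t, ht2, ?_⟩
      intro x hx
      have hx' := (hXmem x).mp hx
      set ψ : Qb →+* PadicAlgCl p := φ.comp (t : Qb →+* Qb) with hψ
      have hψa : ∀ y, φ (t y) = ψ y := fun y => rfl
      have hψE : ∀ x ∈ E, ‖ψ x‖ ≤ 1 → ‖ψ (σ x - x ^ (p ^ a))‖ ^ n₁ ≤ (p : ℝ)⁻¹ := by
        intro x hx hx1
        have h1 := hfrob (t x) (hN' t ht1 x hx) hx1
        have h2 : ψ (σ x - x ^ (p ^ a)) = φ (σ (t x) - (t x) ^ (p ^ a)) := by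
          rw [← hcomm t ht1 x hx, ← map_pow, ← map_sub]
          rfl
        rw [h2]
        exact h1
      simp only [hψa]
      have hb := prod_blocks (X.erase x) (fun x' => ‖ψ (z x) - ψ (z x')‖)
        (fun x' => max 1 ‖ψ (z x)‖ * max 1 ‖ψ (z x')‖) (fun _ _ => norm_nonneg _)
        (fun _ _ => Pool.Agent.TH53.RP.um_le_max _ _) (Finset.Ico H x.1)
        (fun j => Y.image (fun y => (j, y)))
        (by
          intro j hj x' hx''
          rw [Finset.mem_Ico] at hj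
          obtain ⟨y, hy, rfl⟩ := Finset.mem_image.mp hx''
          rw [Finset.mem_erase, hXmem]
          refine ⟨fun h => ?_, ⟨hj.1, ?_⟩, hy⟩
          · have : j = x.1 := congrArg Prod.fst h
            omega
          · show j < H + L
            omega)
        (by
          intro j _ j' _ hne
          rw [Finset.disjoint_left]
          intro x' hx1 hx2
          obtain ⟨y, -, rfl⟩ := Finset.mem_image.mp hx1
          obtain ⟨y', -, h⟩ := Finset.mem_image.mp hx2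
          exact hne (congrArg Prod.fst h).symm)
        (fun _ => q) (fun _ _ => hq0.le)
        (by
          intro j hj
          rw [Finset.mem_Ico] at hj
          have hinj : Set.InjOn (fun y : Qb => ((j, y) : ℕ × Qb)) (Y : Set Qb) :=
            fun y _ y' _ h => congrArg Prod.snd h
          rw [Finset.prod_image hinj, Finset.prod_image hinj]
          have h1 := frob_block p ψ E σ (σ ^ (e - x.1)) a n₁ C hn₁pos Nat.lt_two_pow_self.le hσE
            (fun y hy => hN' _ (fix_pow hσ _) y hy) hψE Y (fun l => coeff_orb E β l) x.2 hx'.2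
            (x.1 - j) j N (by
              calc C + N = 1 * H := by rw [one_mul]
                _ ≤ a * j := Nat.mul_le_mul ha hj.1)
          have e1 : j + (x.1 - j) = x.1 := by omega
          have e2 : ∀ y, (σ ^ (x.1 - j)) ((σ ^ (e - x.1)) y) = (σ ^ (e - j)) y := by
            intro y
            rw [← AlgEquiv.mul_apply, ← pow_add]
            congr 2
            omega
          simp only [e1, e2] at h1
          exact h1)
      rw [Finset.prod_const, Nat.card_Ico] at hb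
      exact hb)
  -- the left side
  have hlogq : ∀ x : ℕ × Qb, -Real.log (q ^ (x.1 - H)) = ((x.1 - H : ℕ) : ℝ) * (N * Real.log p) := by
    intro x
    rw [Real.log_pow, hq, Real.log_inv, Real.log_pow]
    ring
  have hgauss : 2 * ∑ x ∈ X, ((x.1 - H : ℕ) : ℝ) = (Y.card : ℝ) * (L * (L - 1)) := by
    have h1 : ∑ x ∈ X, ((x.1 - H : ℕ) : ℝ) = (Y.card : ℝ) * ∑ i ∈ Finset.range L, (i : ℝ) := by
      rw [hX, Finset.sum_product]
      simp only [Finset.sum_const, nsmul_eq_mul]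
      rw [← Finset.mul_sum, Finset.sum_Ico_eq_sum_range]
      congr 1
      rw [Nat.add_sub_cancel_left]
      apply Finset.sum_congr rfl
      intro i _
      rw [Nat.add_sub_cancel_left]
    have h2 : (∑ i ∈ Finset.range L, (i : ℝ)) * 2 = L * (L - 1) := by
      have h3 := Finset.sum_range_id_mul_two L
      have h4 : (((∑ i ∈ Finset.range L, i) * 2 : ℕ) : ℝ) = ((L * (L - 1) : ℕ) : ℝ) := by rw [h3]
      rw [Nat.cast_mul, Nat.cast_mul, Nat.cast_sub hL1.le] at h4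
      push_cast at h4
      exact h4
    rw [h1, ← h2]
    ring
  simp only [hlogq] at hmain
  rw [Finset.sum_const, nsmul_eq_mul, ← Finset.sum_mul] at hmain
  -- the right side
  have hYR : (0 : ℝ) < Y.card := by exact_mod_cast hYpos
  have hn0 : (0 : ℝ) < X.card := by
    rw [hXcard]
    push_cast
    positivity
  have hXR : (X.card : ℝ) = L * Y.card := by rw [hXcard]; push_cast; ring
  have hn : (X.card : ℝ) ≤ L * D := by
    rw [hXR]
    have : (Y.card : ℝ) ≤ D := by exact_mod_cast hYD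
    gcongr
  have hsum : ∑ x ∈ X, ht (z x) ≤ X.card * h := by
    have h1 : ∀ x ∈ X, ht (z x) ≤ h := by
      intro x hx
      have hx' := (hXmem x).mp hx
      rw [hhtz x hx, hh]
      apply mul_le_mul _ hht hhpos.le (by positivity)
      apply pow_le_pow_right₀ hp1.le
      exact Nat.mul_le_mul ha' hx'.1.2.le
    have := Finset.sum_le_card_nsmul X (fun x => ht (z x)) _ h1
    rwa [nsmul_eq_mul] at this
  have hright : (X.card : ℝ) * Real.log X.card +
      (2 * (X.card - 1 : ℕ)) * ∑ x ∈ X, ht (z x) ≤ X.card * Λ := by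
    have h1 : Real.log X.card ≤ Real.log (L * D) := Real.log_le_log hn0 hn
    have h2 : ((X.card - 1 : ℕ) : ℝ) ≤ X.card := by exact_mod_cast Nat.sub_le _ 1
    have hh0 : 0 ≤ h := by
      rw [hh]
      unfold lowr
      positivity
    have h3 : (2 * ((X.card - 1 : ℕ) : ℝ)) * ∑ x ∈ X, ht (z x) ≤ X.card * 1 := by
      calc (2 * ((X.card - 1 : ℕ) : ℝ)) * ∑ x ∈ X, ht (z x)
          ≤ (2 * (X.card : ℝ)) * (X.card * h) := by
            apply mul_le_mul _ hsum (Finset.sum_nonneg fun x _ => ht_nonneg _) (by positivity)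
            linarith
        _ = X.card * (2 * X.card * h) := by ring
        _ ≤ X.card * (2 * (L * D) * h) := by gcongr
        _ ≤ X.card * 1 := by gcongr
    calc _ ≤ X.card * Real.log (L * D) + X.card * 1 := by
          apply add_le_add _ h3
          gcongr
      _ = X.card * Λ := by rw [hΛ]; ring
  have hTpos : 0 < T.card := by
    have h1 : 0 < Module.finrank ℚ M := Module.finrank_pos
    rw [hT1] at h1
    exact Nat.pos_of_mul_pos_left h1
  have hTR : (0 : ℝ) < T.card := by exact_mod_cast hTpos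
  have hTcard : (Module.finrank ℚ M : ℝ) ≤ T.card * κ := by
    have : Module.finrank ℚ M ≤ T.card * κ := by
      rw [hT1, mul_comm]
      exact Nat.mul_le_mul_left _ hκ
    exact_mod_cast this
  have h1 : (T.card : ℝ) * ((∑ x ∈ X, ((x.1 - H : ℕ) : ℝ)) * (N * Real.log p)) ≤
      (T.card * κ) * (X.card * Λ) := by
    refine hmain.trans ?_
    exact (mul_le_mul_of_nonneg_left hright (Nat.cast_nonneg _)).trans
      (mul_le_mul_of_nonneg_right hTcard (by positivity))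
  have h2 : (T.card : ℝ) * Y.card * L * ((L - 1) * (N * Real.log p)) ≤
      T.card * Y.card * L * (2 * κ * Λ) := by
    calc (T.card : ℝ) * Y.card * L * ((L - 1) * (N * Real.log p))
        = T.card * ((2 * ∑ x ∈ X, ((x.1 - H : ℕ) : ℝ)) * (N * Real.log p)) := by
          rw [hgauss]; ring
      _ = 2 * (T.card * ((∑ x ∈ X, ((x.1 - H : ℕ) : ℝ)) * (N * Real.log p))) := by ring
      _ ≤ 2 * ((T.card * κ) * (X.card * Λ)) := by linarith
      _ = _ := by rw [hXR]; ring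
  have h3 : ((L : ℝ) - 1) * (N * Real.log p) ≤ 2 * κ * Λ := le_of_mul_le_mul_left h2 (by positivity)
  have h4 : 2 * κ * Λ < ((L : ℝ) - 1) * (N * Real.log p) := by
    have h5 : 2 * (κ : ℝ) / ε' < (L : ℝ) - 1 := by linarith
    have h6 : 0 < ε' * Λ := by positivity
    calc 2 * κ * Λ = (2 * (κ : ℝ) / ε') * (ε' * Λ) := by field_simp
      _ ≤ (2 * (κ : ℝ) / ε') * (N * Real.log p) := mul_le_mul_of_nonneg_left hN1.le hκε
      _ < ((L : ℝ) - 1) * (N * Real.log p) := mul_lt_mul_of_pos_right h5 (h6.trans hN1)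
  linarith

end Pool.Agent.H54.RX
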