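import Mathlib
import Pool.Agent.H54.RX.F5
import Pool.Agent.H54.G.TH53.RP5

set_option autoImplicit false
set_option linter.unusedVariables false

/-!
# Levels: representatives, automorphisms of exact conductor
-/

namespace Pool.Agent.H54.RX

open Polynomial IntermediateField Module
open Pool.Agent.H58P (Qb ht qb_isIntegral)
open Pool.Agent.W237.RK
open Pool.Agent.W369.RK (root_decomp pow_act)

lemma torRigid_of {Finf E : GF} {β : Qb} (h : TorRigid Finf β) (hr : Rigid Finf E β) :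
    TorRigid E β := by
  intro κ hκ ht
  obtain ⟨ρ, hρ, h1⟩ := hr κ hκ
  rw [h1] at ht ⊢
  exact h ρ hρ ht

/-- two automorphisms agree on a level -/
lemma agree_lev2 (K : GF) (Γ : Subgroup Qbˣ) (p i M' R : ℕ) (hp : p.Prime) (hM' : ¬ p ∣ M')
    (ζ : Qb) (hζ : IsPrimitiveRoot ζ (p ^ i)) {σ τ : Aut} (hK : ∀ x ∈ K, σ x = τ x)
    (h0 : σ ζ = τ ζ) (h1 : ∀ x : Qb, x ^ M' = 1 → σ x = τ x)
    (h2 : ∀ y : Qb, (∃ g ∈ Γ, y ^ R = (g : Qb)) → σ y = τ y) :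
    AgreeOn (lev K Γ (p ^ i * M') R) σ τ := by
  have hM'0 : 0 < M' := Nat.pos_of_ne_zero (by rintro rfl; exact hM' (dvd_zero p))
  have hcop : Nat.Coprime M' (p ^ i) :=
    Nat.Coprime.pow_right _ ((Nat.Prime.coprime_iff_not_dvd hp).mpr hM').symm
  apply agree_lev hK _ h2
  intro x hx
  obtain ⟨r, y, hy, rfl⟩ := root_decomp (p ^ i) M' (pow_pos hp.pos i) hM'0 hcop ζ x hζ hx
  rw [map_mul, map_mul, map_pow, map_pow, h0, h1 y hy]

/-- representatives of the automorphisms over a lower level -/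
lemma exists_reps (K : GF) (Γ : Subgroup Qbˣ) (p : ℕ) (hp : p.Prime)
    (s : ℕ) (g : Fin s → Qbˣ) (hgΓ : ∀ j, g j ∈ Γ)
    (hg : ∀ x ∈ Γ, ∃ e : Fin s → ℤ, x = ∏ j, g j ^ e j)
    (i₀ i n₀ n M M' : ℕ) (hi : i₀ ≤ i) (hn : n₀ ≤ n) (hni : n ≤ i) (hM : ¬ p ∣ M)
    (hM' : ¬ p ∣ M') :
    ∃ S : Finset Aut, S.card ≤ p ^ (i - i₀) * (p ^ (n - n₀)) ^ s ∧
      ∀ ρ : Aut, Fix (lev K Γ (p ^ i₀ * M') (p ^ n₀ * M)) ρ →
        ∃ t ∈ S, AgreeOn (lev K Γ (p ^ i * M') (p ^ n * M)) ρ t := by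
  classical
  have hM0 : 0 < M := Nat.pos_of_ne_zero (by rintro rfl; exact hM (dvd_zero p))
  have hM'0 : 0 < M' := Nat.pos_of_ne_zero (by rintro rfl; exact hM' (dvd_zero p))
  have hRpos : 0 < p ^ n * M := Nat.mul_pos (pow_pos hp.pos n) hM0
  obtain ⟨ζ, hζ⟩ := Pool.Agent.H58R.exists_prim (p ^ i) (pow_pos hp.pos i)
  have hζ0 : ζ ≠ 0 := hζ.ne_zero (pow_pos hp.pos i).ne'
  obtain ⟨z, hz, hzy⟩ := exists_roots Γ s g hg (p ^ n * M) hRpos
  set E₀ := lev K Γ (p ^ i₀ * M') (p ^ n₀ * M) with hE₀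
  have hζE : ζ ^ (p ^ (i - i₀)) ∈ E₀ := by
    apply root_mem_lev
    rw [← pow_mul, ← mul_assoc, ← pow_add, Nat.sub_add_cancel hi, pow_mul, hζ.pow_eq_one, one_pow]
  have hzE : ∀ j, (z j : Qb) ^ (p ^ (n - n₀)) ∈ E₀ := by
    intro j
    apply rad_mem_lev
    refine ⟨g j, hgΓ j, ?_⟩
    rw [← pow_mul, ← mul_assoc, ← pow_add, Nat.sub_add_cancel hn, ← Units.val_pow_eq_pow_val, hz]
  -- the finite sets
  have hroots : ∀ Q : ℕ, 0 < Q → ∃ W : Finset Qb, W.card ≤ Q ∧ ∀ x : Qb, x ^ Q = 1 → x ∈ W := by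
    intro Q hQ
    refine ⟨(nthRoots Q (1 : Qb)).toFinset,
      (Multiset.toFinset_card_le _).trans (card_nthRoots Q 1), ?_⟩
    intro x hx
    rw [Multiset.mem_toFinset, mem_nthRoots hQ]
    exact hx
  obtain ⟨W₁, hW₁, hW₁'⟩ := hroots (p ^ (i - i₀)) (pow_pos hp.pos _)
  obtain ⟨W₂, hW₂, hW₂'⟩ := hroots (p ^ (n - n₀)) (pow_pos hp.pos _)
  set V : Finset (Qb × (Fin s → Qb)) := W₁ ×ˢ Fintype.piFinset (fun _ => W₂) with hV
  have hVcard : V.card ≤ p ^ (i - i₀) * (p ^ (n - n₀)) ^ s := by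
    rw [hV, Finset.card_product, Fintype.card_piFinset_const]
    exact Nat.mul_le_mul hW₁ (Nat.pow_le_pow_left hW₂ s)
  set Ψ : Aut → Qb × (Fin s → Qb) := fun ρ => (ρ ζ / ζ, fun j => ρ (z j : Qb) / (z j : Qb))
    with hΨ
  set pick : Qb × (Fin s → Qb) → Aut := fun v =>
    if h : ∃ ρ : Aut, Fix E₀ ρ ∧ Ψ ρ = v then h.choose else 1 with hpick
  refine ⟨V.image pick, Finset.card_image_le.trans hVcard, ?_⟩
  intro ρ hρ
  have hΨV : Ψ ρ ∈ V := by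
    rw [hV, Finset.mem_product, Fintype.mem_piFinset]
    constructor
    · apply hW₁'
      show (ρ ζ / ζ) ^ (p ^ (i - i₀)) = 1
      rw [div_pow, ← map_pow, hρ _ hζE, div_self (pow_ne_zero _ hζ0)]
    · intro j
      apply hW₂'
      show (ρ (z j : Qb) / (z j : Qb)) ^ (p ^ (n - n₀)) = 1
      rw [div_pow, ← map_pow, hρ _ (hzE j), div_self (pow_ne_zero _ (Units.ne_zero _))]
  refine ⟨pick (Ψ ρ), Finset.mem_image_of_mem _ hΨV, ?_⟩
  have hex : ∃ ρ' : Aut, Fix E₀ ρ' ∧ Ψ ρ' = Ψ ρ := ⟨ρ, hρ, rfl⟩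
  have hpk : pick (Ψ ρ) = hex.choose := by
    simp only [hpick]
    rw [dif_pos hex]
  rw [hpk]
  obtain ⟨hρ', hΨ'⟩ := hex.choose_spec
  set ρ' := hex.choose with hρ'def
  have e1 : ρ ζ = ρ' ζ := by
    have h1 : ρ' ζ / ζ = ρ ζ / ζ := congrArg Prod.fst hΨ'
    exact ((div_left_inj' hζ0).mp h1).symm
  have e2 : ∀ j, ρ (z j : Qb) = ρ' (z j : Qb) := by
    intro j
    have h1 : ρ' (z j : Qb) / (z j : Qb) = ρ (z j : Qb) / (z j : Qb) :=
      congrFun (congrArg Prod.snd hΨ') j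
    exact ((div_left_inj' (Units.ne_zero (z j))).mp h1).symm
  have hK0 : K ≤ E₀ := le_lev K Γ _ _
  apply agree_lev2 K Γ p i M' (p ^ n * M) hp hM' ζ hζ
  · intro x hx
    rw [hρ x (hK0 hx), hρ' x (hK0 hx)]
  · exact e1
  · intro x hx
    have hxE : x ∈ E₀ := by
      apply root_mem_lev
      rw [mul_comm, pow_mul, hx, one_pow]
    rw [hρ x hxE, hρ' x hxE]
  · intro y hy
    obtain ⟨e, ω, hω, rfl⟩ := hzy y hy
    have hω2 : ρ ω = ρ' ω := by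
      have hζn : IsPrimitiveRoot (ζ ^ (p ^ (i - n))) (p ^ n) := by
        apply hζ.pow (pow_pos hp.pos i)
        rw [← pow_add]
        congr 1
        omega
      obtain ⟨r, x, hx, rfl⟩ := root_decomp (p ^ n) M (pow_pos hp.pos n) hM0
        (Nat.Coprime.pow_right _ ((Nat.Prime.coprime_iff_not_dvd hp).mpr hM).symm) _ ω hζn hω
      have hxE : x ∈ E₀ := by
        apply rad_mem_lev
        refine ⟨1, one_mem Γ, ?_⟩
        rw [mul_comm, pow_mul, hx, one_pow, Units.val_one]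
      rw [map_mul, map_mul, map_pow, map_pow, map_pow, map_pow, e1, hρ x hxE, hρ' x hxE]
    rw [map_mul, map_mul, hω2, Units.coe_prod, map_prod, map_prod]
    congr 1
    apply Finset.prod_congr rfl
    intro j _
    rw [Units.val_zpow_eq_zpow_val, map_zpow₀, map_zpow₀, e2 j]

/-- powers of an automorphism of exact conductor: the fixed roots of unity -/
lemma top_fix (p : ℕ) (hp : p.Prime) (σ : Aut) (m₀ a : ℕ) (ha : a ≤ m₀)
    (h1 : ∀ x : Qb, x ^ (p ^ m₀) = 1 → σ x = x) (x : Qb) (hx : x ^ (p ^ (m₀ + a)) = 1) :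
    (σ ^ (p ^ a)) x = x := by
  have hx0 : x ≠ 0 := by
    rintro rfl
    rw [zero_pow (pow_pos hp.pos _).ne'] at hx
    exact zero_ne_one hx
  set η := σ x / x with hη
  have hσx : σ x = η * x := by rw [hη]; field_simp
  have h2 : η ^ (p ^ a) = 1 := by
    rw [hη, div_pow, ← map_pow, h1 (x ^ (p ^ a)), div_self (pow_ne_zero _ hx0)]
    rw [← pow_mul, ← pow_add, add_comm, hx]
  have h3 : σ η = η := by
    apply h1
    obtain ⟨b, rfl⟩ := Nat.exists_eq_add_of_le ha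
    rw [pow_add, pow_mul, h2, one_pow]
  rw [pow_act σ x η hσx h3, h2, one_mul]

/-- powers of an automorphism of exact conductor: the moved roots of unity -/
lemma top_mov (p : ℕ) (hp : p.Prime) (σ : Aut) (m₀ J : ℕ) (hJ : J + 1 ≤ m₀)
    (h1 : ∀ x : Qb, x ^ (p ^ m₀) = 1 → σ x = x)
    (h2 : ∀ ζ : Qb, IsPrimitiveRoot ζ (p ^ (m₀ + 1)) → σ ζ ≠ ζ) (ζ : Qb)
    (hζ : IsPrimitiveRoot ζ (p ^ (m₀ + 1 + J))) : (σ ^ (p ^ J)) ζ ≠ ζ := by
  intro hcon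
  have hζ0 : ζ ≠ 0 := hζ.ne_zero (pow_pos hp.pos _).ne'
  set η := σ ζ / ζ with hη
  have hσζ : σ ζ = η * ζ := by rw [hη]; field_simp
  have h3 : η ^ (p ^ (J + 1)) = 1 := by
    rw [hη, div_pow, ← map_pow, h1 (ζ ^ (p ^ (J + 1))), div_self (pow_ne_zero _ hζ0)]
    rw [← pow_mul, ← pow_add]
    have e : J + 1 + m₀ = m₀ + 1 + J := by omega
    rw [e, hζ.pow_eq_one]
  have h4 : σ η = η := by
    apply h1
    obtain ⟨b, rfl⟩ := Nat.exists_eq_add_of_le hJ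
    rw [pow_add, pow_mul, h3, one_pow]
  rw [pow_act σ ζ η hσζ h4] at hcon
  have h5 : η ^ (p ^ J) = 1 := by
    have h6 : η ^ (p ^ J) * ζ = 1 * ζ := by rw [hcon, one_mul]
    exact mul_right_cancel₀ hζ0 h6
  have h7 : IsPrimitiveRoot (ζ ^ (p ^ J)) (p ^ (m₀ + 1)) := by
    apply hζ.pow (pow_pos hp.pos _)
    rw [← pow_add]
    congr 1
    omega
  apply h2 _ h7
  rw [map_pow, hσζ, mul_pow, h5, one_mul]

/-- fixing a level -/
lemma fix_lev2 (K : GF) (Γ : Subgroup Qbˣ) (p i M' R : ℕ) (hp : p.Prime) (hM' : ¬ p ∣ M')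
    {σ : Aut} (hK : Fix K σ) (h0 : ∀ x : Qb, x ^ (p ^ i) = 1 → σ x = x)
    (h1 : ∀ x : Qb, x ^ M' = 1 → σ x = x)
    (h2 : ∀ y : Qb, (∃ g ∈ Γ, y ^ R = (g : Qb)) → σ y = y) :
    Fix (lev K Γ (p ^ i * M') R) σ := by
  obtain ⟨ζ, hζ⟩ := Pool.Agent.H58R.exists_prim (p ^ i) (pow_pos hp.pos i)
  exact agree_lev2 (σ := σ) (τ := 1) K Γ p i M' R hp hM' ζ hζ hK (h0 ζ hζ.pow_eq_one) h1 h2

end Pool.Agent.H54.RX
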