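import Mathlib
import Pool.Agent.H54.RX.F8

set_option autoImplicit false
set_option linter.unusedVariables false

/-!
# The Kummer step
-/

namespace Pool.Agent.H54.RX

open Polynomial IntermediateField Module
open Pool.Agent.H58P (Qb ht qb_isIntegral)
open Pool.Agent.W237.RK
open Pool.Agent.W369.RK (fix_lev pow_act root_decomp)

/-- the Kummer step -/
def S_KS3 : Prop := ∀ (p : ℕ) [Fact p.Prime] (φ : Qb →+* PadicAlgCl p) (K : GF)
  (Γ : Subgroup Qbˣ) (ε : ℝ), 0 < ε → FiniteDimensional ℚ K → Γ.FG → (∀ g ∈ Γ, (g : Qb) ∈ K) →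
  ∀ J : ℕ,
  ∃ (n₀ : ℕ) (c : ℝ), 0 < c ∧ ∀ D : ℕ, 0 < D → ∀ (Finf : GF) (i n M M' : ℕ) (β : Qb), n₀ ≤ n →
    n ≤ i → i ≤ n + J → ¬ p ∣ M → ¬ p ∣ M' → levInf K Γ (p ^ n * M) ≤ Finf →
    NormalOver K Finf → β ≠ 0 → (orb Finf β).ncard ≤ D → TorRigid Finf β →
    Rigid Finf (lev K Γ (p ^ i * M') (p ^ n * M)) β →
    (∀ σ : Aut, Fix K σ → ht (σ β / β) ≤ lowr c ε D) →
    ∃ γ : Qb, (∃ g ∈ Γ, γ ^ (p ^ n * M) = (g : Qb)) ∧
      Rigid Finf (levInf K Γ (p ^ (n - 1) * M)) (β / γ)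

theorem ks3 : S_GL3 → S_LT → S_KI → S_KDB → S_KS3 := by
  intro hGL hLT hKI hKDB p _ φ K Γ ε hε hKfd hΓfg hΓ J₀
  classical
  have hp : p.Prime := Fact.out
  obtain ⟨s, g, hgΓ, hg⟩ := exists_gens Γ hΓfg
  obtain ⟨cK, hcK⟩ := hKI p K Γ hKfd hΓfg hΓ
  obtain ⟨J, hgl'⟩ := hGL p φ (Module.finrank ℚ K) ε hε
  obtain ⟨B, hB0, hB⟩ := hLT p φ K Γ hKfd hΓfg hΓ (cK + J + J₀)
  obtain ⟨c, hc, hGL'⟩ := hgl' (p ^ (J₀ + cK + J + 1) * (p ^ (cK + J + B)) ^ s) B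
    (Nat.mul_pos (pow_pos hp.pos _) (pow_pos (pow_pos hp.pos _) _))
  refine ⟨2 * (cK + J + J₀ + B) + 4, c, hc, fun D hD0 => ?_⟩
  obtain ⟨k, hgl⟩ := hGL' D hD0
  intro Finf i n M M' β hn hni hiJ hM hM' hFinf hnorm hβ hD htr hrig hht
  have hMpos : 0 < M := Nat.pos_of_ne_zero (by rintro rfl; exact hM (dvd_zero p))
  have hM'pos : 0 < M' := Nat.pos_of_ne_zero (by rintro rfl; exact hM' (dvd_zero p))
  have hNpos : 0 < p ^ i * M' := Nat.mul_pos (pow_pos hp.pos i) hM'pos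
  have hRpos : 0 < p ^ n * M := Nat.mul_pos (pow_pos hp.pos n) hMpos
  set E := lev K Γ (p ^ i * M') (p ^ n * M) with hE
  have hEinf : E ≤ levInf K Γ (p ^ n * M) := lev_le_levInf K Γ hNpos
  have hEFinf : E ≤ Finf := hEinf.trans hFinf
  have hKE : K ≤ E := le_lev K Γ _ _
  have hkinfF : kinf K ≤ Finf := (kinf_le_levInf K Γ _).trans hFinf
  have htorF : ∀ x : Qb, Tor x → x ∈ Finf := fun x hx => hkinfF (tor_mem_kinf K hx)
  have hEnorm : NormalOver K E := normal_lev K Γ hΓ _ _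
  have hEfd : FiniteDimensional ℚ E := finiteDimensional_lev K hKfd Γ hΓfg _ _ hNpos hRpos
  -- the local automorphism
  obtain ⟨σs, hσsfix, hσsprim, hσsgap⟩ := hB (n - cK - J) i n M M' (by omega) hni (by omega)
    (by omega) hM hM'
  have hσsK : Fix K σs := fix_mono (le_lev K Γ _ _) hσsfix
  have hmin : min n (n - cK - J - B) = n - cK - J - B := by omega
  rw [hmin] at hσsfix
  set E₀ := lev K Γ (p ^ (n - cK - J - 1) * M') (p ^ (n - cK - J - B) * M) with hE₀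
  have hKE₀ : K ≤ E₀ := le_lev K Γ _ _
  have hNE₀ : NormalOver K E₀ := normal_lev K Γ hΓ _ _
  have hE₀E : E₀ ≤ E := by
    apply lev_mono K Γ _ hRpos
    · exact Nat.mul_dvd_mul_right (pow_dvd_pow p (by omega)) M
    · exact Nat.mul_dvd_mul_right (pow_dvd_pow p (by omega)) M'
  have hσsroot : ∀ x : Qb, x ^ (p ^ (n - cK - J - 1)) = 1 → σs x = x := by
    intro x hx
    apply hσsfix
    apply root_mem_lev
    rw [pow_mul, hx, one_pow]
  have hσsM : ∀ x : Qb, x ^ M' = 1 → σs x = x := by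
    intro x hx
    apply hσsfix
    apply root_mem_lev
    rw [mul_comm, pow_mul, hx, one_pow]
  have hpowfix : ∀ (τ : Aut) (x : Qb) (j : ℕ), τ x = x → (τ ^ j) x = x := by
    intro τ x j hx
    induction j with
    | zero => rfl
    | succ j ih => rw [pow_succ, AlgEquiv.mul_apply, hx, ih]
  set σ₀ : Aut := σs ^ (p ^ J) with hσ₀def
  have hσ₀K : Fix K σ₀ := fix_pow hσsK _
  have hσ₀root : ∀ x : Qb, x ^ (p ^ (n - cK - 1)) = 1 → σ₀ x = x := by
    intro x hx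
    apply top_fix p hp σs (n - cK - J - 1) J (by omega) hσsroot x
    have e : n - cK - J - 1 + J = n - cK - 1 := by omega
    rw [e]
    exact hx
  have hσ₀prim : ∀ ζ : Qb, IsPrimitiveRoot ζ (p ^ (n - cK)) → σ₀ ζ ≠ ζ := by
    intro ζ hζ
    have e1 : n - cK - J - 1 + 1 = n - cK - J := by omega
    have e2 : n - cK - J - 1 + 1 + J = n - cK := by omega
    apply top_mov p hp σs (n - cK - J - 1) J (by omega) hσsroot
    · rw [e1]
      exact hσsprim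
    · rw [e2]
      exact hζ
  -- a power of `σs` is trivial on `E`
  set a : ℕ := J₀ + cK + J + 1 with ha
  set b : ℕ := cK + J + B with hb
  set σa : Aut := σs ^ (p ^ a) with hσa
  have hσaroot : ∀ x : Qb, x ^ (p ^ i) = 1 → σa x = x := by
    intro x hx
    apply top_fix p hp σs (n - cK - J - 1) a (by omega) hσsroot x
    obtain ⟨d, hd⟩ := Nat.exists_eq_add_of_le (by omega : i ≤ n - cK - J - 1 + a)
    rw [hd, pow_add, pow_mul, hx, one_pow]
  have hσsr : Fix E (σs ^ (p ^ (a + b))) := by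
    have e1 : σs ^ (p ^ (a + b)) = σa ^ (p ^ b) := by rw [hσa, ← pow_mul, ← pow_add]
    rw [e1]
    apply fix_lev2 K Γ p i M' (p ^ n * M) hp hM' (fix_pow (fix_pow hσsK _) _)
    · exact fun x hx => hpowfix _ x _ (hσaroot x hx)
    · exact fun x hx => hpowfix _ x _ (hpowfix _ x _ (hσsM x hx))
    · intro y hy
      have hy0 : y ≠ 0 := rad_ne_zero hRpos hy
      have hyE : y ^ (p ^ b) ∈ E₀ := by
        apply rad_mem_lev
        obtain ⟨x, hx, h⟩ := hy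
        refine ⟨x, hx, ?_⟩
        rw [← pow_mul, ← h]
        congr 1
        rw [← mul_assoc, ← pow_add]
        congr 2
        omega
      set ω := σa y / y with hω
      have hσy : σa y = ω * y := by rw [hω]; field_simp
      have hω1 : ω ^ (p ^ b) = 1 := by
        rw [hω, div_pow, ← map_pow, hpowfix _ _ _ (hσsfix _ hyE), div_self (pow_ne_zero _ hy0)]
      have hω2 : σa ω = ω := by
        apply hσaroot
        obtain ⟨d, hd⟩ := Nat.exists_eq_add_of_le (by omega : b ≤ i)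
        rw [hd, pow_add, pow_mul, hω1, one_pow]
      rw [pow_act σa y ω hσy hω2, hω1, one_mul]
  -- the representatives
  obtain ⟨S, hScard, hS⟩ := exists_reps K Γ p hp s g hgΓ hg (n - cK - J - 1) i
    (n - cK - J - B) n M M' (by omega) (by omega) hni hM hM'
  have hScard' : S.card ≤ p ^ (J₀ + cK + J + 1) * (p ^ (cK + J + B)) ^ s := by
    refine hScard.trans (Nat.mul_le_mul (Nat.pow_le_pow_right hp.pos (by omega)) ?_)
    apply Nat.pow_le_pow_left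
    exact Nat.pow_le_pow_right hp.pos (by omega)
  have horb : (orb E β).ncard ≤ D := by rwa [orb_eq_of_rigid hEFinf hrig]
  set L := levInf K Γ (p ^ (n - 1) * M) with hL
  have hKL : K ≤ L := le_levInf K Γ _
  have hNL : NormalOver K L := normal_levInf K Γ hΓ _
  have hLF : L ≤ Finf := by
    refine (levInf_mono K Γ hRpos ?_).trans hFinf
    exact Nat.mul_dvd_mul_right (pow_dvd_pow p (by omega)) M
  have hKIn : ∀ w : Aut, Fix L w → ∃ τ : Aut, Fix (kinf K) τ ∧ ∀ y : Qb,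
      (∃ g ∈ Γ, y ^ (p ^ n * M) = (g : Qb)) →
        (τ y / y) ^ (p ^ n) = 1 ∧ (τ y / y) ^ (p ^ (n - 1 - cK)) = w y / y :=
    fun w hw => hcK n M (by omega) hM w hw
  obtain ⟨-, hWact⟩ := hgl K E₀ E σs β S {w | Fix L w} (a + b) hKfd le_rfl hEfd hKE₀ hE₀E hNE₀
    hEnorm hσsfix hσsr hσsgap hScard' hS (fun w hw => fix_mono hKL hw)
    (fun w hw τ hτ => fix_conj hNL hτ hw)
    (fun w hw => conj_exists p K Γ hΓ cK n M (p ^ i * M') (by omega) hMpos hNpos hKIn σ₀ hσ₀K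
      hσ₀root hσ₀prim w hw) hβ horb (torRigid_of htr hrig) hht
  -- `w` acts on `β` by a root of unity, up to an automorphism over `Finf`
  have hact : ∀ w : Aut, Fix L w → ∃ ζ : Qb, Tor ζ ∧ ∃ ρ : Aut, Fix Finf ρ ∧ w β = ζ * ρ β := by
    intro w hw
    obtain ⟨ρ₁, hρ₁, h1⟩ := hWact w hw
    obtain ⟨ρ, hρ, h2⟩ := hrig ρ₁ hρ₁
    have hρβ : ρ β ≠ 0 := (map_ne_zero ρ).mpr hβ
    refine ⟨w β / ρ β, ⟨p ^ k, pow_pos hp.pos k, ?_⟩, ρ, hρ, by field_simp⟩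
    rw [div_pow, ← map_pow, h1, map_pow, h2, div_self (pow_ne_zero _ hρβ)]
  -- the multiplier is unique
  have huniq : ∀ (ζ₁ ζ₂ : Qb) (ρ₁ ρ₂ : Aut), Tor ζ₁ → Tor ζ₂ → Fix Finf ρ₁ → Fix Finf ρ₂ →
      ζ₁ * ρ₁ β = ζ₂ * ρ₂ β → ζ₁ = ζ₂ := by
    intro ζ₁ ζ₂ ρ₁ ρ₂ hζ₁ hζ₂ hρ₁ hρ₂ h
    have h1 : ρ₁ β = (ζ₂ / ζ₁) * ρ₂ β := by
      have := hζ₁.ne_zero
      field_simp
      rw [mul_comm]
      exact h
    have hζ : Tor (ζ₂ / ζ₁) := hζ₂.div hζ₁
    have h2 : (ρ₂⁻¹ * ρ₁) β = (ζ₂ / ζ₁) * β := by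
      rw [AlgEquiv.mul_apply, h1, map_mul, inv_apply_self, fix_inv hρ₂ _ (htorF _ hζ)]
    have h3 : (ρ₂⁻¹ * ρ₁) β = β := by
      apply htr _ (fix_mul (fix_inv hρ₂) hρ₁)
      rw [h2, mul_div_assoc, div_self hβ, mul_one]
      exact hζ
    rw [h3] at h2
    have h4 : ζ₂ / ζ₁ = 1 := by
      have h5 : ζ₂ / ζ₁ * β = 1 * β := by rw [← h2, one_mul]
      exact mul_right_cancel₀ hβ h5
    exact ((div_eq_one_iff_eq hζ₁.ne_zero).mp h4).symm
  choose! ζf hζf hζρ using hact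
  choose! ρf hρf hwβ using hζρ
  -- multiplicativity
  have hmul : ∀ τ τ' : Aut, Fix L τ → Fix L τ' → ζf (τ * τ') = ζf τ * ζf τ' := by
    intro τ τ' hτ hτ'
    have h1 := hwβ (τ * τ') (fix_mul hτ hτ')
    have h2 : (τ * τ') β = (ζf τ * ζf τ') * ((τ * ρf τ' * τ⁻¹) * ρf τ) β := by
      have hc1 : Fix Finf (τ * ρf τ' * τ⁻¹) :=
        fix_conj hnorm (fix_mono hKL hτ) (hρf τ' hτ')
      have e0 : (τ * τ') β = τ (τ' β) := rfl
      rw [e0, hwβ τ' hτ', map_mul, hτ _ (tor_mem_levInf K Γ (hζf τ' hτ'))]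
      have h3 : τ (ρf τ' β) = (τ * ρf τ' * τ⁻¹) (τ β) := by
        rw [AlgEquiv.mul_apply, inv_apply_self, AlgEquiv.mul_apply]
      rw [h3, hwβ τ hτ, map_mul, hc1 _ (htorF _ (hζf τ hτ))]
      show ζf τ' * (ζf τ * (τ * ρf τ' * τ⁻¹) (ρf τ β)) =
        ζf τ * ζf τ' * (τ * ρf τ' * τ⁻¹) (ρf τ β)
      ring
    rw [h1] at h2
    exact huniq _ _ _ _ (hζf _ (fix_mul hτ hτ')) ((hζf τ hτ).mul (hζf τ' hτ'))
      (hρf _ (fix_mul hτ hτ')) (fix_mul (fix_conj hnorm (fix_mono hKL hτ) (hρf τ' hτ')) (hρf τ hτ))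
      h2
  have htriv : ∀ τ : Aut, Fix L τ → Fix E τ → ζf τ = 1 := by
    intro τ hτ hτE
    obtain ⟨ρ, hρ, h⟩ := hrig τ hτE
    have h1 := hwβ τ hτ
    rw [h] at h1
    have h2 : (1 : Qb) * ρ β = ζf τ * ρf τ β := by rw [one_mul]; exact h1
    exact (huniq 1 (ζf τ) ρ (ρf τ) tor_one (hζf τ hτ) hρ (hρf τ hτ) h2).symm
  have hone : ζf 1 = 1 := htriv 1 (fix_one L) (fix_one E)
  have hpowmul : ∀ (τ : Aut), Fix L τ → ∀ j : ℕ, ζf (τ ^ j) = ζf τ ^ j := by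
    intro τ hτ j
    induction j with
    | zero => rw [pow_zero, pow_zero, hone]
    | succ j ih => rw [pow_succ, pow_succ, hmul _ _ (fix_pow hτ j) hτ, ih]
  have hyp : ∀ y : Qb, (∃ g ∈ Γ, y ^ (p ^ n * M) = (g : Qb)) → y ^ p ∈ L := by
    rintro y ⟨x, hx, h⟩
    apply rad_mem_levInf
    refine ⟨x, hx, ?_⟩
    rw [← pow_mul, ← h]
    congr 1
    rw [← mul_assoc, ← pow_succ']
    congr 2
    omega
  have hord : ∀ τ : Aut, Fix L τ → ζf τ ^ p = 1 := by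
    intro τ hτ
    rw [← hpowmul τ hτ p]
    apply htriv _ (fix_pow hτ p)
    apply fix_lev_of hNpos (fix_pow hτ p)
    intro y hy
    have hy0 : y ≠ 0 := rad_ne_zero hRpos hy
    have hωp : (τ y / y) ^ p = 1 := by
      rw [div_pow, ← map_pow, hτ _ (hyp y hy), div_self (pow_ne_zero _ hy0)]
    set ω := τ y / y with hω
    have hωtor : Tor ω := ⟨p, hp.pos, hωp⟩
    have hτy : τ y = ω * y := by rw [hω]; field_simp
    have hpow : ∀ j : ℕ, (τ ^ j) y = ω ^ j * y := by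
      intro j
      induction j with
      | zero => simp
      | succ j ih =>
        rw [pow_succ', AlgEquiv.mul_apply, ih, map_mul, map_pow,
          hτ ω (tor_mem_levInf K Γ hωtor), hτy]
        ring
    rw [hpow, hωp, one_mul]
  -- Kummer duality
  obtain ⟨z, hz, hzy⟩ := exists_roots Γ s g hg (p ^ n * M) hRpos
  have hzrad : ∀ j, ∃ x ∈ Γ, (z j : Qb) ^ (p ^ n * M) = (x : Qb) := fun j =>
    ⟨g j, hgΓ j, by rw [← Units.val_pow_eq_pow_val, hz]⟩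
  have hfin : ∃ T : Finset Qbˣ, ∀ y ∈ radS Γ (p ^ n * M), ∃ t ∈ T, ((y / t : Qbˣ) : Qb) ∈ L := by
    refine ⟨Finset.univ.image fun r : Fin s → Fin p => ∏ j, z j ^ (r j : ℕ), ?_⟩
    intro y hy
    rw [radS_iff] at hy
    obtain ⟨e, ζ, hζ, hy'⟩ := hzy y hy
    have hppos : (0 : ℤ) < p := by exact_mod_cast hp.pos
    have hr : ∀ j, ((e j % p).toNat : ℤ) = e j % p := fun j =>
      Int.toNat_of_nonneg (Int.emod_nonneg _ hppos.ne')
    have hrlt : ∀ j, (e j % p).toNat < p := by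
      intro j
      have := Int.emod_lt_of_pos (e j) hppos
      have h2 := hr j
      omega
    refine ⟨∏ j, z j ^ (e j % p).toNat, Finset.mem_image.mpr
      ⟨fun j => ⟨(e j % p).toNat, hrlt j⟩, Finset.mem_univ _, rfl⟩, ?_⟩
    have h1 : ((y / ∏ j, z j ^ (e j % p).toNat : Qbˣ) : Qb) =
        ζ * ∏ j, ((z j : Qb) ^ p) ^ (e j / p) := by
      rw [Units.val_div_eq_div_val, hy', mul_div_assoc, Units.coe_prod, Units.coe_prod,
        ← Finset.prod_div_distrib]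
      congr 1
      apply Finset.prod_congr rfl
      intro j _
      rw [Units.val_zpow_eq_zpow_val, Units.val_pow_eq_pow_val, ← zpow_natCast (z j : Qb) p,
        ← zpow_natCast (z j : Qb) (e j % p).toNat, ← zpow_mul, hr j, ← zpow_sub₀ (Units.ne_zero _)]
      congr 1
      have := Int.emod_add_mul_ediv (e j) p
      linarith
    rw [h1]
    refine mul_mem (tor_mem_levInf K Γ ⟨_, hRpos, hζ⟩) (prod_mem fun j _ => ?_)
    exact zpow_mem (hyp _ (hzrad j)) _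
  obtain ⟨γ, hγS, hγ⟩ := hKDB L p (radS Γ (p ^ n * M)) hp.pos
    (fun x hx => tor_mem_levInf K Γ ⟨p, hp.pos, hx⟩)
    (fun y hy => hyp _ ((radS_iff y).mp hy)) hfin ζf hmul hord
    (fun τ hτ h => htriv τ hτ (fix_lev_of hNpos hτ fun y hy => by
      have hy0 : y ≠ 0 := rad_ne_zero hRpos hy
      exact h (Units.mk0 y hy0) ((radS_iff _).mpr hy)))
  have hγrad := (radS_iff γ).mp hγS
  have hγF : (γ : Qb) ∈ Finf := hFinf (rad_mem_levInf K Γ hγrad)
  refine ⟨γ, hγrad, ?_⟩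
  intro w hw
  refine ⟨ρf w, hρf w hw, ?_⟩
  have hγ0 : (γ : Qb) ≠ 0 := Units.ne_zero γ
  have hζ0 := (hζf w hw).ne_zero
  rw [map_div₀, map_div₀, hγ w hw, hρf w hw _ hγF, hwβ w hw]
  field_simp

end Pool.Agent.H54.RX
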