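import Mathlib
import Pool.Agent.H54.RX.F6
import Pool.Agent.H54.RX.F9
import Pool.Agent.H54.G.W402.RK.BOG

set_option autoImplicit false
set_option linter.unusedVariables false

/-!
# The lower bound relative to the maximal cyclotomic extension
-/

namespace Pool.Agent.H54.RX

open Polynomial IntermediateField
open Pool.Agent.H58P (Qb ht)
open Pool.Agent.W237.RK
open Pool.Agent.W402.RK (bot_mem fg_bot root_mul_mem comm_lev iterate_CS)

/-! ### the constants -/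

lemma lowr_pos {c ε : ℝ} (hc : 0 < c) {D : ℕ} (hD : 0 < D) : 0 < lowr c ε D := by
  unfold lowr
  positivity

lemma lowr_mono {c c' ε : ℝ} (h : c ≤ c') (D : ℕ) : lowr c ε D ≤ lowr c' ε D := by
  unfold lowr
  gcongr

lemma lowr_split {c ε : ℝ} (hc : 0 ≤ c) (hε : 0 ≤ ε) {e D₁ D : ℕ} (he : 0 < e) (hD₁ : 0 < D₁)
    (h : e * D₁ ≤ D) : e * lowr c ε D ≤ lowr c ε D₁ := by
  unfold lowr
  have he' : (0 : ℝ) < e := by exact_mod_cast he
  have hD1' : (0 : ℝ) < D₁ := by exact_mod_cast hD₁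
  have h' : (e : ℝ) * D₁ ≤ D := by exact_mod_cast h
  have hD : (0 : ℝ) < D := lt_of_lt_of_le (by positivity) h'
  have hle : (D₁ : ℝ) ≤ D := by
    have h1 : (1 : ℝ) ≤ e := by exact_mod_cast he
    nlinarith
  have e1 : (D : ℝ) ^ (1 + ε) = D * (D : ℝ) ^ ε := by rw [Real.rpow_add hD, Real.rpow_one]
  have e2 : (D₁ : ℝ) ^ (1 + ε) = D₁ * (D₁ : ℝ) ^ ε := by rw [Real.rpow_add hD1', Real.rpow_one]
  have h2 : (D₁ : ℝ) ^ ε ≤ (D : ℝ) ^ ε := Real.rpow_le_rpow hD1'.le hle hε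
  have h3 : (0 : ℝ) < (D₁ : ℝ) ^ ε := by positivity
  have h4 : (0 : ℝ) < (D : ℝ) ^ ε := by positivity
  rw [e1, e2, ← mul_div_assoc, div_le_div_iff₀ (by positivity) (by positivity)]
  calc (e : ℝ) * c * (D₁ * (D₁ : ℝ) ^ ε) = c * ((e * D₁) * (D₁ : ℝ) ^ ε) := by ring
    _ ≤ c * (D * (D : ℝ) ^ ε) := by gcongr

/-- a power which is torsion-rigid, with the right number of conjugates -/
lemma torRigid_split {Finf : GF} (h : ∀ x : Qb, Tor x → x ∈ Finf) {α : Qb} (hα : α ≠ 0) :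
    ∃ e : ℕ, 0 < e ∧ TorRigid Finf (α ^ e) ∧
      e * (orb Finf (α ^ e)).ncard ≤ (orb Finf α).ncard := by
  classical
  let G : Subgroup Qbˣ :=
    { carrier := {η | Tor (η : Qb) ∧ ∃ ρ : Aut, Fix Finf ρ ∧ ρ α = (η : Qb) * α}
      mul_mem' := by
        rintro η η' ⟨h1, ρ, hρ, h2⟩ ⟨h1', ρ', hρ', h2'⟩
        refine ⟨by rw [Units.val_mul]; exact h1.mul h1', ρ * ρ', fix_mul hρ hρ', ?_⟩
        rw [AlgEquiv.mul_apply, h2', map_mul, hρ _ (h _ h1'), h2, Units.val_mul]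
        ring
      one_mem' := ⟨by rw [Units.val_one]; exact tor_one, 1, fix_one _, by simp⟩
      inv_mem' := by
        rintro η ⟨h1, ρ, hρ, h2⟩
        refine ⟨by rw [Units.val_inv_eq_inv_val]; exact h1.inv, ρ⁻¹, fix_inv hρ, ?_⟩
        have h3 : ρ⁻¹ (ρ α) = α := inv_apply_self ρ α
        rw [h2, map_mul, fix_inv hρ _ (h _ h1)] at h3
        rw [Units.val_inv_eq_inv_val, eq_inv_mul_iff_mul_eq₀ (Units.ne_zero η)]
        exact h3 }
  have hinj : Set.InjOn (fun η : Qbˣ => (η : Qb) * α) (G : Set Qbˣ) := by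
    intro x _ y _ hxy
    exact Units.ext (mul_right_cancel₀ hα hxy)
  have hsub : (fun η : Qbˣ => (η : Qb) * α) '' (G : Set Qbˣ) ⊆ orb Finf α := by
    rintro _ ⟨η, ⟨_, ρ, hρ, h2⟩, rfl⟩
    exact ⟨ρ, hρ, h2⟩
  have hfin : (G : Set Qbˣ).Finite :=
    Set.Finite.of_finite_image ((orb_finite Finf α).subset hsub) hinj
  have hG : Finite G := hfin
  have hpow : ∀ η ∈ G, (η : Qb) ^ Nat.card G = 1 := by
    intro η hηG
    have h1 : (⟨η, hηG⟩ : G) ^ Nat.card G = 1 := pow_card_eq_one'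
    have h3 : η ^ Nat.card G = 1 := congrArg Subtype.val h1
    have h4 : ((η ^ Nat.card G : Qbˣ) : Qb) = ((1 : Qbˣ) : Qb) := congrArg Units.val h3
    rw [Units.val_pow_eq_pow_val, Units.val_one] at h4
    exact h4
  refine ⟨Nat.card G, Nat.card_pos, ?_, ?_⟩
  · intro ρ hρ ht
    have hη : Tor (ρ α / α) := by
      rw [map_pow, ← div_pow] at ht
      exact Tor.of_pow Nat.card_pos ht
    have hη0 : ρ α / α ≠ 0 := hη.ne_zero
    set η : Qbˣ := Units.mk0 (ρ α / α) hη0 with hηdef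
    have hηG : η ∈ G := by
      refine ⟨hη, ρ, hρ, ?_⟩
      show ρ α = (ρ α / α) * α
      field_simp
    have h2 : (ρ α / α) ^ Nat.card G = 1 := hpow η hηG
    rw [map_pow]
    rw [div_pow, div_eq_one_iff_eq (pow_ne_zero _ hα)] at h2
    exact h2
  · -- the injection
    choose! r hr using fun (y : Qb) (hy : y ∈ orb Finf (α ^ Nat.card G)) => hy
    let f : G × (orb Finf (α ^ Nat.card G)) → orb Finf α := fun q =>
      ⟨(q.1 : Qbˣ) * r q.2 α, by
        obtain ⟨h1, ρ, hρ, h2⟩ := q.1.2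
        refine ⟨r q.2 * ρ, fix_mul (hr _ q.2.2).1 hρ, ?_⟩
        rw [AlgEquiv.mul_apply, h2, map_mul, (hr _ q.2.2).1 _ (h _ h1)]⟩
    have hf : Function.Injective f := by
      rintro ⟨η, y⟩ ⟨η', y'⟩ heq
      have h1 : ((η : Qbˣ) : Qb) * r y α = ((η' : Qbˣ) : Qb) * r y' α := congrArg Subtype.val heq
      have h2 : ∀ (η : G) (y : orb Finf (α ^ Nat.card G)),
          (((η : Qbˣ) : Qb) * r y α) ^ Nat.card G = y := by
        intro η y
        rw [mul_pow, hpow _ η.2, one_mul, ← map_pow]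
        exact (hr _ y.2).2
      have h3 : y = y' := by
        apply Subtype.ext
        rw [← h2 η y, ← h2 η' y', h1]
      subst h3
      have h4 : r y α ≠ 0 := (map_ne_zero (r y)).mpr hα
      have h5 := mul_right_cancel₀ h4 h1
      have h6 : η = η' := Subtype.ext (Units.ext h5)
      rw [h6]
    have hfin1 : Finite (orb Finf α) := orb_finite Finf α
    have hc := Nat.card_le_card_of_injective f hf
    rw [Nat.card_prod] at hc
    exact hc

/-- the lower bound relative to `K(μ_∞)` -/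
def S_BOG3 : Prop := ∀ K : GF, FiniteDimensional ℚ K → ∀ ε : ℝ, 0 < ε → ∃ c : ℝ, 0 < c ∧
  ∀ D : ℕ, 0 < D → ∀ y : Qb, y ≠ 0 → (orb (kinf K) y).ncard ≤ D → ¬ Tor y → lowr c ε D ≤ ht y

theorem bog3 (hCS : S_CS3) (hFROB : S_FROB) (hGLF : S_GLF3) : S_BOG3 := by
  intro K hK ε hε
  have : Fact (Nat.Prime 3) := ⟨Nat.prime_three⟩
  let φ : Qb →+* PadicAlgCl 3 :=
    (IsAlgClosed.lift (R := ℚ) (M := PadicAlgCl 3) (S := Qb) : Qb →ₐ[ℚ] PadicAlgCl 3).toRingHom
  obtain ⟨B, C₁, hC₁, h1'⟩ := hCS 3 φ K ⊥ ε hε hK fg_bot (bot_mem K)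
  set K' := lev K ⊥ (3 ^ B) 1 with hK'
  have hK'fd : FiniteDimensional ℚ K' :=
    finiteDimensional_lev K hK ⊥ fg_bot (3 ^ B) 1 (by positivity) one_pos
  obtain ⟨n₁, h2⟩ := hFROB 3 φ K' hK'fd
  obtain ⟨C₂, hC₂, h3'⟩ := hGLF 3 φ (Module.finrank ℚ K') n₁ ε hε
  set C₀ : ℝ := min C₁ C₂ with hC₀
  have hC₀pos : 0 < C₀ := lt_min hC₁ hC₂
  refine ⟨C₀ / 2, by positivity, fun D hD0 => ?_⟩
  intro y hy0 hyD hyT
  by_contra hlt
  push Not at hlt
  apply hyT
  obtain ⟨e, he0, heT, heD⟩ := torRigid_split (Finf := kinf K) (fun x hx => tor_mem_kinf K hx)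
    hy0
  set y₁ := y ^ e with hy₁
  have hy₁0 : y₁ ≠ 0 := pow_ne_zero _ hy0
  set Finf := kinf K with hFinf
  set D₁ : ℕ := (orb Finf y₁).ncard with hD₁def
  have hD₁pos : 0 < D₁ := orb_ncard_pos Finf y₁
  have h1 := h1' D₁ hD₁pos
  have h3 := h3' D₁ hD₁pos
  set c₀ : ℝ := lowr C₀ ε D₁ with hc₀
  set c₁ : ℝ := lowr C₁ ε D₁ with hc₁
  set c₂ : ℝ := lowr C₂ ε D₁ with hc₂
  have hc₀1 : c₀ ≤ c₁ := lowr_mono (min_le_left _ _) D₁
  have hc₀2 : c₀ ≤ c₂ := lowr_mono (min_le_right _ _) D₁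
  have hhty₁ : 2 * ht y₁ < c₀ := by
    rw [hy₁, Pool.Agent.H58B.ht_pow]
    have h5 := lowr_split hC₀pos.le hε.le he0 hD₁pos (heD.trans hyD)
    have h6 : lowr (C₀ / 2) ε D = lowr C₀ ε D / 2 := by
      unfold lowr
      ring
    rw [h6] at hlt
    have he1 : (0 : ℝ) < e := by exact_mod_cast he0
    have h7 : (e : ℝ) * ht y < e * (lowr C₀ ε D / 2) := mul_lt_mul_of_pos_left hlt he1
    linarith
  have hhty₁0 : 0 ≤ ht y₁ := Pool.Agent.H58R.ht_nonneg y₁
  have hD₁ : (orb Finf y₁).ncard ≤ D₁ := le_rfl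
  have hT₁ : TorRigid Finf y₁ := heT
  -- rigidity at a finite level
  have hlevInf : levInf K ⊥ 1 = Finf := by
    apply le_antisymm
    · apply levInf_le (le_kinf K) (fun x hx => tor_mem_kinf K hx)
      rintro z ⟨g, hg, hz⟩
      rw [Subgroup.mem_bot] at hg
      rw [hg, Units.val_one, pow_one] at hz
      rw [hz]
      exact one_mem _
    · exact kinf_le_levInf K ⊥ 1
  have hR₀ : Rigid Finf (levInf K ⊥ 1) y₁ := by
    rw [hlevInf]
    exact fun κ hκ => ⟨κ, hκ, rfl⟩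
  obtain ⟨N, hN, hRN⟩ := exists_rigid_lev Finf K ⊥ 1 y₁ hR₀
  obtain ⟨j, M', hM', hNj⟩ := Nat.exists_eq_pow_mul_and_not_dvd hN.ne' 3 (by norm_num)
  have hRj : Rigid Finf (lev K ⊥ (3 ^ (B + j) * M') 1) y₁ := by
    apply rigid_mono _ hRN
    apply lev_mono K ⊥ _ one_pos (dvd_refl 1)
    rw [hNj, pow_add, mul_assoc]
    exact Dvd.intro_left _ rfl
  have hM'0 : 0 < M' := by
    rcases Nat.eq_zero_or_pos M' with h | h
    · exact absurd (h ▸ dvd_zero 3) hM'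
    · exact h
  -- the levels are inside `Finf`
  have hle : ∀ N : ℕ, 0 < N → lev K ⊥ N 1 ≤ Finf := by
    intro N hN
    rw [← hlevInf]
    exact lev_le_levInf K ⊥ hN
  obtain ⟨γ, hγ, hRγ⟩ := iterate_CS 3 K Finf D₁ B c₁ M' le_rfl
    (by
      intro i β hi hβ0 hβD hβT hβR hβh
      have := h1 Finf i 0 1 M' β (by omega) (by norm_num) hM' le_rfl
        (by
          rw [pow_zero, one_mul]
          exact hle _ (by positivity)) (normal_kinf K) hβ0 hβD hβT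
        (by rw [pow_zero, one_mul]; exact hβR) hβh
      rw [pow_zero, one_mul] at this
      exact this)
    j y₁ hy₁0 hD₁ hT₁ hRj
    (by
      intro σ hσ
      have a1 : ht (σ y₁ / y₁) ≤ ht (σ y₁) + ht y₁⁻¹ := by
        rw [div_eq_mul_inv]
        exact Pool.Agent.H58R.ht_mul_le _ _
      rw [Pool.Agent.H58R.ht_inv _ hy₁0, Pool.Agent.H58B.ht_conj] at a1
      linarith)
  have hγ0 := hγ.ne_zero
  have hγm : γ ∈ Finf := tor_mem_kinf K hγ
  set β := y₁ / γ with hβ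
  have hβ0 : β ≠ 0 := div_ne_zero hy₁0 hγ0
  obtain ⟨M'', σ, a, hM'', hdvd, hσ, ha0, ha1, hσζ, hσx⟩ := h2 M' hM'
  have hM''0 : 0 < M'' := by
    rcases Nat.eq_zero_or_pos M'' with h | h
    · exact absurd (h ▸ dvd_zero 3) hM''
    · exact h
  set E := lev K' ⊥ M'' 1 with hE
  have hKK' : K ≤ K' := le_lev K ⊥ _ _
  have hEfin : E ≤ Finf := by
    apply lev_le
    · exact hle _ (by positivity)
    · intro x hx
      exact tor_mem_kinf K ⟨M'', hM''0, hx⟩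
    · rintro z ⟨g, hg, hz⟩
      rw [Subgroup.mem_bot] at hg
      rw [hg, Units.val_one, pow_one] at hz
      rw [hz]
      exact one_mem _
  have hlevE : lev K ⊥ (3 ^ B * M') 1 ≤ E := by
    apply lev_le
    · exact hKK'.trans (le_lev K' ⊥ _ _)
    · intro x hx
      apply root_mul_mem (a := 3 ^ B) (b := M') _ _ _ x hx
      · exact Nat.Coprime.pow_left B ((Nat.Prime.coprime_iff_not_dvd Nat.prime_three).mpr hM')
      · intro x hx
        exact le_lev K' ⊥ _ _ (root_mem_lev K ⊥ hx)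
      · intro x hx
        apply root_mem_lev
        obtain ⟨k, rfl⟩ := hdvd
        rw [pow_mul, hx, one_pow]
    · rintro z ⟨g, hg, hz⟩
      rw [Subgroup.mem_bot] at hg
      rw [hg, Units.val_one, pow_one] at hz
      rw [hz]
      exact one_mem _
  have hRE : Rigid Finf E β := rigid_mono hlevE hRγ
  have horb : orb E β = orb Finf β := orb_eq_of_rigid hEfin hRE
  have hβD : (orb E β).ncard ≤ D₁ := by
    rw [horb, hβ, orb_div_ncard hγ0 hγm]
  have hβht : ht β ≤ c₂ := by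
    have : β = γ⁻¹ * y₁ := by rw [hβ, div_eq_mul_inv, mul_comm]
    rw [this, ht_tor_mul hγ.inv]
    linarith
  have hEfd : FiniteDimensional ℚ E :=
    finiteDimensional_lev K' hK'fd ⊥ fg_bot M'' 1 hM''0 one_pos
  have hfinal : Tor β := h3 K' E σ a β hK'fd le_rfl hEfd (le_lev K' ⊥ _ _)
    (normal_lev K' ⊥ (bot_mem K') M'' 1) hσ
    (fun τ hτ => comm_lev K' M'' σ τ hσ hτ (3 ^ a) hσζ) ha0 ha1 hσx hβ0 hβD
    (torRigid_of (torRigid_div hT₁ hγ0 hγm) hRE) hβht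
  have hy₁T : Tor y₁ := by
    have : y₁ = β * γ := by rw [hβ, div_mul_cancel₀ _ hγ0]
    rw [this]
    exact hfinal.mul hγ
  exact Tor.of_pow he0 hy₁T

end Pool.Agent.H54.RX
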