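import Mathlib
import Pool.Agent.H54.RX.F10
import Pool.Agent.H54.G.TH53.RP8

set_option autoImplicit false
set_option linter.unusedVariables false

/-!
# The main theorem
-/

namespace Pool.Agent.H54.RX

open Polynomial IntermediateField
open Pool.Agent.W237.RK
open Pool.Agent.H58P (Qb ht)
open Pool.Agent.H58B (ht_pow)
open Pool.Agent.H58R (ht_nonneg ht_mul_le ht_inv ht_zpow ht_prod_le)
open Pool.Agent.TH53.RP (box_step2)

/-- one step of the descent -/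
theorem descend3 (hCS : S_CS3) (hKS : S_KS3) (p : ℕ) (hp : p.Prime) (K : GF) (Γ : Subgroup Qbˣ)
    (ε : ℝ) (hε : 0 < ε)
    (hKfd : FiniteDimensional ℚ K) (hΓfg : Γ.FG) (hΓ : ∀ g ∈ Γ, (g : Qb) ∈ K) :
    ∃ (n₀ : ℕ) (c : ℝ), 0 < c ∧ 0 < n₀ ∧ ∀ D : ℕ, 0 < D → ∀ (Finf : GF) (n M : ℕ) (β : Qb),
      n₀ ≤ n →
      ¬ p ∣ M → levInf K Γ (p ^ n * M) ≤ Finf → NormalOver K Finf → Good K Finf D (lowr c ε D) β →
      Rigid Finf (levInf K Γ (p ^ n * M)) β →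
      ∃ γ : Qb, γ ≠ 0 ∧ DivG Γ γ ∧ γ ∈ Finf ∧
        Rigid Finf (levInf K Γ (p ^ (n - 1) * M)) (β / γ) := by
  have : Fact p.Prime := ⟨hp⟩
  have hex : Nonempty (Qb →+* PadicAlgCl p) := by
    have : CharZero (PadicAlgCl p) := inferInstance
    let _ : Algebra ℚ (PadicAlgCl p) := DivisionRing.toRatAlgebra
    exact ⟨((IsAlgClosed.lift : Qb →ₐ[ℚ] PadicAlgCl p) : Qb →+* PadicAlgCl p)⟩
  obtain ⟨φ⟩ := hex
  obtain ⟨B, A₁, hA₁, hB'⟩ := hCS p φ K Γ ε hε hKfd hΓfg hΓ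
  obtain ⟨n₀, A₂, hA₂, hn₀'⟩ := hKS p φ K Γ ε hε hKfd hΓfg hΓ B
  refine ⟨n₀ + 1, min A₁ A₂, lt_min hA₁ hA₂, Nat.succ_pos _, fun D hD0 => ?_⟩
  have hB := hB' D hD0
  have hn₀ := hn₀' D hD0
  have hc₁ : lowr (min A₁ A₂) ε D ≤ lowr A₁ ε D := lowr_mono (min_le_left _ _) D
  have hc₂ : lowr (min A₁ A₂) ε D ≤ lowr A₂ ε D := lowr_mono (min_le_right _ _) D
  intro Finf n M β hn hM hF hnorm hgood hrig
  have hMpos : 0 < M := Nat.pos_of_ne_zero (by rintro rfl; exact hM (dvd_zero p))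
  have hRpos : 0 < p ^ n * M := Nat.mul_pos (pow_pos hp.pos n) hMpos
  have hkinf : kinf K ≤ Finf := (kinf_le_levInf K Γ _).trans hF
  obtain ⟨N, hN, hrigN⟩ := exists_rigid_lev Finf K Γ (p ^ n * M) β hrig
  obtain ⟨v, M', hM', hNv⟩ := Nat.exists_eq_pow_mul_and_not_dvd hN.ne' p hp.ne_one
  have hM'pos : 0 < M' := Nat.pos_of_ne_zero (by rintro rfl; exact hM' (dvd_zero p))
  -- rigid at a high level
  have hhigh : Rigid Finf (lev K Γ (p ^ (n + B + v) * M') (p ^ n * M)) β := by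
    refine rigid_mono (lev_mono K Γ ?_ hRpos dvd_rfl) hrigN
    rw [hNv]
    exact Nat.mul_dvd_mul_right (pow_dvd_pow p (by omega)) M'
  have hlevF : ∀ i, lev K Γ (p ^ i * M') (p ^ n * M) ≤ Finf := fun i =>
    (lev_le_levInf K Γ (Nat.mul_pos (pow_pos hp.pos i) hM'pos)).trans hF
  -- cyclotomic descent
  have hdown : ∀ j, j ≤ v → ∃ γ : Qb, Tor γ ∧
      Rigid Finf (lev K Γ (p ^ (n + B + (v - j)) * M') (p ^ n * M)) (β / γ) := by
    intro j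
    induction j with
    | zero =>
      intro _
      exact ⟨1, tor_one, by rw [div_one, Nat.sub_zero]; exact hhigh⟩
    | succ j ih =>
      intro hj
      obtain ⟨γ, hγ, hr⟩ := ih (by omega)
      have hg : Good K Finf D (lowr (min A₁ A₂) ε D) (β / γ) :=
        hgood.div hΓ hγ.ne_zero (hkinf (tor_mem_kinf K hγ)) (divG_tor Γ hγ)
      obtain ⟨γ', hγ', hr'⟩ := hB Finf (n + B + (v - j)) n M M' (β / γ) (by omega) hM hM' hkinf
        (hlevF _) hnorm hg.ne hg.orb hg.tor hr (fun σ hσ => (hg.ht σ hσ).trans hc₁)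
      refine ⟨γ * γ', hγ.mul hγ', ?_⟩
      rw [← div_div]
      have e : n + B + (v - j) - 1 = n + B + (v - (j + 1)) := by omega
      rw [e] at hr'
      exact hr'
  obtain ⟨γ, hγ, hr⟩ := hdown v le_rfl
  rw [Nat.sub_self, Nat.add_zero] at hr
  have hγF : γ ∈ Finf := hkinf (tor_mem_kinf K hγ)
  have hg : Good K Finf D (lowr (min A₁ A₂) ε D) (β / γ) := hgood.div hΓ hγ.ne_zero hγF (divG_tor Γ hγ)
  obtain ⟨γ', hγ', hr'⟩ := hn₀ Finf (n + B) n M M' (β / γ) (by omega) (by omega) le_rfl hM hM' hF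
    hnorm hg.ne hg.orb hg.tor hr (fun σ hσ => (hg.ht σ hσ).trans hc₂)
  have hγ'F : γ' ∈ Finf := hF (rad_mem_levInf K Γ hγ')
  have hγ'0 : γ' ≠ 0 := by
    obtain ⟨g, -, h⟩ := hγ'
    rintro rfl
    rw [zero_pow hRpos.ne'] at h
    exact g.ne_zero h.symm
  refine ⟨γ * γ', mul_ne_zero hγ.ne_zero hγ'0, (divG_tor Γ hγ).mul ⟨_, hRpos, hγ'⟩,
    mul_mem hγF hγ'F, ?_⟩
  rw [← div_div]
  exact hr'

lemma divG_pow {Γ : Subgroup Qbˣ} {x : Qb} (h : DivG Γ x) (e : ℕ) : DivG Γ (x ^ e) := by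
  obtain ⟨n, hn, g, hg, h⟩ := h
  refine ⟨n, hn, g ^ e, pow_mem hg e, ?_⟩
  rw [← pow_mul, mul_comm, pow_mul, h, Units.val_pow_eq_pow_val]

lemma divG_inv {Γ : Subgroup Qbˣ} {x : Qb} (h : DivG Γ x) : DivG Γ x⁻¹ := by
  obtain ⟨n, hn, g, hg, h⟩ := h
  exact ⟨n, hn, g⁻¹, inv_mem hg, by rw [inv_pow, h, Units.val_inv_eq_inv_val]⟩

lemma orb_conj_ncard {K F : GF} (hN : NormalOver K F) {σ : Aut} (hσ : Fix K σ) (x : Qb) :
    (orb F (σ x)).ncard ≤ (orb F x).ncard := by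
  have hsub : orb F (σ x) ⊆ (fun y => σ y) '' orb F x := by
    rintro _ ⟨ρ, hρ, rfl⟩
    refine ⟨(σ⁻¹ * ρ * σ) x, ⟨σ⁻¹ * ρ * σ, fix_conj' hN hσ hρ, rfl⟩, ?_⟩
    show σ (σ⁻¹ (ρ (σ x))) = ρ (σ x)
    rw [apply_inv_self]
  exact (Set.ncard_le_ncard hsub ((orb_finite F x).image _)).trans
    (Set.ncard_image_le (orb_finite F x))

lemma orb_ratio_ncard (F : GF) (x y : Qb) :
    (orb F (x / y)).ncard ≤ (orb F x).ncard * (orb F y).ncard := by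
  have hfin : ((orb F x) ×ˢ (orb F y)).Finite := (orb_finite F x).prod (orb_finite F y)
  have hsub : orb F (x / y) ⊆ (fun q : Qb × Qb => q.1 / q.2) '' ((orb F x) ×ˢ (orb F y)) := by
    rintro _ ⟨ρ, hρ, rfl⟩
    exact ⟨(ρ x, ρ y), ⟨⟨ρ, hρ, rfl⟩, ⟨ρ, hρ, rfl⟩⟩, by rw [map_div₀]⟩
  calc (orb F (x / y)).ncard ≤ _ := Set.ncard_le_ncard hsub (hfin.image _)
    _ ≤ ((orb F x) ×ˢ (orb F y)).ncard := Set.ncard_image_le hfin
    _ = _ := Set.ncard_prod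

lemma lowr_sq (c ε : ℝ) (D : ℕ) : lowr c (ε / 2) (D ^ 2) = lowr c (1 + ε) D := by
  unfold lowr
  have hD : (0 : ℝ) ≤ D := Nat.cast_nonneg D
  have e1 : ((D ^ 2 : ℕ) : ℝ) = (D : ℝ) ^ (2 : ℝ) := by
    rw [Real.rpow_two]
    push_cast
    rfl
  rw [e1, ← Real.rpow_mul hD]
  congr 2
  ring

/-- a torsion-rigid element has no more conjugates than its powers -/
lemma orb_pow_ncard_le {F : GF} {β : Qb} (hβ : β ≠ 0) (h : TorRigid F β) {m : ℕ} (hm : 0 < m) :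
    (orb F β).ncard ≤ (orb F (β ^ m)).ncard := by
  have hinj : Set.InjOn (fun x : Qb => x ^ m) (orb F β) := by
    rintro _ ⟨ρ, hρ, rfl⟩ _ ⟨ρ', hρ', rfl⟩ hxy
    have hxy' : (ρ β) ^ m = (ρ' β) ^ m := hxy
    have hρβ' : ρ' β ≠ 0 := (map_ne_zero ρ').mpr hβ
    have h1 : Tor (ρ β / ρ' β) := by
      refine ⟨m, hm, ?_⟩
      rw [div_pow, hxy', div_self (pow_ne_zero _ hρβ')]
    have h2 : Tor ((ρ'⁻¹ * ρ) β / β) := by
      have h3 := h1.map ρ'⁻¹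
      rw [map_div₀] at h3
      have h4 : ρ'⁻¹ (ρ' β) = β := inv_apply_self ρ' β
      rw [h4] at h3
      exact h3
    have h5 : (ρ'⁻¹ * ρ) β = β := h _ (fix_mul (fix_inv hρ') hρ) h2
    have h6 : ρ' ((ρ'⁻¹ * ρ) β) = ρ β := apply_inv_self ρ' (ρ β)
    rw [h5] at h6
    exact h6.symm
  have himg : (fun x : Qb => x ^ m) '' orb F β ⊆ orb F (β ^ m) := by
    rintro _ ⟨_, ⟨ρ, hρ, rfl⟩, rfl⟩
    exact ⟨ρ, hρ, map_pow ρ β m⟩
  calc (orb F β).ncard = ((fun x : Qb => x ^ m) '' orb F β).ncard :=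
        hinj.ncard_image.symm
    _ ≤ (orb F (β ^ m)).ncard := Set.ncard_le_ncard himg (orb_finite F _)

/-- powers have no more conjugates -/
lemma orb_pow_ncard_ge (F : GF) (β : Qb) (m : ℕ) :
    (orb F (β ^ m)).ncard ≤ (orb F β).ncard := by
  have hsub : orb F (β ^ m) ⊆ (fun x : Qb => x ^ m) '' orb F β := by
    rintro _ ⟨ρ, hρ, rfl⟩
    exact ⟨ρ β, ⟨ρ, hρ, rfl⟩, (map_pow ρ β m).symm⟩
  exact (Set.ncard_le_ncard hsub ((orb_finite F β).image _)).trans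
    (Set.ncard_image_le (orb_finite F β))

/-- the main theorem -/
def S_MAIN3 : Prop := ∀ (K : GF) (Γ : Subgroup Qbˣ), FiniteDimensional ℚ K → Γ.FG →
  (∀ g ∈ Γ, (g : Qb) ∈ K) → ∀ (P : Finset ℕ), (∀ p ∈ P, p.Prime) → ∀ ε : ℝ, 0 < ε →
  ∃ c : ℝ, 0 < c ∧ ∀ D D' m : ℕ, 0 < D → 0 < D' → 0 < m → ∀ α : Qb, α ≠ 0 →
    (orb (fullField K Γ P) α).ncard ≤ D → (orb (fullField K Γ P) (α ^ m)).ncard ≤ D' →
    ¬ DivG Γ α → ∀ γ : Qb, DivG Γ γ → c / (D * (D' : ℝ) ^ (1 + ε)) ≤ ht (α / γ)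

theorem main3 : S_CS3 → S_KS3 → S_BOG3 → S_MAIN3 := by
  intro hCS hKS hBOG K Γ hKfd hΓfg hΓ P hP ε hε
  classical
  set ε₁ : ℝ := ε / 2 with hε₁
  have hε₁0 : 0 < ε₁ := by positivity
  -- constants for the primes of `P`
  have hdes : ∀ p : ℕ, ∃ (n₀ : ℕ) (c : ℝ), 0 < c ∧ 0 < n₀ ∧ (p ∈ P → ∀ D : ℕ, 0 < D →
      ∀ (Finf : GF) (n M : ℕ)
      (β : Qb), n₀ ≤ n → ¬ p ∣ M → levInf K Γ (p ^ n * M) ≤ Finf → NormalOver K Finf →
      Good K Finf D (lowr c ε₁ D) β → Rigid Finf (levInf K Γ (p ^ n * M)) β →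
      ∃ γ : Qb, γ ≠ 0 ∧ DivG Γ γ ∧ γ ∈ Finf ∧
        Rigid Finf (levInf K Γ (p ^ (n - 1) * M)) (β / γ)) := by
    intro p
    by_cases hpP : p ∈ P
    · obtain ⟨n₀, c, hc, hn, h⟩ := descend3 hCS hKS p (hP p hpP) K Γ ε₁ hε₁0 hKfd hΓfg hΓ
      exact ⟨n₀, c, hc, hn, fun _ => h⟩
    · exact ⟨1, 1, one_pos, one_pos, fun h => absurd h hpP⟩
  choose n₀ Cp hCp hn₀ hstep using hdes
  set C₀ : ℝ := (1 + ∑ p ∈ P, (Cp p)⁻¹)⁻¹ with hC₀
  have hsum0 : 0 ≤ ∑ p ∈ P, (Cp p)⁻¹ := Finset.sum_nonneg fun p _ => (inv_pos.mpr (hCp p)).le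
  have hC₀pos : 0 < C₀ := by
    rw [hC₀]
    positivity
  have hC₀P : ∀ p ∈ P, C₀ ≤ Cp p := by
    intro p hp
    have h1 : (Cp p)⁻¹ ≤ ∑ p ∈ P, (Cp p)⁻¹ :=
      Finset.single_le_sum (f := fun p => (Cp p)⁻¹) (fun p _ => (inv_pos.mpr (hCp p)).le) hp
    rw [hC₀, ← inv_inv (Cp p)]
    apply inv_anti₀ (inv_pos.mpr (hCp p))
    linarith
  -- the bottom level
  set R₀ : ℕ := ∏ p ∈ P, p ^ n₀ p with hR₀
  have hR₀pos : 0 < R₀ := Finset.prod_pos fun p hp => pow_pos (hP p hp).pos _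
  have hR₀s : Smooth P R₀ := by
    refine ⟨hR₀pos, fun q hq hqR => ?_⟩
    obtain ⟨p, hp, hqp⟩ := (Prime.dvd_finsetProd_iff hq.prime _).mp hqR
    have h1 := hq.dvd_of_dvd_pow hqp
    rw [(Nat.prime_dvd_prime_iff_eq hq (hP p hp)).mp h1]
    exact hp
  set K₁ : GF := lev K Γ R₀ R₀ with hK₁
  have hK₁fd : FiniteDimensional ℚ K₁ := finiteDimensional_lev K hKfd Γ hΓfg R₀ R₀ hR₀pos hR₀pos
  have hKK₁ : K ≤ K₁ := le_lev K Γ _ _
  have hΓ₁ : ∀ g ∈ Γ, (g : Qb) ∈ K₁ := fun g hg => hKK₁ (hΓ g hg)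
  obtain ⟨CB, hCB, hBog⟩ := hBOG K₁ hK₁fd ε₁ hε₁0
  obtain ⟨S, hS⟩ := id hΓfg
  set H : ℝ := ∑ i ∈ S, ht (i : Qb) with hH
  have hH0 : 0 ≤ H := Finset.sum_nonneg (fun i _ => ht_nonneg _)
  set cB : ℝ := lowr CB ε₁ 1 with hcBdef
  have hcB : 0 < cB := lowr_pos hCB one_pos
  set T : ℕ := ⌊2 * H * cB⁻¹⌋₊ + 1 with hTdef
  have hTpos : 0 < T := Nat.succ_pos _
  have hTc : H < cB / 2 * T := by
    have h1 := Nat.lt_floor_add_one (2 * H * cB⁻¹)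
    have h2 : 2 * H * cB⁻¹ < (T : ℝ) := by rw [hTdef]; push_cast; exact h1
    have h3 : H = cB / 2 * (2 * H * cB⁻¹) := by field_simp
    calc H = cB / 2 * (2 * H * cB⁻¹) := h3
      _ < cB / 2 * T := mul_lt_mul_of_pos_left h2 (by positivity)
  have hTR : (0 : ℝ) < T := by exact_mod_cast hTpos
  have hbox := box_step2 K₁ Γ S hS hΓ₁ 1 cB hcB (hBog 1 one_pos) H hH T hTpos hTc
  set δ : ℝ := cB / 2 / (T : ℝ) ^ S.card with hδdef
  have hδ : 0 < δ := by positivity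
  -- the constant
  set C : ℝ := min (C₀ / 2) (min (CB / 2) δ) with hC
  have hCpos : 0 < C := by
    rw [hC]
    exact lt_min (by positivity) (lt_min (by positivity) hδ)
  have hC1 : C ≤ C₀ / 2 := min_le_left _ _
  have hC2 : C ≤ CB / 2 := (min_le_right _ _).trans (min_le_left _ _)
  have hC3 : C ≤ δ := (min_le_right _ _).trans (min_le_right _ _)
  refine ⟨C, hCpos, fun D D' m hD0 hD'0 hm0 => ?_⟩
  intro α hα hD hD' hnd γ₀ hγ₀
  by_contra hlt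
  push Not at hlt
  apply hnd
  have hγ₀0 : γ₀ ≠ 0 := Pool.Agent.TH53.RP.DivG.ne_zero hγ₀
  set Finf := fullField K Γ P with hFinf
  have hkinf : kinf K ≤ Finf := kinf_le_fullField K Γ P
  have htorF : ∀ x : Qb, Tor x → x ∈ Finf := fun x hx => hkinf (tor_mem_kinf K hx)
  have hnorm : NormalOver K Finf := normal_fullField K Γ hΓ P
  obtain ⟨e, he0, heT, heD⟩ := torRigid_split (Finf := Finf) htorF hα
  have heR : (0 : ℝ) < e := by exact_mod_cast he0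
  set x₀ : Qb := α / γ₀ with hx₀
  have hhx := ht_nonneg x₀
  set α₁ := α ^ e with hα₁
  have hα₁0 : α₁ ≠ 0 := pow_ne_zero _ hα
  set g₁ := γ₀ ^ e with hg₁
  have hg₁0 : g₁ ≠ 0 := pow_ne_zero _ hγ₀0
  have hg₁d : DivG Γ g₁ := divG_pow hγ₀ e
  have hquot : α₁ / g₁ = x₀ ^ e := by rw [hα₁, hg₁, ← div_pow]
  set D₁ : ℕ := (orb Finf α₁).ncard with hD₁
  have hD₁pos : 0 < D₁ := orb_ncard_pos Finf α₁
  have hD₁R : (1 : ℝ) ≤ D₁ := by exact_mod_cast hD₁pos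
  have heD' : e * D₁ ≤ D := heD.trans hD
  -- the bound for `e` times the height
  have hD₁D' : D₁ ≤ D' := by
    calc D₁ ≤ (orb Finf (α₁ ^ m)).ncard := orb_pow_ncard_le hα₁0 heT hm0
      _ = (orb Finf ((α ^ m) ^ e)).ncard := by rw [hα₁, ← pow_mul, ← pow_mul, mul_comm e m]
      _ ≤ (orb Finf (α ^ m)).ncard := orb_pow_ncard_ge Finf (α ^ m) e
      _ ≤ D' := hD'
  have heh : (e : ℝ) * ht x₀ < lowr C (1 + ε) D₁ := by
    have hD1R : (0 : ℝ) < D₁ := by exact_mod_cast hD₁pos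
    have hDR : (0 : ℝ) < D := by exact_mod_cast hD0
    have hD'R : (0 : ℝ) < D' := by exact_mod_cast hD'0
    have h1 : (e : ℝ) * D₁ ≤ D := by exact_mod_cast heD'
    have h2 : (D₁ : ℝ) ≤ D' := by exact_mod_cast hD₁D'
    have h3 : (D₁ : ℝ) ^ (1 + ε) ≤ (D' : ℝ) ^ (1 + ε) :=
      Real.rpow_le_rpow hD1R.le h2 (by linarith)
    have h4 : (0 : ℝ) < (D₁ : ℝ) ^ (1 + ε) := by positivity
    have h5 : (0 : ℝ) < (D' : ℝ) ^ (1 + ε) := by positivity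
    have h6 : (D₁ : ℝ) ^ (1 + (1 + ε)) = D₁ * (D₁ : ℝ) ^ (1 + ε) := by
      rw [Real.rpow_add hD1R, Real.rpow_one]
    calc (e : ℝ) * ht x₀ < e * (C / (D * (D' : ℝ) ^ (1 + ε))) := mul_lt_mul_of_pos_left hlt heR
      _ ≤ lowr C (1 + ε) D₁ := by
        unfold lowr
        rw [h6, ← mul_div_assoc, div_le_div_iff₀ (by positivity) (by positivity)]
        calc (e : ℝ) * C * (D₁ * (D₁ : ℝ) ^ (1 + ε))
            = C * ((e * D₁) * (D₁ : ℝ) ^ (1 + ε)) := by ring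
          _ ≤ C * (D * (D' : ℝ) ^ (1 + ε)) := by gcongr
  have hlt1 : 2 * (e * ht x₀) ≤ lowr C₀ ε₁ D₁ := by
    have h1 : lowr C (1 + ε) D₁ ≤ lowr C ε₁ D₁ := by
      unfold lowr
      apply div_le_div_of_nonneg_left hCpos.le (by positivity)
      apply Real.rpow_le_rpow_of_exponent_le hD₁R
      linarith
    have h2 : lowr C ε₁ D₁ ≤ lowr (C₀ / 2) ε₁ D₁ := lowr_mono hC1 D₁
    have h3 : lowr (C₀ / 2) ε₁ D₁ = lowr C₀ ε₁ D₁ / 2 := by
      unfold lowr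
      ring
    linarith
  have hlt2 : 2 * (e * ht x₀) < lowr CB ε₁ (D₁ ^ 2) := by
    rw [hε₁, lowr_sq]
    have h2 : lowr C (1 + ε) D₁ ≤ lowr (CB / 2) (1 + ε) D₁ := lowr_mono hC2 D₁
    have h3 : lowr (CB / 2) (1 + ε) D₁ = lowr CB (1 + ε) D₁ / 2 := by
      unfold lowr
      ring
    linarith
  have hlt3 : ht (α₁ / g₁) < δ := by
    rw [hquot, ht_pow]
    have h2 : lowr C (1 + ε) D₁ ≤ C := by
      unfold lowr
      apply div_le_self hCpos.le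
      exact Real.one_le_rpow hD₁R (by linarith)
    linarith
  have hhσ : ∀ σ : Aut, Fix K σ → ht (σ α₁ / α₁) ≤ 2 * (e * ht x₀) := by
    intro σ hσ
    rw [← ht_div hg₁0 (tor_ratio hΓ hg₁0 hg₁d hσ), hquot]
    have hx0 : x₀ ^ e ≠ 0 := pow_ne_zero _ (div_ne_zero hα hγ₀0)
    have h1 := ht_mul_le (σ (x₀ ^ e)) (x₀ ^ e)⁻¹
    rw [ht_inv _ hx0, Pool.Agent.H58B.ht_conj, ← div_eq_mul_inv, ht_pow] at h1
    linarith
  have hgood : Good K Finf D₁ (lowr C₀ ε₁ D₁) α₁ :=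
    { ne := hα₁0
      orb := le_rfl
      tor := heT
      ht := fun σ hσ => (hhσ σ hσ).trans hlt1 }
  -- a minimal level
  have hex : ∃ R : ℕ, Smooth P R ∧ ∃ γ : Qb, γ ≠ 0 ∧ DivG Γ γ ∧ γ ∈ Finf ∧
      Rigid Finf (levInf K Γ R) (α₁ / γ) := by
    obtain ⟨R, hR, hr⟩ := exists_rigid_levInf K Γ P α₁
    exact ⟨R, hR, 1, one_ne_zero, divG_tor Γ tor_one, one_mem _, by rw [div_one]; exact hr⟩
  obtain ⟨hRs, γ, hγ0, hγd, hγF, hγr⟩ := Nat.find_spec hex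
  set R := Nat.find hex with hRdef
  have hRdvd : R ∣ R₀ := by
    have hval : ∀ p ∈ P, R.factorization p < n₀ p := by
      intro p hpP
      by_contra hcon
      push Not at hcon
      have hp := hP p hpP
      obtain ⟨n, M, hM, hRn⟩ := Nat.exists_eq_pow_mul_and_not_dvd hRs.1.ne' p hp.ne_one
      have hn : R.factorization p = n := by
        rw [hRn, Nat.factorization_mul (pow_ne_zero _ hp.ne_zero)
          (by rintro rfl; exact hM (dvd_zero p)), Finsupp.add_apply, hp.factorization_pow,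
          Finsupp.single_eq_same, Nat.factorization_eq_zero_of_not_dvd hM, Nat.add_zero]
      rw [hn] at hcon
      have hg : Good K Finf D₁ (lowr (Cp p) ε₁ D₁) (α₁ / γ) :=
        (hgood.div hΓ hγ0 hγF hγd).mono (lowr_mono (hC₀P p hpP) D₁)
      have hle : levInf K Γ (p ^ n * M) ≤ Finf := by
        rw [← hRn]
        exact levInf_le_fullField K Γ hRs
      obtain ⟨γ', hγ'0, hγ'd, hγ'F, hγ'r⟩ := hstep p hpP D₁ hD₁pos Finf n M (α₁ / γ) hcon hM hle hnorm hg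
        (by rw [← hRn]; exact hγr)
      have hnpos : 0 < n := lt_of_lt_of_le (hn₀ p) hcon
      have hMpos : 0 < M := Nat.pos_of_ne_zero (by rintro rfl; exact hM (dvd_zero p))
      have hlt' : p ^ (n - 1) * M < R := by
        rw [hRn]
        apply Nat.mul_lt_mul_of_pos_right _ hMpos
        exact Nat.pow_lt_pow_right hp.one_lt (by omega)
      apply Nat.find_min hex hlt'
      refine ⟨hRs.of_dvd ?_, γ * γ', mul_ne_zero hγ0 hγ'0, hγd.mul hγ'd, mul_mem hγF hγ'F, ?_⟩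
      · rw [hRn]
        exact Nat.mul_dvd_mul_right (pow_dvd_pow p (by omega)) M
      · rw [← div_div]
        exact hγ'r
    rw [← Nat.factorization_le_iff_dvd hRs.1.ne' hR₀pos.ne']
    intro q
    by_cases hq : q ∈ P
    · have h1 : q ^ n₀ q ∣ R₀ := Finset.dvd_prod_of_mem _ hq
      have h2 : n₀ q ≤ R₀.factorization q :=
        ((hP q hq).pow_dvd_iff_le_factorization hR₀pos.ne').mp h1
      exact (hval q hq).le.trans h2
    · have h1 : R.factorization q = 0 := by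
        by_cases hqp : q.Prime
        · apply Nat.factorization_eq_zero_of_not_dvd
          intro h
          exact hq (hRs.2 q hqp h)
        · exact Nat.factorization_eq_zero_of_not_prime _ hqp
      rw [h1]
      exact Nat.zero_le _
  -- the conclusion
  have hle1 : levInf K Γ R ≤ kinf K₁ := by
    refine (levInf_mono K Γ hR₀pos hRdvd).trans (levInf_le ?_ ?_ ?_)
    · exact (le_lev K Γ R₀ R₀).trans (le_kinf K₁)
    · intro x hx
      exact tor_mem_kinf K₁ hx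
    · intro y hy
      exact le_kinf K₁ (rad_mem_lev K Γ hy)
  set β := α₁ / γ with hβ
  have hβ0 : β ≠ 0 := div_ne_zero hα₁0 hγ0
  have hgoodβ := hgood.div hΓ hγ0 hγF hγd
  have horb1 : (orb (kinf K₁) β).ncard ≤ (orb Finf β).ncard := by
    have h1 := orb_eq_of_rigid (levInf_le_fullField K Γ hRs) hγr
    calc (orb (kinf K₁) β).ncard ≤ (orb (levInf K Γ R) β).ncard :=
          Set.ncard_le_ncard (orb_mono hle1 _) (orb_finite _ _)
      _ = (orb Finf β).ncard := by rw [h1]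
  have horb : (orb (kinf K₁) β).ncard ≤ D₁ := horb1.trans hgoodβ.orb
  -- the ratios are torsion
  have hβt : ∀ σ : Aut, Fix K₁ σ → Tor (σ β / β) := by
    intro σ hσ
    by_contra hcon
    have h1 : (orb (kinf K₁) (σ β / β)).ncard ≤ D₁ ^ 2 := by
      calc _ ≤ _ := orb_ratio_ncard (kinf K₁) (σ β) β
        _ ≤ D₁ * D₁ := Nat.mul_le_mul ((orb_conj_ncard (normal_kinf K₁) hσ β).trans horb) horb
        _ = D₁ ^ 2 := (pow_two _).symm
    have h2 := hBog (D₁ ^ 2) (pow_pos hD₁pos 2) (σ β / β)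
      (div_ne_zero ((map_ne_zero σ).mpr hβ0) hβ0) h1 hcon
    have hσK : Fix K σ := fix_mono hKK₁ hσ
    have h3 : ht (σ β / β) ≤ 2 * (e * ht x₀) := by
      rw [hβ, ht_div hγ0 (tor_ratio hΓ hγ0 hγd hσK)]
      exact hhσ σ hσK
    linarith
  have hK₁F : K₁ ≤ Finf := (lev_le_levInf K Γ hR₀pos).trans (levInf_le_fullField K Γ hR₀s)
  have horbF : (orb Finf β).ncard ≤ 1 := by
    have hsub : orb Finf β ⊆ {β} := by
      rintro _ ⟨ρ, hρ, rfl⟩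
      rw [Set.mem_singleton_iff]
      exact hgoodβ.tor ρ hρ (hβt ρ (fix_mono hK₁F hρ))
    exact (Set.ncard_le_ncard hsub (Set.finite_singleton β)).trans (Set.ncard_singleton β).le
  have hbb : (α₁ / g₁) / (γ / g₁) = β := by
    rw [hβ, div_div_div_cancel_right₀ hg₁0]
  obtain hdiv := hbox (α₁ / g₁) (γ / g₁) (div_ne_zero hα₁0 hg₁0) (div_ne_zero hγ0 hg₁0)
    (by rw [div_eq_mul_inv]; exact hγd.mul (divG_inv hg₁d))
    (by rw [hbb]; exact horb1.trans horbF) hlt3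
  have hα₁d : DivG Γ α₁ := by
    have h1 : α₁ = (α₁ / g₁) * g₁ := by rw [div_mul_cancel₀ _ hg₁0]
    rw [h1]
    exact hdiv.mul hg₁d
  exact Pool.Agent.TH53.RP.DivG.of_pow he0 hα₁d

theorem cs3' : S_CS3 := cs3 gl3 lt
theorem bog3' : S_BOG3 := bog3 cs3' frob glf3
theorem ks3' : S_KS3 := ks3 gl3 lt ki Pool.Agent.W402.RK.kd.2
theorem main3' : S_MAIN3 := main3 cs3' ks3' bog3'

end Pool.Agent.H54.RX
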